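import Mathlib

/-! Definitions for the weak Leopoldt conjecture for Galois representations. -/

set_option autoImplicit false

open NumberField IsDedekindDomain

namespace Pool.Agent.MP_3e91a1_nt.WL

/-- `K_S` inside the algebraic closure `Ω`: the fixed field of the inertia groups in `Gal(Ω/K)` of
all primes of `Ω` that do not lie over a prime in `S` -/
noncomputable def maxUnr (K Ω : Type) [Field K] [Field Ω] [Algebra K Ω]
    (S : Set (HeightOneSpectrum (𝓞 K))) : IntermediateField K Ω :=
  IntermediateField.fixedField (⨆ (P : Ideal (𝓞 Ω)) (_ : P.IsMaximal)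
    (_ : ∀ v ∈ S, P.under (𝓞 K) ≠ v.asIdeal), P.inertia (Ω ≃ₐ[K] Ω))

/-- the primes of `K` above `p` -/
def primesAbove (K : Type) [Field K] (p : ℕ) : Set (HeightOneSpectrum (𝓞 K)) :=
  {v | (p : 𝓞 K) ∈ v.asIdeal}

/-- `H²(G, A) = 0` for the discrete module `A` with action `a`: every continuous two-cocycle is
the boundary of a continuous one-cochain -/
def H2Zero {G A : Type} [Group G] [TopologicalSpace G] [AddCommGroup A] (a : G → A → A) : Prop :=
  ∀ c : G × G → A, IsLocallyConstant c →
    (∀ g h j, a g (c (h, j)) - c (g * h, j) + c (g, h * j) - c (g, h) = 0) →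
    ∃ b : G → A, IsLocallyConstant b ∧ ∀ g h, c (g, h) = a g (b h) - b (g * h) + b g

/-- the action of a matrix over `O` on `(F / O) ^ d` -/
noncomputable def matAct (O F : Type) [CommRing O] [Field F] [Algebra O F] {d : ℕ}
    (m : GL (Fin d) O) (x : Fin d → F ⧸ (1 : Submodule O F)) : Fin d → F ⧸ (1 : Submodule O F) :=
  fun i => ∑ j, m i j • x j

/-- modulo the maximal ideal of `O`, the representation `ρ` of `Gal(L/K)` is upper triangular and
each diagonal entry is `ω ^ e` for some `e ∈ E`, where `g z = z ^ ω(g)` for the `p`-th roots of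
unity `z` -/
def Residual (p : ℕ) {K L O : Type} [Field K] [Field L] [Algebra K L] [CommRing O] {d : ℕ}
    (E : Set ℕ) (ρ : (L ≃ₐ[K] L) →* GL (Fin d) O) : Prop :=
  (∀ g i j, j < i → ρ g i j ∈ nonunits O) ∧
  ∀ i, ∃ e ∈ E, ∀ (g : L ≃ₐ[K] L) (a : ℕ), (∀ z : L, z ^ p = 1 → g z = z ^ a) →
    ρ g i i - (a : O) ^ e ∈ nonunits O

/-- For `L = K_S`: for all `ℤ_p`-extensions (the fixed field of the kernel of `κ`) in which the
primes of `S` are finitely decomposed and all continuous `ρ` over `O` of residual type `E`, the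
group `H²(K_S/K_∞, (F/O)^d)` vanishes. -/
def Vanish (p : ℕ) [Fact p.Prime] (K L O F : Type) [Field K] [Field L] [Algebra K L] [CommRing O]
    [TopologicalSpace O] [Field F] [Algebra O F] (S : Set (HeightOneSpectrum (𝓞 K)))
    (E : Set ℕ) : Prop :=
  ∀ (κ : (L ≃ₐ[K] L) →* Multiplicative ℤ_[p]) (d : ℕ) (ρ : (L ≃ₐ[K] L) →* GL (Fin d) O),
    Continuous κ → Function.Surjective κ →
    (∀ v ∈ S, (v.asIdeal.primesOver (𝓞 (IntermediateField.fixedField κ.ker))).Finite) →
    Continuous ρ → Residual p E ρ → H2Zero fun g : κ.ker => matAct O F (ρ g)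

/-- the valuation ring `O` of an algebraic extension `F` of `ℚ_p` -/
def valRing {p : ℕ} [Fact p.Prime] (F : IntermediateField ℚ_[p] (PadicAlgCl p)) : Subring F where
  carrier := {x | ‖(x : PadicAlgCl p)‖ ≤ 1}
  mul_mem' ha hb := (norm_mul_le _ _).trans (mul_le_one₀ ha (norm_nonneg _) hb)
  one_mem' := norm_one.le
  add_mem' ha hb := (IsUltrametricDist.norm_add_le_max _ _).trans (max_le ha hb)
  zero_mem' := norm_zero.le.trans zero_le_one
  neg_mem' ha := (norm_neg _).le.trans ha

/-- The weak Leopoldt conjecture for `p` and `K`, all finite sets `S` that contain the primes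
above `p`, all coefficient fields `F`, and residual type `E`. -/
def WeakLeopoldt (p : ℕ) [Fact p.Prime] (K Ω : Type) [Field K] [Field Ω] [Algebra K Ω]
    (E : Set ℕ) : Prop :=
  ∀ (S : Set (HeightOneSpectrum (𝓞 K))) (F : IntermediateField ℚ_[p] (PadicAlgCl p)),
    S.Finite → primesAbove K p ⊆ S → Vanish p K (maxUnr K Ω S) (valRing F) F S E

/-- `K` contains `K₀` and lies in a finite Galois extension of `K₀` of `p`-power degree that is
unramified outside `p` -/
def PExt (p : ℕ) {k Ω : Type} [Field k] [Field Ω] [Algebra k Ω] (K₀ K : IntermediateField k Ω) :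
    Prop :=
  K₀ ≤ K ∧ ∃ (M : IntermediateField K₀ Ω) (n : ℕ), IsGalois K₀ M ∧
    Module.finrank K₀ M = p ^ n ∧ M ≤ maxUnr K₀ Ω (primesAbove K₀ p) ∧ ∀ x ∈ K, x ∈ M

end Pool.Agent.MP_3e91a1_nt.WL
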