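import Pool.Agent.MP_3e91a1_nt.Defs
import Pool.Agent.MP_3e91a1_nt.Stm

set_option autoImplicit false

open NumberField IsDedekindDomain

namespace Pool.Agent.MP_3e91a1_nt

theorem nonunit_BRG {p : ℕ} [Fact p.Prime] {F : IntermediateField ℚ_[p] (PadicAlgCl p)}
    {x : WL.valRing F} (h : x ∈ nonunits (WL.valRing F)) : ‖((x : F) : PadicAlgCl p)‖ < 1 := by
  refine lt_of_le_of_ne x.2 fun e => h ?_
  have x0 : (x : F) ≠ 0 := fun c => by simp [c] at e
  refine IsUnit.of_mul_eq_one ⟨(x : F)⁻¹, ?_⟩ (Subtype.ext (mul_inv_cancel₀ x0))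
  change ‖(((x : F)⁻¹ : F) : PadicAlgCl p)‖ ≤ 1
  rw [IntermediateField.coe_inv, norm_inv, e, inv_one]

theorem wl_BRG {p : ℕ} [Fact p.Prime] {K : IntermediateField ℚ Qbar} {E : Set ℕ}
    (h : WeakLeopoldt p K E) : WL.WeakLeopoldt p K Qbar E :=
  fun S F hS hp κ d ρ c1 c2 c3 c4 c5 => h S κ F d ρ hS hp c1 c2 c3 c4
    ⟨fun g i j hj => nonunit_BRG (c5.1 g i j hj), fun i => (c5.2 i).imp fun _ he =>
      ⟨he.1, fun g a ha => by
        have := nonunit_BRG (he.2 g a ha)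
        simp only [AddSubgroupClass.coe_sub, SubmonoidClass.coe_pow, SubringClass.coe_natCast]
          at this
        exact this⟩⟩

theorem pext_BRG {p : ℕ} {K₀ K : IntermediateField ℚ Qbar} (h : WL.PExt p K₀ K) : PExt p K₀ K := h

end Pool.Agent.MP_3e91a1_nt
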