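import Mathlib

/-! Definitions for the weak Leopoldt conjecture for Galois representations. -/

set_option autoImplicit false

open NumberField IsDedekindDomain

namespace Pool.Agent.MP_3e91a1_nt

/-- the field of algebraic numbers -/
abbrev Qbar : Type := AlgebraicClosure ℚ

/-- `K_S`: the fixed field of the inertia groups in `Gal(Q̄/K)` of all primes of `Q̄` that do not
lie over a prime in `S` -/
noncomputable def maxUnr (K : IntermediateField ℚ Qbar) (S : Set (HeightOneSpectrum (𝓞 K))) :
    IntermediateField K Qbar :=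
  IntermediateField.fixedField (⨆ (P : Ideal (𝓞 Qbar)) (_ : P.IsMaximal)
    (_ : ∀ v ∈ S, P.under (𝓞 K) ≠ v.asIdeal), P.inertia (Qbar ≃ₐ[K] Qbar))

/-- `G_(K,S) = Gal(K_S / K)`, with the Krull topology -/
abbrev GalS (K : IntermediateField ℚ Qbar) (S : Set (HeightOneSpectrum (𝓞 K))) : Type :=
  maxUnr K S ≃ₐ[K] maxUnr K S

/-- the primes of `K` above `p` -/
def primesAbove (K : IntermediateField ℚ Qbar) (p : ℕ) : Set (HeightOneSpectrum (𝓞 K)) :=
  {v | (p : 𝓞 K) ∈ v.asIdeal}

/-- `H²(G, A) = 0` for the discrete module `A` with action `a`: every continuous two-cocycle is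
the boundary of a continuous one-cochain -/
def H2Zero {G A : Type} [Group G] [TopologicalSpace G] [AddCommGroup A] (a : G → A → A) : Prop :=
  ∀ c : G × G → A, IsLocallyConstant c →
    (∀ g h j, a g (c (h, j)) - c (g * h, j) + c (g, h * j) - c (g, h) = 0) →
    ∃ b : G → A, IsLocallyConstant b ∧ ∀ g h, c (g, h) = a g (b h) - b (g * h) + b g

variable {p : ℕ} [Fact p.Prime]

/-- the valuation ring `O` of an algebraic extension `F` of `ℚ_p` -/
def valRing (F : IntermediateField ℚ_[p] (PadicAlgCl p)) : Subring F where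
  carrier := {x | ‖(x : PadicAlgCl p)‖ ≤ 1}
  mul_mem' ha hb := (norm_mul_le _ _).trans (mul_le_one₀ ha (norm_nonneg _) hb)
  one_mem' := norm_one.le
  add_mem' ha hb := (IsUltrametricDist.norm_add_le_max _ _).trans (max_le ha hb)
  zero_mem' := norm_zero.le.trans zero_le_one
  neg_mem' ha := (norm_neg _).le.trans ha

/-- the module `(F / O) ^ d` -/
abbrev DivMod (F : IntermediateField ℚ_[p] (PadicAlgCl p)) (d : ℕ) : Type :=
  Fin d → F ⧸ (1 : Submodule (valRing F) F)

/-- the action of a matrix over `O` on `(F / O) ^ d` -/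
noncomputable def matAct {F : IntermediateField ℚ_[p] (PadicAlgCl p)} {d : ℕ}
    (m : GL (Fin d) (valRing F)) (x : DivMod F d) : DivMod F d :=
  fun i => ∑ j, m i j • x j

/-- modulo the maximal ideal of `O`, the representation `ρ` is upper triangular and each diagonal
entry is `ω ^ e` for some `e ∈ E`, where `g z = z ^ ω(g)` for the `p`-th roots of unity `z` -/
def Residual {K : IntermediateField ℚ Qbar} {S : Set (HeightOneSpectrum (𝓞 K))}
    {F : IntermediateField ℚ_[p] (PadicAlgCl p)} {d : ℕ} (E : Set ℕ)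
    (ρ : GalS K S →* GL (Fin d) (valRing F)) : Prop :=
  (∀ g i j, j < i → ‖((ρ g i j : F) : PadicAlgCl p)‖ < 1) ∧
  ∀ i, ∃ e ∈ E, ∀ (g : GalS K S) (a : ℕ), (∀ z : maxUnr K S, z ^ p = 1 → g z = z ^ a) →
    ‖((ρ g i i : F) : PadicAlgCl p) - (a : PadicAlgCl p) ^ e‖ < 1

/-- The weak Leopoldt conjecture for `p` and `K`, all finite sets `S` that contain the primes
above `p`, all `ℤ_p`-extensions (the fixed field of the kernel of `κ`) in which the primes of `S`
are finitely decomposed, and all continuous `ρ` of residual type `E`. -/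
def WeakLeopoldt (p : ℕ) [Fact p.Prime] (K : IntermediateField ℚ Qbar) (E : Set ℕ) : Prop :=
  ∀ (S : Set (HeightOneSpectrum (𝓞 K))) (κ : GalS K S →* Multiplicative ℤ_[p])
    (F : IntermediateField ℚ_[p] (PadicAlgCl p)) (d : ℕ) (ρ : GalS K S →* GL (Fin d) (valRing F)),
    S.Finite → primesAbove K p ⊆ S → Continuous κ → Function.Surjective κ →
    (∀ v ∈ S, (v.asIdeal.primesOver (𝓞 (IntermediateField.fixedField κ.ker))).Finite) →
    Continuous ρ → Residual E ρ → H2Zero fun (g : κ.ker) (x : DivMod F d) => matAct (ρ g) x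

/-- `K` contains `K₀` and lies in a finite Galois extension of `K₀` of `p`-power degree that is
unramified outside `p` -/
def PExt (p : ℕ) (K₀ K : IntermediateField ℚ Qbar) : Prop :=
  K₀ ≤ K ∧ ∃ (M : IntermediateField K₀ Qbar) (n : ℕ), IsGalois K₀ M ∧
    Module.finrank K₀ M = p ^ n ∧ M ≤ maxUnr K₀ (primesAbove K₀ p) ∧ ∀ x ∈ K, x ∈ M

end Pool.Agent.MP_3e91a1_nt
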