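import Pool.Agent.MP_3e91a1_nt.St

set_option autoImplicit false

open Filter NumberField

namespace Pool.Agent.MP_3e91a1_nt

theorem small_DEN (B : ℕ) : ∀ᶠ x : ℕ in atTop,
    (x : ℝ) / (338 * Real.log x) + (B + 1) ≤ (x : ℝ) / (337 * Real.log x) := by
  have h := (Real.isLittleO_log_id_atTop.comp_tendsto tendsto_natCast_atTop_atTop).bound
    (show (0 : ℝ) < 1 / (337 * 338 * (B + 1)) by positivity)
  filter_upwards [h, eventually_ge_atTop 2] with x h hx
  have l0 : 0 < Real.log x := Real.log_pos (by exact_mod_cast hx)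
  simp only [Function.comp, id, Real.norm_eq_abs, abs_of_pos l0, Nat.abs_cast] at h
  rw [one_div, inv_mul_eq_div, le_div_iff₀ (by positivity)] at h
  rw [div_add' _ _ _ (by positivity), div_le_div_iff₀ (by positivity) (by positivity)]
  nlinarith [mul_le_mul_of_nonneg_left h l0.le]

theorem lose_DEN (P Q : ℕ → Prop) [DecidablePred P] (B : ℕ) (h : ∀ p, B < p → P p → Q p)
    (hP : ∀ᶠ x : ℕ in atTop, (x : ℝ) / (337 * Real.log x) ≤
      (((Finset.Ioc 0 x).filter P).card : ℝ)) : ∀ᶠ x : ℕ in atTop,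
    (x : ℝ) / (338 * Real.log x) ≤ (Set.ncard {p | p ≤ x ∧ Q p} : ℝ) := by
  filter_upwards [hP, small_DEN B] with x h1 h2
  have h3 : (((Finset.Ioc 0 x).filter P : Finset ℕ) : Set ℕ) ⊆
      {p | p ≤ x ∧ Q p} ∪ (Finset.range (B + 1) : Finset ℕ) := fun p hp => by
    simp only [Finset.coe_filter, Finset.mem_Ioc, Set.mem_ofPred_eq] at hp
    rcases lt_or_ge B p with hB | hB
    · exact Or.inl ⟨hp.1.2, h p hB hp.2⟩
    · exact Or.inr (by simpa using Nat.lt_succ_of_le hB)
  have f1 : {p | p ≤ x ∧ Q p}.Finite := (Set.finite_le_nat x).subset fun p hp => hp.1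
  have h4 := (Set.ncard_le_ncard h3 (f1.union (Finset.finite_toSet _))).trans
    (Set.ncard_union_le _ _)
  rw [Set.ncard_coe_finset, Set.ncard_coe_finset, Finset.card_range] at h4
  have h5 : (((Finset.Ioc 0 x).filter P).card : ℝ) ≤
      (Set.ncard {p | p ≤ x ∧ Q p} : ℝ) + (B + 1) := by exact_mod_cast h4
  linarith

end Pool.Agent.MP_3e91a1_nt
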