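import Pool.Agent.MP_3e91a1_nt.Defs
import Pool.Agent.MP_e23604_nt.R.CAll
import Pool.Agent.MP_346737_nt.VDefs

/-! Definitions and statements of the steps. -/

set_option autoImplicit false

open NumberField IsDedekindDomain Module Filter Topology Finset Polynomial
open scoped Classical

namespace Pool.Agent.MP_3e91a1_nt

open MP_e23604_nt MP_e23604_nt.B MP_e23604_nt.R MP_f3cd89_nt

/-- the norm map of a cyclic group -/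
def Nm {K F : Type} [Field K] [Field F] [Algebra K F] (n : ℕ) (s : F ≃ₐ[K] F) (y : F) : F :=
  ∏ i ∈ range n, (s ^ i) y

/-- `a` is a norm modulo `w ^ n` -/
def Apx {K F : Type} [Field K] [Field F] [NumberField F] [Algebra K F] (p : ℕ) (σ : F ≃ₐ[K] F)
    (w : Pr F) (n : ℕ) (a : F) : Prop := ∃ y, y ≠ 0 ∧ Cong {w} n (a / Nm p σ y)

/-- `H` is the kernel of the surjective character `χ` of `H'` -/
structure Step (p : ℕ) (H H' : Subgroup GQ) (χ : GQ → ZMod p) (s : GQ) : Prop where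
  add : Adt H' χ
  ker : ∀ g, g ∈ H ↔ g ∈ H' ∧ χ g = 0
  mem : s ∈ H'
  one : χ s = 1

/-- `a` is a norm from the fixed field of `H` -/
def IsN (p : ℕ) (H : Subgroup GQ) (s : GQ) (a : Qb) : Prop :=
  ∃ y, y ≠ 0 ∧ Fix H y ∧ Nm p s y = a

/-- `N` is stable under conjugation by `H` -/
def Nrm (N H : Subgroup GQ) : Prop := ∀ g ∈ H, ∀ n ∈ N, g * n * g⁻¹ ∈ N

/-- open subgroups of a decomposition group -/
def Loc (l : ℕ) [Fact l.Prime] (γ : GQ) (D : Subgroup GQ) : Prop :=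
  D ≤ Dec (nv l γ) ∧ ∃ N, ON N ∧ Dec (nv l γ) ⊓ N ≤ D

/-- the absolute value `nv l γ` belongs to the prime `w` -/
def Pl (L : IntermediateField ℚ Qb) [NumberField L] (w : Pr L) (l : ℕ) [Fact l.Prime] (γ : GQ)
    (t : ℝ) : Prop := 1 < t ∧ ∀ x : L, x ≠ 0 → nv l γ (x : Qb) = t ^ (-ord w x)

/-- `g'` is the restriction of `g` -/
def Ind {L : IntermediateField ℚ Qb} (g : GQ) (g' : L ≃ₐ[ℚ] L) : Prop :=
  ∀ x : L, (g' x : Qb) = g x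

/-- `f` vanishes on principal divisors -/
def Kil {L : Type} [Field L] [NumberField L] {p : ℕ} (f : Pr L → ZMod p) : Prop :=
  ∀ x : L, x ≠ 0 → ((dv x).sum fun w n => (n : ZMod p) * f w) = 0

/-- the `e`-eigenspace of `δ` on the group of `p`-ideal classes modulo `p` vanishes -/
def CG (p : ℕ) (L : Type) [Field L] [NumberField L] (δ : L ≃ₐ[ℚ] L) (e : ZMod p) : Prop :=
  ∀ f : Pr L → ZMod p, Kil f → (∀ w : Pr L, (p : 𝓞 L) ∈ w.asIdeal → f w = 0) →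
    (∀ w, f (gact δ w) = e * f w) → ∀ w, f w = 0

/-- the property that ascends in the tower -/
structure Good (p : ℕ) [Fact p.Prime] (ζ : Qb) (r : ℕ) (e : ZMod p) (U : Subgroup GQ) : Prop where
  opn : IsOpen (U : Set GQ)
  dec : ∀ γ, ∃ δ ∈ Dec (nv p γ) ⊓ U, δ ζ = ζ ^ r
  cg : ∀ δ ∈ U, δ ζ = ζ ^ r → ∀ (L : IntermediateField ℚ Qb) [NumberField L] (δ' : L ≃ₐ[ℚ] L),
    (∀ x, x ∈ L ↔ Fix (U ⊓ MulAction.stabilizer GQ ζ) x) → Ind δ δ' → CG p L δ' e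

/-- a `ℤ_p`-extension and its layers -/
structure ZP (p : ℕ) [Fact p.Prime] (U : Subgroup GQ) (κ : GQ → ℤ_[p]) (K : ℕ → Subgroup GQ) :
    Prop where
  add : Adt U κ
  mem : ∀ n g, g ∈ K n ↔ g ∈ U ∧ (p : ℤ_[p]) ^ n ∣ κ g
  opn : ∀ n, IsOpen (K n : Set GQ)
  sur : ∀ z, ∃ g ∈ U, κ g = z

/-- twisted two-cocycles -/
def TCoc {p : ℕ} (U : Subgroup GQ) (ψ : GQ → ZMod p) (c : GQ → GQ → ZMod p) : Prop :=
  ∀ g ∈ U, ∀ h ∈ U, ∀ j ∈ U, ψ g * c h j - c (g * h) j + c g (h * j) - c g h = 0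

/-- functions of two variables of level `N` -/
def Cst2 {α : Type} (N U : Subgroup GQ) (c : GQ → GQ → α) : Prop :=
  (∀ g ∈ U, Cst N U (c g)) ∧ ∀ h ∈ U, Cst N U fun g => c g h

/-- `N` contains the inertia groups in `U` of the places outside `B` -/
def Off (B : Set (AbsoluteValue Qb ℝ)) (U N : Subgroup GQ) : Prop :=
  ∀ (l : ℕ) [Fact l.Prime] (γ : GQ), nv l γ ∉ B → Ine l γ ⊓ U ≤ N

/-- `B` contains the places above `p` and is stable under `U` -/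
structure Bad (p : ℕ) [Fact p.Prime] (U : Subgroup GQ) (B : Set (AbsoluteValue Qb ℝ)) : Prop where
  atp : ∀ γ, nv p γ ∈ B
  stb : ∀ (l : ℕ) [Fact l.Prime] (γ g : GQ), g ∈ U → (nv l (γ * g) ∈ B ↔ nv l γ ∈ B)

/-- the places in `B` are finitely decomposed, uniformly -/
def FD (B : Set (AbsoluteValue Qb ℝ)) (U : Subgroup GQ) (K : ℕ → Subgroup GQ) : Prop :=
  ∃ e, ∀ (l : ℕ) [Fact l.Prime] (γ : GQ), nv l γ ∈ B → ∃ g ∈ Dec (nv l γ) ⊓ U, g ∉ K e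

/-- the polynomials with `(z d/dz) ^ n (z / (1 - z)) = Qp n (z / (1 - z))` -/
noncomputable def Qp : ℕ → ℤ[X]
  | 0 => X
  | n + 1 => derivative (Qp n) * (X * (1 + X))

/-- the twisted sum of the polylogarithms of negative weight -/
noncomputable def Tq {k : Type} [Field k] {d : ℕ} (χ : MulChar (ZMod d) ℤ) (n : ℕ) (w : k) : k :=
  ∑ a ∈ range d, ((χ a : ℤ) : k) * aeval (w ^ a / (1 - w ^ a)) (Qp n)

/-! ### Tools -/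

/-- elementary facts on steps and norms -/
def SB_st : Prop := ∀ (p : ℕ) [Fact p.Prime] (H H' : Subgroup GQ) (χ : GQ → ZMod p) (s : GQ),
  Step p H H' χ s → H ≤ H' ∧ Nrm H H' ∧ s ∉ H ∧ (∀ g ∈ H', g ^ p ∈ H) ∧ H.relIndex H' = p ∧
    (∀ g ∈ H', χ g⁻¹ = -χ g ∧ ∀ i : ℕ, χ (g ^ i) = i * χ g) ∧
    (∀ g ∈ H', (s ^ (χ g).val)⁻¹ * g ∈ H) ∧
    (∀ g ∈ H', g ∉ H → ∃ i : ℕ, χ (g ^ i) = 1) ∧
    (∀ x, Fix H x → s x = x → Fix H' x) ∧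
    (∀ x, Fix H x → ∀ g ∈ H', Fix H (g x)) ∧
    (∀ y, Fix H y → Fix H' (Nm p s y) ∧ ∀ g ∈ H', g ∉ H → Nm p g y = Nm p s y) ∧
    (∀ x, s x = x → Nm p s x = x ^ p) ∧
    (∀ a b, IsN p H s a → IsN p H s b → IsN p H s (a * b) ∧ IsN p H s (a / b)) ∧
    (∀ a, IsN p H s a → a ≠ 0 ∧ Fix H' a ∧ ∀ i : ℕ, IsN p H s (a ^ i)) ∧
    (∀ a, a ≠ 0 → Fix H' a → IsN p H s (a ^ p) ∧
      ∀ m : ℕ, ¬ p ∣ m → IsN p H s (a ^ m) → IsN p H s a) ∧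
    (∀ D : Subgroup GQ, ∀ t ∈ D ⊓ H', χ t = 1 → Step p (D ⊓ H) (D ⊓ H') χ t) ∧
    (IsOpen (H : Set GQ) → Lc H' χ) ∧
    ∀ (l : ℕ) [Fact l.Prime] (γ : GQ), Loc l γ H' → Lc H' χ → Loc l γ H

/-- kernels of characters -/
def KER_st : Prop := ∀ (p : ℕ) (H' : Subgroup GQ) (χ : GQ → ZMod p), Adt H' χ →
  ∃ H : Subgroup GQ, ∀ g, g ∈ H ↔ g ∈ H' ∧ χ g = 0

/-- the fixed field of an open subgroup -/
def RES_st : Prop := ∀ H : Subgroup GQ, IsOpen (H : Set GQ) →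
  ∃ (L : IntermediateField ℚ Qb) (_ : NumberField L), (∀ x, x ∈ L ↔ Fix H x) ∧
    (∀ g : GQ, (∀ x ∈ L, g x = x) → g ∈ H) ∧
    (∀ g : GQ, (∀ h, h ∈ H ↔ g * h * g⁻¹ ∈ H) → ∃ g' : L ≃ₐ[ℚ] L, Ind g g') ∧
    ∀ g' : L ≃ₐ[ℚ] L, ∃ g : GQ, Ind g g'

/-- primes and absolute values -/
def PLC_st : Prop := ∀ (L : IntermediateField ℚ Qb) [NumberField L],
  (∀ (l : ℕ) [Fact l.Prime] (γ : GQ), ∃ w t, Pl L w l γ t) ∧
  ∀ (w : Pr L) (l : ℕ) [Fact l.Prime] (γ : GQ) (t : ℝ), Pl L w l γ t →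
    (∀ (l' : ℕ) [Fact l'.Prime] (γ' : GQ) (t' : ℝ), Pl L w l' γ' t' → l' = l ∧ t' = t ∧
      ∃ u : GQ, (∀ x ∈ L, u x = x) ∧ nv l' γ' = nv l (γ * u)) ∧
    (∀ w' t', Pl L w' l γ t' → w' = w) ∧
    (∀ q : ℕ, q.Prime → ((q : 𝓞 L) ∈ w.asIdeal ↔ q = l)) ∧
    (∀ (g : GQ) (g' : L ≃ₐ[ℚ] L), Ind g g' → Pl L (gact g' w) l (γ * g⁻¹) t ∧
      (g ∈ Dec (nv l γ) → gact g' w = w) ∧
      (gact g' w = w → ∃ h ∈ Dec (nv l γ), Ind h g') ∧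
      (g' ∈ w.asIdeal.inertia (L ≃ₐ[ℚ] L) → ∃ h ∈ Ine l γ, Ind h g')) ∧
    (∀ y : Qb, y ≠ 0 → (∀ τ ∈ Ine l γ, (∀ x ∈ L, τ x = x) → τ y = y) →
      ∃ n : ℤ, nv l γ y = t ^ n) ∧
    ∀ (n : ℕ) (x : L), Cong {w} n x ↔ nv l γ ((x : Qb) - 1) ≤ t ^ (-(n : ℤ))

/-- subgroups of groups with a normal subgroup of finite index -/
def IND_st : Prop := ∀ (p : ℕ) [Fact p.Prime],
  (∀ (N H₀ U : Subgroup GQ) (P : Subgroup GQ → Prop), N ≤ H₀ → H₀ ≤ U → Nrm N U →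
    N.relIndex U ≠ 0 → (∀ g ∈ U, ∃ k : ℕ, g ^ p ^ k ∈ N) → P H₀ →
    (∀ H H' χ s, H₀ ≤ H → H' ≤ U → Step p H H' χ s → P H → P H') → P U) ∧
  (∀ N W : Subgroup GQ, N ≤ W → Nrm N W → N.relIndex W ≠ 0 → ∃ H, N ≤ H ∧ H ≤ W ∧
    (∀ g ∈ H, ∃ k : ℕ, g ^ p ^ k ∈ N) ∧ ¬ p ∣ H.relIndex W) ∧
  (∀ (H W K : Subgroup GQ) (n : ℕ), H ≤ W → Nrm K W → K.relIndex W ≠ 0 →
    (∀ g ∈ W, g ^ p ^ n ∈ K) → ¬ p ∣ H.relIndex W →
    (H ⊓ K).relIndex (W ⊓ K) = H.relIndex W) ∧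
  (∀ N U : Subgroup GQ, IsOpen (N : Set GQ) → N.relIndex U ≠ 0) ∧
  ∀ N U : Subgroup GQ, IsOpen (N : Set GQ) → ∃ N' : Subgroup GQ, IsOpen (N' : Set GQ) ∧
    N' ≤ N ∧ Nrm N' U ∧ ∀ x, (∀ u ∈ U, u * x * u⁻¹ ∈ N) → x ∈ N'

/-- the transfer -/
def COR_st : Prop := ∀ (A : Type) [AddCommGroup A] (ρ : GQ → A →+ A) (N H U : Subgroup GQ)
  (c : GQ → GQ → A) (β : GQ → A), N ≤ H → H ≤ U → Nrm N U → H.relIndex U ≠ 0 →
  (∀ g ∈ U, ∀ h ∈ U, ∀ x, ρ (g * h) x = ρ g (ρ h x)) →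
  (∀ g ∈ U, ∀ h ∈ U, ∀ j ∈ U, ρ g (c h j) - c (g * h) j + c g (h * j) - c g h = 0) →
  Cst2 N U c → Cst N H β → (∀ g ∈ H, ∀ h ∈ H, c g h = ρ g (β h) - β (g * h) + β g) →
  ∃ b : GQ → A, Cst N U b ∧
    ∀ g ∈ U, ∀ h ∈ U, H.relIndex U • c g h = ρ g (b h) - b (g * h) + b g

/-- the transfer for cocycles of roots of unity -/
def COM_st : Prop := ∀ (p : ℕ) (N H U : Subgroup GQ) (c : GQ → GQ → Qb), p.Prime →
  IsOpen (N : Set GQ) → IsOpen (H : Set GQ) → H ≤ U → ¬ p ∣ H.relIndex U → Coc U c → Inf2 N U c →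
  (∀ g ∈ U, ∀ h ∈ U, c g h ^ p = 1) → Cob H c → Cob U c

/-- the level of a cochain with given boundary -/
def INF_st : Prop := ∀ (N H : Subgroup GQ) (c : GQ → GQ → Qb), N ≤ H → Nrm N H → Coc H c →
  Inf2 N H c → Cob H c → ∃ β, Inf1 N H β ∧ Bd H c β

/-- Kummer theory -/
def KUQ_st : Prop := ∀ (p : ℕ) [Fact p.Prime],
  (∀ (H D : Subgroup GQ) (χ : GQ → ZMod p) (s : GQ) (x : Qb), Step p H D χ s → Lc D χ → Fix H x →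
    Nm p s x = 1 → ∃ w, w ≠ 0 ∧ Fix H w ∧ s w = x * w) ∧
  ∀ (ζ : Qb) (D : Subgroup GQ), IsPrimitiveRoot ζ p → Fix D ζ →
    (∀ χ : GQ → ZMod p, Adt D χ → Lc D χ → ∃ α, α ≠ 0 ∧ ∀ g ∈ D, g α = ζ ^ (χ g).val * α) ∧
    ∀ α, α ≠ 0 → Fix D (α ^ p) → ∃ χ : GQ → ZMod p, Adt D χ ∧ Lc D χ ∧
      ∀ g ∈ D, g α = ζ ^ (χ g).val * α

/-- the layers of a `ℤ_p`-extension -/
def ZPL_st : Prop := ∀ (p : ℕ) [Fact p.Prime] (U : Subgroup GQ) (κ : GQ → ℤ_[p])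
  (K : ℕ → Subgroup GQ), ZP p U κ K → K 0 = U ∧ Antitone K ∧ (∀ n, Nrm (K n) U) ∧
    (∀ n, ∃ χ s, Step p (K (n + 1)) (K n) χ s) ∧ (∀ n, ∀ g ∈ U, g ^ p ^ n ∈ K n) ∧
    ∀ (n M : ℕ), M ≠ 0 → ∀ g ∈ U, g ^ M ∈ K (n + M) → g ∈ K n

/-- a `ℤ_p`-extension is unramified outside `p` -/
def UNR_st : Prop := ∀ (p : ℕ) [Fact p.Prime] (U : Subgroup GQ) (κ : GQ → ℤ_[p])
  (K : ℕ → Subgroup GQ), ZP p U κ K →
    ∀ (l : ℕ) [Fact l.Prime] (γ : GQ) (n : ℕ), l ≠ p → Ine l γ ⊓ U ≤ K n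

/-- the fixed fields of a pair of open subgroups -/
def TWR_st : Prop := ∀ (H H' : Subgroup GQ) (L F : IntermediateField ℚ Qb) [NumberField L]
  [NumberField F], IsOpen (H : Set GQ) → H ≤ H' → Nrm H H' → (∀ x, x ∈ L ↔ Fix H' x) →
  (∀ x, x ∈ F ↔ Fix H x) → ∃ _ : Algebra L F, (∀ x : L, (algebraMap L F x : Qb) = x) ∧
    IsGalois L F ∧ finrank L F = H.relIndex H' ∧ finrank ℚ L * finrank L F = finrank ℚ F ∧
    (∀ g ∈ H', ∃ τ : F ≃ₐ[L] F, ∀ x : F, (τ x : Qb) = g x) ∧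
    ∀ τ : F ≃ₐ[L] F, ∃ τ' : F ≃ₐ[ℚ] F, ∀ x, τ' x = τ x

/-! ### The norm theorem -/

/-- the count of ambiguous classes -/
def AMB_st : Prop := ∀ (A D : Type) [AddCommGroup A] [AddCommGroup D] (σ : AddMonoid.End A)
  (t : AddMonoid.End D) (n : ℕ) (j : A →+ D) (V : AddSubgroup A) (T : Set D) (R : Finset D),
  0 < n → σ ^ n = 1 → t ^ n = 1 → (∀ x, j (σ x) = t (j x)) → (∀ a ∈ V, σ a ∈ V) →
  (∀ a ∈ V, nmH σ n a = 0 → ∃ b ∈ V, a = σ b - b) → (∀ a, nmH σ n a = 0 → ∃ b, a = σ b - b) →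
  T.Finite → (∀ x, ∃ y ∈ V, x - j y ∈ T) → R.card ≤ n →
  (∀ x, t x = x → ∃ r ∈ R, ∃ a ∈ V, ∃ e, σ a = a ∧ x - r = j a + nmH t n e) →
  hz σ n (j.ker ⊓ V) ≠ 0 → ho σ n (j.ker ⊓ V) = n * hz σ n (j.ker ⊓ V) →
  ∀ a e y, σ a = a → j a = nmH t n e → a - nmH σ n y ∈ V → ∃ b, a = nmH σ n b

/-- the second inequality for invariant divisors -/
def SIP_st : Prop := ∀ (E F : Type) [Field E] [NumberField E] [IsTotallyComplex E] [Field F]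
  [NumberField F] [Algebra E F] [IsGalois E F] (p : ℕ) (S : Finset (Pr E)) (n : ℕ), p.Prime →
  finrank E F = p → 0 < n → Unr F (F ≃ₐ[E] F) S →
  ∃ R : Finset (Pr F →₀ ℤ), R.card ≤ p ∧ (∀ r ∈ R, r ∈ off (above F S)) ∧
    ∀ D ∈ off (above F S), (∀ (g : F ≃ₐ[E] F) (w : Pr F), D (gact g w) = D w) →
      ∃ r ∈ R, ∃ (a : E) (Z : Pr F →₀ ℤ), a ≠ 0 ∧ Cong (above F S) n (algebraMap E F a) ∧
        Z ∈ off (above F S) ∧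
        ∀ w, D w - r w = ord w (algebraMap E F a) + ∑ g : F ≃ₐ[E] F, Z (gact g w)

/-- local norms, simultaneously -/
def LOC_st : Prop := ∀ (E F : Type) [Field E] [NumberField E] [Field F] [NumberField F]
  [Algebra E F] [IsGalois E F] (σ : F ≃ₐ[E] F) (p : ℕ) (S : Finset (Pr E)) (a : F), p.Prime →
  finrank E F = p → σ ≠ 1 → a ≠ 0 → σ a = a →
  (∀ w : Pr F, w ∉ above F S → gact σ w = w → (p : ℤ) ∣ ord w a) →
  (∀ w ∈ above F S, gact σ w = w → ∀ n, Apx p σ w n a) →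
  (∃ Z ∈ off (above F S), ∀ w, w ∉ above F S → ord w a = ∑ g : F ≃ₐ[E] F, Z (gact g w)) ∧
    ∀ n : ℕ, ∃ y : F, y ≠ 0 ∧ Cong (above F S) n (a / Nm p σ y)

/-- the norm theorem of Hasse in prime degree -/
def HNP_st : Prop := ∀ (E F : Type) [Field E] [NumberField E] [IsTotallyComplex E] [Field F]
  [NumberField F] [Algebra E F] [IsGalois E F] (σ : F ≃ₐ[E] F) (p : ℕ) (S : Finset (Pr E))
  (a : F), p.Prime → finrank E F = p → σ ≠ 1 → a ≠ 0 → σ a = a → Unr F (F ≃ₐ[E] F) S →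
  (∀ w : Pr F, w ∉ above F S → gact σ w = w → (p : ℤ) ∣ ord w a) →
  (∀ w ∈ above F S, gact σ w = w → ∀ n, Apx p σ w n a) → ∃ μ, Nm p σ μ = a

/-- the same for an automorphism of prime order -/
def HNF_st : Prop := ∀ (F : Type) [Field F] [NumberField F] (σ : F ≃ₐ[ℚ] F) (p : ℕ) (ζ a : F),
  p.Prime → p ≠ 2 → σ ≠ 1 → σ ^ p = 1 → IsPrimitiveRoot ζ p → σ ζ = ζ → a ≠ 0 → σ a = a →
  (∀ w : Pr F, gact σ w = w → (∀ n, Apx p σ w n a) ∨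
    ((p : ℤ) ∣ ord w a ∧ σ ∉ w.asIdeal.inertia (F ≃ₐ[ℚ] F))) → ∃ μ, Nm p σ μ = a

/-- local norms are approximate norms -/
def APX_st : Prop := ∀ (p : ℕ) (W : Subgroup GQ) (L : IntermediateField ℚ Qb) [NumberField L]
  (w : Pr L) (l : ℕ) [Fact l.Prime] (γ s : GQ) (t : ℝ) (σ : L ≃ₐ[ℚ] L) (a : L),
  IsOpen (W : Set GQ) → (∀ x, x ∈ L ↔ Fix W x) → Pl L w l γ t → s ∈ Dec (nv l γ) → Ind s σ →
  IsN p (Dec (nv l γ) ⊓ W) s a → ∀ n, Apx p σ w n a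

/-- the norm theorem for a pair of open subgroups -/
def HNQ_st : Prop := ∀ (p : ℕ) [Fact p.Prime] (ζ a : Qb) (H H' : Subgroup GQ) (χ : GQ → ZMod p)
  (s : GQ), p ≠ 2 → IsPrimitiveRoot ζ p → IsOpen (H : Set GQ) → Step p H H' χ s → Fix H' ζ →
  a ≠ 0 → Fix H' a →
  (∀ (l : ℕ) [Fact l.Prime] (γ : GQ), ∀ t ∈ Dec (nv l γ) ⊓ H', χ t = 1 →
    IsN p (Dec (nv l γ) ⊓ H) t a ∨
    (Ine l γ ⊓ H' ≤ H ∧ ∃ z, Fix (Ine l γ ⊓ H') z ∧ nv l γ a = nv l γ z ^ p)) →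
  IsN p H s a

/-! ### The local norm index -/

/-- a subgroup with trivial cohomology -/
def VL_st : Prop := ∀ (E F : Type) [Field E] [NumberField E] [Field F] [NumberField F]
  [Algebra E F] [IsGalois E F] (σ : F ≃ₐ[E] F) (S : Finset (Pr E)), S.Nonempty →
  (∀ g, g ∈ Subgroup.zpowers σ) →
  ∃ (V : AddSubgroup (Additive Fˣ)) (N : ℕ), 0 < N ∧ (∀ a ∈ V, sA σ a ∈ V) ∧
    (∀ a ∈ V, Cong (above F S) 1 ((Additive.toMul a : Fˣ) : F)) ∧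
    (∀ a : Additive Fˣ, Cong (above F S) N ((Additive.toMul a : Fˣ) : F) → a ∈ V) ∧
    (∀ a ∈ V, nmH (sA σ) (finrank E F) a = 0 → ∃ b ∈ V, a = sA σ b - b) ∧
    ∀ n : ℕ, ∀ a ∈ V, sA σ a = a → ∃ b ∈ V,
      Cong (above F S) n ((Additive.toMul (a - nmH (sA σ) (finrank E F) b) : Fˣ) : F)

/-- approximate Hilbert 90 -/
def AH_st : Prop := ∀ (K F : Type) [Field K] [Field F] [NumberField F] [Algebra K F]
  (σ : F ≃ₐ[K] F) (p : ℕ) (w : Pr F), 0 < p → orderOf σ = p → ∀ n : ℕ, ∃ n' : ℕ,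
  ∀ x : F, x ≠ 0 → Cong {w} n' (Nm p σ x) → ∃ c : F, c ≠ 0 ∧ Cong {w} n (x * σ c / c)

/-- the abstract index computation -/
def HQ_st : Prop := ∀ (A : Type) [AddCommGroup A] (σ : AddMonoid.End A) (n : ℕ)
  (V : AddSubgroup A) (o : A →+ ℤ) (a₀ : A), 0 < n → σ ^ n = 1 → (∀ a ∈ V, σ a ∈ V) →
  V ≤ o.ker → V.relIndex o.ker ≠ 0 → σ a₀ = a₀ → o a₀ ≠ 0 →
  (∀ a ∈ V, nmH σ n a = 0 → ∃ b ∈ V, a = σ b - b) →
  (∀ a, nmH σ n a ∈ V → ∃ b, a - (σ b - b) ∈ V) →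
  (AddMonoidHom.range (nmH σ n) ⊔ V).relIndex
    (AddMonoidHom.ker (σ - 1 : AddMonoid.End A)) = n

/-- the local norm index, approximate form -/
def LIX_st : Prop := ∀ (F : Type) [Field F] [NumberField F] (σ : F ≃ₐ[ℚ] F) (p : ℕ) (w : Pr F),
  p.Prime → σ ≠ 1 → σ ^ p = 1 → gact σ w = w →
  (∀ (n : ℕ) (x y : F), x ≠ 0 → y ≠ 0 → σ x = x → σ y = y →
    Apx p σ w n x ∨ ∃ i : ℕ, Apx p σ w n (y / x ^ i)) ∧
  ∃ (n : ℕ) (x : F), x ≠ 0 ∧ σ x = x ∧ ¬ Apx p σ w n x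

/-- elements near one are powers -/
def L0_st : Prop := ∀ (p l : ℕ) [Fact l.Prime] (γ : GQ) (D : Subgroup GQ) (x : Qb), p.Prime →
  p ≠ 2 → D ≤ Dec (nv l γ) → Fix D x → nv l γ (x - 1) < nv l γ p ^ p → ∃ y, y ^ p = x ∧ Fix D y

/-- the local norm index -/
def L1_st : Prop := ∀ (p l : ℕ) [Fact p.Prime] [Fact l.Prime] (γ : GQ) (H D : Subgroup GQ)
  (χ : GQ → ZMod p) (s : GQ), p ≠ 2 → Loc l γ D → Lc D χ → Step p H D χ s →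
  (∀ x y, x ≠ 0 → y ≠ 0 → Fix D x → Fix D y → IsN p H s x ∨ ∃ i : ℕ, IsN p H s (y / x ^ i)) ∧
  ∃ x, x ≠ 0 ∧ Fix D x ∧ ¬ IsN p H s x

/-- symmetry of the norm residue symbol -/
def SYM_st : Prop := ∀ (p : ℕ) [Fact p.Prime] (ζ α β : Qb) (D H H' : Subgroup GQ)
  (χ χ' : GQ → ZMod p) (s s' : GQ), p ≠ 2 → IsPrimitiveRoot ζ p → Fix D ζ → Lc D χ → Lc D χ' →
  Step p H D χ s → Step p H' D χ' s' → α ≠ 0 → β ≠ 0 → (∀ g ∈ D, g α = ζ ^ (χ g).val * α) →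
  (∀ g ∈ D, g β = ζ ^ (χ' g).val * β) → IsN p H s (β ^ p) → IsN p H' s' (α ^ p)

/-- every element becomes a local norm after a cyclic extension of degree `p` -/
def L2_st : Prop := ∀ (p l : ℕ) [Fact p.Prime] [Fact l.Prime] (γ : GQ) (ζ a : Qb)
  (D B B₀ : Subgroup GQ) (χ χ' : GQ → ZMod p) (t s : GQ), p ≠ 2 → IsPrimitiveRoot ζ p →
  Loc l γ D → Fix D ζ → Adt D χ → Lc D χ → Lc D χ' → Step p B D χ' s → Step p B₀ B χ t →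
  a ≠ 0 → Fix D a → IsN p B₀ t a

/-- automorphisms of order prime to `p` act trivially on the local norm residue group -/
def LD_st : Prop := ∀ (p l : ℕ) [Fact p.Prime] [Fact l.Prime] (γ : GQ) (a : Qb)
  (D D' H' : Subgroup GQ) (χ : GQ → ZMod p) (t δ : GQ) (m : ℕ), p ≠ 2 → Loc l γ D → Loc l γ D' →
  D' ≤ D → Nrm D' D → Adt D χ → Lc D χ → Step p H' D' χ t → δ ∈ D → ¬ p ∣ m → δ ^ m ∈ D' →
  (∀ g ∈ D, ∃ i : ℕ, (δ ^ i)⁻¹ * g ∈ D') → a ≠ 0 → Fix D' a → IsN p H' t (δ a / a)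

/-! ### The Brauer group in the tower -/

/-- one step -/
def TB1_st : Prop := ∀ (p : ℕ) [Fact p.Prime] (ζ : Qb) (U N H H' : Subgroup GQ) (κ : GQ → ℤ_[p])
  (K : ℕ → Subgroup GQ) (B : Set (AbsoluteValue Qb ℝ)) (c : GQ → GQ → Qb) (χ : GQ → ZMod p)
  (s : GQ) (n : ℕ), p ≠ 2 → IsPrimitiveRoot ζ p → ZP p U κ K → Bad p U B → FD B U K →
  IsOpen (N : Set GQ) → N ≤ H → H' ≤ U → Nrm N H' → Off B H' N → Fix H' ζ → Step p H H' χ s →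
  Coc H' c → Inf2 N H' c → (∀ g ∈ H', ∀ h ∈ H', c g h ^ p = 1) → Cob (H ⊓ K n) c →
  ∃ n', Cob (H' ⊓ K n') c

/-- a cocycle of roots of unity becomes a coboundary in the tower -/
def TAB_st : Prop := ∀ (p : ℕ) [Fact p.Prime] (ζ : Qb) (U N W : Subgroup GQ) (κ : GQ → ℤ_[p])
  (K : ℕ → Subgroup GQ) (B : Set (AbsoluteValue Qb ℝ)) (c : GQ → GQ → Qb),
  p ≠ 2 → IsPrimitiveRoot ζ p → ZP p U κ K → Bad p U B → FD B U K →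
  IsOpen (N : Set GQ) → N ≤ W → W ≤ U → Nrm N W → Off B W N → Fix W ζ →
  Coc W c → Inf2 N W c → (∀ g ∈ W, ∀ h ∈ W, c g h ^ p = 1) → ∃ n, Cob (W ⊓ K n) c

/-! ### The class group in the tower -/

/-- eigen-divisors are principal -/
def EIG_st : Prop := ∀ (p : ℕ) [Fact p.Prime] (L : Type) [Field L] [NumberField L]
  (δ : L ≃ₐ[ℚ] L) (e : ZMod p) (T : Set (Pr L)) (D : Pr L →₀ ℤ) (a₀ : L), δ ^ (p - 1) = 1 →
  e ≠ 0 → CG p L δ e → (∀ w : Pr L, (p : 𝓞 L) ∈ w.asIdeal → w ∈ T) →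
  (∀ w, gact δ w ∈ T ↔ w ∈ T) → a₀ ≠ 0 →
  (∀ w, w ∉ T → (D (gact δ⁻¹ w) : ZMod p) = e * D w + ord w a₀) →
  ∃ a : L, a ≠ 0 ∧ ∀ w, w ∉ T → (D w : ZMod p) = ord w a

/-- an unramified Kummer generator -/
def DVS_st : Prop := ∀ (p : ℕ) [Fact p.Prime] (U W N : Subgroup GQ)
  (B : Set (AbsoluteValue Qb ℝ)) (L : IntermediateField ℚ Qb) [NumberField L] (δ : GQ)
  (δ' : L ≃ₐ[ℚ] L) (n : ℕ) (y a₀ x : Qb), IsOpen (W : Set GQ) → W ≤ U → δ ∈ U → Bad p U B →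
  Off B W N → (∀ x, x ∈ L ↔ Fix W x) → Ind δ δ' → δ' ^ (p - 1) = 1 → (n : ZMod p) ≠ 0 →
  CG p L δ' n → y ≠ 0 → Fix N y → (∀ g ∈ W, ∃ β, Fix N β ∧ β ^ p * y = g y) → a₀ ≠ 0 →
  Fix W a₀ → Fix N x → δ y = a₀ * y ^ n * x ^ p →
  ∃ a z, a ≠ 0 ∧ Fix W a ∧ z ^ p = y * a ∧
    ∀ (l : ℕ) [Fact l.Prime] (γ : GQ), nv l γ ∉ B → Fix (Ine l γ ⊓ W) z

/-- from the multiplicative group to the roots of unity -/
def OBS_st : Prop := ∀ (p : ℕ) [Fact p.Prime] (ζ : Qb) (r : ℕ) (e : ZMod p) (U W N : Subgroup GQ)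
  (B : Set (AbsoluteValue Qb ℝ)) (ψ : GQ → ZMod p) (c : GQ → GQ → ZMod p) (β : GQ → Qb),
  IsPrimitiveRoot ζ p → Good p ζ r e U → W = U ⊓ MulAction.stabilizer GQ ζ → Bad p U B →
  IsOpen (N : Set GQ) → N ≤ W → Nrm N U → Off B W N → (∀ g ∈ W, ψ g = 1) →
  (∀ δ ∈ U, δ ζ = ζ ^ r → e * ψ δ = r) → TCoc U ψ c → Cst2 N U c → Inf1 N W β →
  Bd W (fun g h => ζ ^ (c g h).val) β →
  ∃ (b : GQ → ZMod p) (N' : Subgroup GQ), IsOpen (N' : Set GQ) ∧ Off B W N' ∧ Cst N' W b ∧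
    ∀ g ∈ W, ∀ h ∈ W, c g h = b h - b (g * h) + b g

/-- ascent, for number fields -/
def ASN_st : Prop := ∀ (p : ℕ) [Fact p.Prime] (L F : Type) [Field L] [NumberField L] [Field F]
  [NumberField F] [Algebra L F] [IsGalois L F] (σ : F ≃ₐ[L] F) (δ₀ : L ≃ₐ[ℚ] L) (δ : F ≃ₐ[ℚ] F)
  (e : ZMod p), finrank L F = p → σ ≠ 1 → (∀ x, δ (algebraMap L F x) = algebraMap L F (δ₀ x)) →
  (∀ x, δ (σ x) = σ (δ x)) → δ ^ (p - 1) = 1 → e ≠ 0 →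
  (∀ w : Pr F, (p : 𝓞 F) ∉ w.asIdeal → w.asIdeal.inertia (F ≃ₐ[L] F) = ⊥) →
  (∀ a₀ a : F, a₀ ≠ 0 → σ a₀ = a₀ → a = ∏ i ∈ range (p - 1), (δ ^ i) a₀ ^ ((e ^ i)⁻¹).val →
    (∀ w : Pr F, (p : 𝓞 F) ∉ w.asIdeal → gact σ w = w → (p : ℤ) ∣ ord w a) →
    ∃ μ, Nm p σ μ = a) → CG p L δ₀ e → CG p F δ e

/-- ascent -/
def ASC_st : Prop := ∀ (p : ℕ) [Fact p.Prime] (ζ : Qb) (r : ℕ) (e : ZMod p) (U U' : Subgroup GQ)
  (χ : GQ → ZMod p) (s : GQ), p ≠ 2 → IsPrimitiveRoot ζ p → IsPrimitiveRoot (r : ZMod p) (p - 1) →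
  e ≠ 0 → e ≠ 1 → IsOpen (U' : Set GQ) → Step p U' U χ s →
  (∀ (l : ℕ) [Fact l.Prime] (γ : GQ), l ≠ p → Ine l γ ⊓ U ≤ U') → Good p ζ r e U →
  Good p ζ r e U'

/-- the vanishing theorem for twists of the group with `p` elements -/
def MAIN_st : Prop := ∀ (p : ℕ) [Fact p.Prime] (ζ : Qb) (ω : GQ → ZMod p) (r i m : ℕ) (e : ZMod p)
  (U N H : Subgroup GQ) (κ : GQ → ℤ_[p]) (K : ℕ → Subgroup GQ) (B : Set (AbsoluteValue Qb ℝ))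
  (c : GQ → GQ → ZMod p), p ≠ 2 → IsPrimitiveRoot ζ p → (∀ g : GQ, g ζ = ζ ^ (ω g).val) →
  IsPrimitiveRoot (r : ZMod p) (p - 1) → e * r ^ i = r → e ≠ 1 → Good p ζ r e U → ZP p U κ K →
  Bad p U B → FD B U K → IsOpen (N : Set GQ) → N ≤ K m → Fix N ζ → Nrm N U → Off B U N →
  TCoc (K m) (fun g => ω g ^ i) c → Cst2 N (K m) c → (∀ g, g ∈ H ↔ g ∈ U ∧ κ g = 0) →
  ∃ (b : GQ → ZMod p) (N' : Subgroup GQ), IsOpen (N' : Set GQ) ∧ Off B U N' ∧ Cst N' H b ∧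
    ∀ g ∈ H, ∀ h ∈ H, c g h = ω g ^ i * b h - b (g * h) + b g

/-! ### The passage to the Galois group with restricted ramification -/

/-- the restriction map -/
structure Rst (K : IntermediateField ℚ Qb) (S : Set (Pr K)) (π : GQ → GalS K S) : Prop where
  mul : ∀ g ∈ K.fixingSubgroup, ∀ h ∈ K.fixingSubgroup, π (g * h) = π g * π h
  act : ∀ g ∈ K.fixingSubgroup, ∀ x : maxUnr K S, (π g x : Qb) = g x
  sur : ∀ y, ∃ g ∈ K.fixingSubgroup, π g = y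
  pre : ∀ W : Subgroup (GalS K S), IsOpen (W : Set (GalS K S)) → ∃ N : Subgroup GQ,
    IsOpen (N : Set GQ) ∧ ∀ g, g ∈ N ↔ g ∈ K.fixingSubgroup ∧ π g ∈ W
  img : ∀ N : Subgroup GQ, IsOpen (N : Set GQ) → ∃ W : Subgroup (GalS K S),
    IsOpen (W : Set (GalS K S)) ∧ ∀ y ∈ W, ∃ g ∈ N ⊓ K.fixingSubgroup, π g = y
  ine : ∀ (l : ℕ) [Fact l.Prime] (γ : GQ), (∀ v ∈ S, (cen l γ).under (𝓞 K) ≠ v.asIdeal) →
    ∀ g ∈ Ine l γ ⊓ K.fixingSubgroup, π g = 1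
  ker : ∀ N : Subgroup GQ, IsOpen (N : Set GQ) →
    (∀ (l : ℕ) [Fact l.Prime] (γ : GQ), (∀ v ∈ S, (cen l γ).under (𝓞 K) ≠ v.asIdeal) →
      Ine l γ ⊓ K.fixingSubgroup ≤ N) → ∀ g ∈ K.fixingSubgroup, π g = 1 → g ∈ N

/-- the elements of `K_S` -/
def MEM_st : Prop := ∀ (K : IntermediateField ℚ Qb) (S : Set (Pr K)),
  IsGalois K (maxUnr K S) ∧ ∀ x : Qb, x ∈ maxUnr K S ↔
    ∀ (l : ℕ) [Fact l.Prime] (γ : GQ), (∀ v ∈ S, (cen l γ).under (𝓞 K) ≠ v.asIdeal) →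
      Fix (Ine l γ ⊓ K.fixingSubgroup) x

/-- existence of the restriction map -/
def GAL_st : Prop := ∀ (K : IntermediateField ℚ Qb) [FiniteDimensional ℚ K] (S : Set (Pr K)),
  ∃ π, Rst K S π

/-- the places above `S` -/
def BAD_st : Prop := ∀ (p : ℕ) [Fact p.Prime] (K : IntermediateField ℚ Qb) [FiniteDimensional ℚ K]
  (S : Set (Pr K)) (π : GQ → GalS K S) (κ : GalS K S →* Multiplicative ℤ_[p]), Rst K S π →
  S.Finite → primesAbove K p ⊆ S → Continuous κ → Function.Surjective κ →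
  (∀ v ∈ S, (v.asIdeal.primesOver (𝓞 (IntermediateField.fixedField κ.ker))).Finite) →
  ∃ B : Set (AbsoluteValue Qb ℝ), Bad p K.fixingSubgroup B ∧
    (∀ (l : ℕ) [Fact l.Prime] (γ : GQ),
      nv l γ ∉ B ↔ ∀ v ∈ S, (cen l γ).under (𝓞 K) ≠ v.asIdeal) ∧
    ∃ e : ℕ, ∀ (l : ℕ) [Fact l.Prime] (γ : GQ), nv l γ ∈ B →
      ∃ g ∈ Dec (nv l γ) ⊓ K.fixingSubgroup, ¬ (p : ℤ_[p]) ^ e ∣ (κ (π g)).toAdd

/-- a cocycle extends to a finite layer -/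
def EXT_st : Prop := ∀ (p : ℕ) [Fact p.Prime] (G : Type) [Group G] [TopologicalSpace G]
  [IsTopologicalGroup G] [CompactSpace G] [TotallyDisconnectedSpace G]
  (κ : G →* Multiplicative ℤ_[p]) (ψ : G → ZMod p) (W₀ : Subgroup G)
  (c : κ.ker × κ.ker → ZMod p), Continuous κ → Function.Surjective κ → IsOpen (W₀ : Set G) →
  (∀ g h, ψ (g * h) = ψ g * ψ h) → (∀ g ∈ W₀, ψ g = 1) → IsLocallyConstant c →
  (∀ g h j : κ.ker, ψ g * c (h, j) - c (g * h, j) + c (g, h * j) - c (g, h) = 0) →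
  ∃ (m : ℕ) (W : Subgroup G) (c' : G → G → ZMod p), IsOpen (W : Set G) ∧ W.Normal ∧ W ≤ W₀ ∧
    (∀ g ∈ W, (p : ℤ_[p]) ^ m ∣ (κ g).toAdd) ∧ (∀ g h : κ.ker, c' g h = c (g, h)) ∧
    (∀ g h, ∀ x ∈ W, c' (g * x) h = c' g h ∧ c' g (h * x) = c' g h) ∧
    ∀ g h j, (p : ℤ_[p]) ^ m ∣ (κ g).toAdd → (p : ℤ_[p]) ^ m ∣ (κ h).toAdd →
      (p : ℤ_[p]) ^ m ∣ (κ j).toAdd → ψ g * c' h j - c' (g * h) j + c' g (h * j) - c' g h = 0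

/-- the vanishing theorem for the group with restricted ramification -/
def TOP_st : Prop := ∀ (p : ℕ) [Fact p.Prime] (K : IntermediateField ℚ Qb) [FiniteDimensional ℚ K]
  (S : Set (Pr K)) (κ : GalS K S →* Multiplicative ℤ_[p]), p ≠ 2 →
  S.Finite → primesAbove K p ⊆ S → Continuous κ → Function.Surjective κ →
  (∀ v ∈ S, (v.asIdeal.primesOver (𝓞 (IntermediateField.fixedField κ.ker))).Finite) →
  ∃ ω : GalS K S → ZMod p, (∀ (g : GalS K S) (z : maxUnr K S), z ^ p = 1 → g z = z ^ (ω g).val) ∧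
    ∀ (ζ : Qb) (r i : ℕ) (e : ZMod p), IsPrimitiveRoot ζ p →
      IsPrimitiveRoot (r : ZMod p) (p - 1) → e * r ^ i = r → e ≠ 1 →
      Good p ζ r e K.fixingSubgroup → H2Zero fun (g : κ.ker) (x : ZMod p) => ω g ^ i * x

/-- devissage -/
def DVA_st : Prop := ∀ (p : ℕ) [Fact p.Prime] (G A : Type) [Group G] [TopologicalSpace G]
  [IsTopologicalGroup G] [CompactSpace G] [AddCommGroup A] (a : G → A →+ A),
  (∀ g h x, a (g * h) x = a g (a h x)) → (∀ x, IsLocallyConstant fun g => a g x) →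
  (∀ x : A, IsOfFinAddOrder x) →
  (∀ M : AddSubgroup A, Finite M → M ≠ ⊥ → (∀ g, ∀ x ∈ M, a g x ∈ M) →
    ∃ (ψ : G → ZMod p) (f : M →+ ZMod p), f ≠ 0 ∧
      (∀ (g : G) (x y : M), (y : A) = a g x → f y = ψ g * f x) ∧
      H2Zero fun (g : G) (x : ZMod p) => ψ g * x) →
  H2Zero fun g x => a g x

/-- devissage for residually triangular representations -/
def DEV_st : Prop := ∀ (p : ℕ) [Fact p.Prime] (G : Type) [Group G] [TopologicalSpace G]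
  [IsTopologicalGroup G] [CompactSpace G] (F : IntermediateField ℚ_[p] (PadicAlgCl p)) (d : ℕ)
  (ρ : G →* GL (Fin d) (valRing F)) (ψ : Fin d → G → ZMod p), Continuous ρ →
  (∀ g i j, j < i → ‖((ρ g i j : F) : PadicAlgCl p)‖ < 1) →
  (∀ g i, ‖((ρ g i i : F) : PadicAlgCl p) - ((ψ i g).val : PadicAlgCl p)‖ < 1) →
  (∀ i, H2Zero fun (g : G) (x : ZMod p) => ψ i g * x) →
  H2Zero fun (g : G) (x : DivMod F d) => matAct (ρ g) x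

/-- ascent along a `p`-extension -/
def GOOD_st : Prop := ∀ (p : ℕ) [Fact p.Prime] (ζ : Qb) (r : ℕ) (e : ZMod p)
  (K₀ K : IntermediateField ℚ Qb) [FiniteDimensional ℚ K₀], PExt p K₀ K →
  FiniteDimensional ℚ K ∧ (p ≠ 2 → IsPrimitiveRoot ζ p → IsPrimitiveRoot (r : ZMod p) (p - 1) →
    e ≠ 0 → e ≠ 1 → Good p ζ r e K₀.fixingSubgroup → Good p ζ r e K.fixingSubgroup)

/-! ### The base of the tower -/

/-- imaginary quadratic fields -/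
def QUAD_st : Prop := ∀ (K₀ : IntermediateField ℚ Qb) [IsTotallyComplex K₀], finrank ℚ K₀ = 2 →
  ∃ (D : ℕ) (s : Qb), 0 < D ∧ s ^ 2 = -D ∧ K₀.fixingSubgroup = MulAction.stabilizer GQ s

/-- quadratic fields are cyclotomic -/
def KW_st : Prop := ∀ (D : ℕ) (s : Qb), 0 < D → s ^ 2 = -D →
  ∃ (d : ℕ) (χ : MulChar (ZMod d) ℤ), 2 < d ∧ χ (-1) = -1 ∧
    ∀ (g : GQ) (a : ℕ), (∀ z : Qb, z ^ d = 1 → g z = z ^ a) → g s = (χ a : ℤ) * s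

/-- non-vanishing at one -/
def NZ0_st : Prop := ∀ (d : ℕ) (χ : MulChar (ZMod d) ℤ), 2 < d → χ (-1) = -1 →
  ∃ w : ℂ, IsPrimitiveRoot w d ∧ Tq χ 0 w ≠ 0

/-- power sums of the geometric series -/
def GEO_st : Prop := ∀ (n : ℕ) (z : ℂ), ‖z‖ < 1 → 0 < n →
  HasSum (fun m : ℕ => (m : ℂ) ^ n * z ^ m) (aeval (z / (1 - z)) (Qp n))

/-- the formula of Lipschitz on the real line -/
def LIP_st : Prop := ∀ n : ℕ, 0 < n → ∃ C : ℂ, C ≠ 0 ∧ ∀ x : ℝ, (∀ m : ℤ, x ≠ m) →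
  HasSum (fun m : ℤ => 1 / ((x : ℂ) + m) ^ (n + 1))
    (C * aeval (Complex.exp (2 * Real.pi * Complex.I * x) /
      (1 - Complex.exp (2 * Real.pi * Complex.I * x))) (Qp n))

/-- non-vanishing at odd integers -/
def NZ_st : Prop := ∀ (d n : ℕ) (χ : MulChar (ZMod d) ℤ), 2 < d → χ (-1) = -1 → 0 < n → Even n →
  ∃ w : ℂ, IsPrimitiveRoot w d ∧ Tq χ n w ≠ 0

/-- reduction modulo large primes -/
def RED_st : Prop := ∀ (d n : ℕ) (χ : MulChar (ZMod d) ℤ) (w : ℂ), 2 < d → IsPrimitiveRoot w d →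
  Tq χ n w ≠ 0 → ∃ B : ℕ, ∀ p : ℕ, p.Prime → B < p → ∀ (k : Type) [Field k] [CharP k p] (u : k),
    IsPrimitiveRoot u d → Tq χ n u ≠ 0

/-- logarithmic derivatives of Kummer -/
def KUM_st : Prop := ∀ (p d n : ℕ) [Fact p.Prime] (M : Type) [Field M] [NumberField M]
  [IsCyclotomicExtension {d * p} ℚ M] (ξ y : M) (ι : Type) (s : Finset ι) (a e : ι → ℕ)
  (k : Type) [Field k] [CharP k p] (u : k), ¬ p ∣ d → n + 3 ≤ p → IsPrimitiveRoot ξ (d * p) →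
  IsPrimitiveRoot u d → (∀ i ∈ s, u ^ a i ≠ 1) → y ^ p = ∏ i ∈ s, (1 - ξ ^ a i) ^ e i →
  ∑ i ∈ s, (e i : k) * (a i : k) ^ (n + 1) * aeval (u ^ a i / (1 - u ^ a i)) (Qp n) = 0

/-- sums over the Galois group of a cyclotomic field -/
def CNT_st : Prop := ∀ (p d : ℕ) (M : Type) [Field M] [NumberField M]
  [IsCyclotomicExtension {d * p} ℚ M] (ξ : 𝓞 M), p.Prime → ¬ p ∣ d → IsPrimitiveRoot ξ (d * p) →
  ∃ a : (M ≃ₐ[ℚ] M) → ℕ, (∀ σ, σ • ξ = ξ ^ a σ ∧ (a σ).Coprime (d * p)) ∧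
    ∀ (R : Type) [AddCommMonoid R] (G : ℕ → ℕ → R), ∑ σ, G (a σ % d) (a σ % p) =
      ∑ x ∈ (range d).filter fun x => x.Coprime d, ∑ y ∈ Ico 1 p, G x y

/-- the data of a prime of degree one -/
structure Spl {M : Type} [Field M] [NumberField M] {q : ℕ} (φ : 𝓞 M →+* ZMod q) (w : Pr M) :
    Prop where
  ker : w.asIdeal = RingHom.ker φ
  inj : ∀ σ τ : M ≃ₐ[ℚ] M, gact σ w = gact τ w → σ = τ
  all : ∀ v : Pr M, (q : 𝓞 M) ∈ v.asIdeal → ∃ σ : M ≃ₐ[ℚ] M, v = gact σ w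
  one : ∀ σ : M ≃ₐ[ℚ] M, ord (gact σ w) (q : M) = 1

/-- primes of degree one in cyclotomic fields -/
def SPL_st : Prop := ∀ (m q : ℕ) (M : Type) [Field M] [NumberField M]
  [IsCyclotomicExtension {m} ℚ M] (ξ : 𝓞 M) (φ : 𝓞 M →+* ZMod q), q.Prime → 0 < m → ¬ q ∣ m →
  IsPrimitiveRoot ξ m → IsPrimitiveRoot (φ ξ) m ∧ m ∣ q - 1 ∧ ∃ w, Spl φ w

/-- the relation of Thaine -/
def THM_st : Prop := ∀ (p q : ℕ) (M : Type) [Field M] [NumberField M] (φ : 𝓞 M →+* ZMod q)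
  (w : Pr M) (x : 𝓞 M) (f : Pr M → ZMod p), q.Prime → p ∣ q - 1 → Spl φ w → x ^ q = x → x ≠ 1 →
  Kil f → ∃ (t : ZMod q) (r : (M ≃ₐ[ℚ] M) → ℕ),
    (∀ σ : M ≃ₐ[ℚ] M, t ^ r σ = φ (σ • x) - 1) ∧ ∑ σ, (r σ : ZMod p) * f (gact σ⁻¹ w) = 0

/-- Jacobi sums -/
def JAC_st : Prop := ∀ (p q b : ℕ) (M : Type) [Field M] [NumberField M] (ζ : 𝓞 M)
  (φ : 𝓞 M →+* ZMod q), p.Prime → q.Prime → IsPrimitiveRoot ζ p → IsPrimitiveRoot (φ ζ) p →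
  0 < b → b + 1 < p → ∃ J J' : 𝓞 M, J * J' = q ∧ ∀ (ψ : 𝓞 M →+* ZMod q) (t : ℕ), 0 < t → t < p →
    ψ ζ = φ ζ ^ t → (t + b * t % p < p → ψ J = 0) ∧ (p < t + b * t % p → ψ J' = 0)

/-- the condition on the Stickelberger sums -/
def Stk (p j : ℕ) [Fact p.Prime] : Prop := ∃ b : ℕ, 0 < b ∧ b + 1 < p ∧
  ∑ t ∈ (Ico 1 p).filter fun t => t + b * t % p < p, ((t : ZMod p) ^ j)⁻¹ ≠ 0

/-- the Stickelberger sums and Bernoulli numbers -/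
def SUM_st : Prop := ∀ (p j : ℕ) [Fact p.Prime], 2 < p →
  (j = 1 ∨ 1 < j ∧ j + 1 < p ∧ ¬ (p : ℤ) ∣ (_root_.bernoulli (p - j)).num) → Stk p j

/-- the odd part -/
def ODD_st : Prop := ∀ (p d j q : ℕ) [Fact p.Prime] (M : Type) [Field M] [NumberField M]
  [IsCyclotomicExtension {d * p} ℚ M] (ξ : 𝓞 M) (φ : 𝓞 M →+* ZMod q) (w : Pr M)
  (f : Pr M → ZMod p), 0 < d → d < p → IsPrimitiveRoot ξ (d * p) → q.Prime → ¬ q ∣ d * p →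
  w.asIdeal = RingHom.ker φ → Stk p j → Kil f →
  (∀ (σ : M ≃ₐ[ℚ] M) (a : ℕ), σ • ξ = ξ ^ a → ∀ v, f (gact σ v) = (a : ZMod p) ^ j * f v) →
  f w = 0

/-- a cyclotomic unit that is not a power -/
def ETA_st : Prop := ∀ (p d n : ℕ) [Fact p.Prime] (χ : MulChar (ZMod d) ℤ) (M : Type) [Field M]
  [NumberField M] [IsCyclotomicExtension {d * p} ℚ M] (ξ : 𝓞 M), 2 < d → d < p → n + 3 ≤ p →
  IsPrimitiveRoot ξ (d * p) →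
  (∀ (k : Type) [Field k] [CharP k p] (u : k), IsPrimitiveRoot u d → Tq χ n u ≠ 0) →
  ∃ (η : (𝓞 M)ˣ) (e : (M ≃ₐ[ℚ] M) → ℕ), (η : 𝓞 M) = ∏ σ : M ≃ₐ[ℚ] M, (1 - σ • ξ) ^ e σ ∧
    (∀ (σ : M ≃ₐ[ℚ] M) (a : ℕ), σ • ξ = ξ ^ a →
      (e σ : ZMod p) * ((a : ZMod p) ^ (n + 1) * (χ a : ℤ)) = 1) ∧
    ∀ y : M, y ^ p ≠ ((η : 𝓞 M) : M)

/-- characters of the class group -/
def PSI_st : Prop := ∀ (p : ℕ) (M : Type) [Field M] [NumberField M] (f : Pr M → ZMod p), Kil f →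
  ∃ Ψ : ClassGroup (𝓞 M) →* Multiplicative (ZMod p),
    ∀ w : Pr M, Ψ (MP_346737_nt.cl w.asIdeal) = Multiplicative.ofAdd (f w)

/-- the vanishing theorem in the cyclotomic field -/
def CYB_st : Prop := ∀ (p d n ε : ℕ) [Fact p.Prime] (χ : MulChar (ZMod d) ℤ) (M : Type) [Field M]
  [NumberField M] [IsCyclotomicExtension {d * p} ℚ M] (ξ : 𝓞 M) (f : Pr M → ZMod p), 2 < d →
  d < p → n + 3 ≤ p → 5 ≤ p → IsPrimitiveRoot ξ (d * p) → ε = 0 ∨ ε = 1 →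
  (∀ (k : Type) [Field k] [CharP k p] (u : k), IsPrimitiveRoot u d → Tq χ n u ≠ 0) →
  Stk p (n + 1) → Kil f →
  (∀ (σ : M ≃ₐ[ℚ] M) (a : ℕ), σ • ξ = ξ ^ a → ∀ v,
    f (gact σ v) = (a : ZMod p) ^ (n + 1) * ((χ a : ℤ) : ZMod p) ^ ε * f v) → ∀ v, f v = 0

/-- transfer to a larger field -/
def TRF_st : Prop := ∀ (p : ℕ) [Fact p.Prime] (L M : Type) [Field L] [NumberField L] [Field M]
  [NumberField M] [Algebra L M] [IsGalois L M] (f : Pr L → ZMod p), ¬ p ∣ finrank L M → Kil f →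
  ∃ F : Pr M → ZMod p, Kil F ∧ ((∀ w, F w = 0) → ∀ v, f v = 0) ∧
    ∀ (σ : M ≃ₐ[ℚ] M) (σ' : L ≃ₐ[ℚ] L) (c : ZMod p),
      (∀ x, σ (algebraMap L M x) = algebraMap L M (σ' x)) → (∀ v, f (gact σ' v) = c * f v) →
      ∀ w, F (gact σ w) = c * F w

/-- the base of the tower, for one prime -/
def BS1_st : Prop := ∀ (p d n r : ℕ) [Fact p.Prime] (χ : MulChar (ZMod d) ℤ) (ζ s : Qb), 2 < d →
  d < p → n + 3 ≤ p → 5 ≤ p → χ (-1) = -1 → s ≠ 0 →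
  (∀ (g : GQ) (a : ℕ), (∀ z : Qb, z ^ d = 1 → g z = z ^ a) → g s = (χ a : ℤ) * s) →
  (∀ (k : Type) [Field k] [CharP k p] (u : k), IsPrimitiveRoot u d → Tq χ n u ≠ 0) →
  Stk p (n + 1) → IsPrimitiveRoot ζ p → IsPrimitiveRoot (r : ZMod p) (p - 1) →
  Good p ζ r (r ^ (n + 1)) (MulAction.stabilizer GQ s)

/-- the result for one prime -/
def ONE_st : Prop := ∀ (k : ℕ) (K₀ : IntermediateField ℚ Qb) [IsTotallyComplex K₀],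
  finrank ℚ K₀ = 2 → 1 < k → Odd k → ∃ B : ℕ, ∀ (p : ℕ) [Fact p.Prime], B < p →
    ¬ (p : ℤ) ∣ (_root_.bernoulli (p - k)).num → ∀ K, PExt p K₀ K → WeakLeopoldt p K {0, p - k}

end Pool.Agent.MP_3e91a1_nt
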