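import Pool.Agent.MP_3e91a1_nt.Stm

/-! The weak Leopoldt conjecture for representations whose residual constituents occur in a
permutation representation. -/

set_option autoImplicit false

open NumberField IsDedekindDomain

namespace Pool.Agent.MP_3e91a1_nt.WL

/-- every nonzero subquotient `V₂ / V₁` of the reduction of `ρ` has a nonzero vector that is fixed
by all automorphisms of `L/K` that fix `k` -/
def PermRes {K L O : Type} [Field K] [Field L] [Algebra K L] [CommRing O] {d : ℕ}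
    (k : Set L) (ρ : (L ≃ₐ[K] L) →* GL (Fin d) O) : Prop :=
  ∃ (R : Type) (_ : Field R) (r : O →+* R), (∀ c ∈ nonunits O, r c = 0) ∧
    ∀ V₁ V₂ : Submodule R (Fin d → R), V₁ < V₂ →
      (∀ g, ∀ x ∈ V₁, ((ρ g).val.map r).mulVec x ∈ V₁) →
      (∀ g, ∀ x ∈ V₂, ((ρ g).val.map r).mulVec x ∈ V₂) →
      ∃ x ∈ V₂, x ∉ V₁ ∧ ∀ g : L ≃ₐ[K] L, (∀ y ∈ k, g y = y) →
        ((ρ g).val.map r).mulVec x - x ∈ V₁

/-- For `L = K_S`: for all `ℤ_p`-extensions (the fixed field of the kernel of `κ`) in which the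
primes of `S` are finitely decomposed and all continuous `ρ` over `O` with `PermRes k ρ`, the
group `H²(K_S/K_∞, (F/O)^d)` vanishes. -/
def VanishR (p : ℕ) [Fact p.Prime] (K L O F : Type) [Field K] [Field L] [Algebra K L] [CommRing O]
    [TopologicalSpace O] [Field F] [Algebra O F] (S : Set (HeightOneSpectrum (𝓞 K)))
    (k : Set L) : Prop :=
  ∀ (κ : (L ≃ₐ[K] L) →* Multiplicative ℤ_[p]) (d : ℕ) (ρ : (L ≃ₐ[K] L) →* GL (Fin d) O),
    Continuous κ → Function.Surjective κ →
    (∀ v ∈ S, (v.asIdeal.primesOver (𝓞 (IntermediateField.fixedField κ.ker))).Finite) →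
    Continuous ρ → PermRes k ρ → H2Zero fun g : κ.ker => matAct O F (ρ g)

/-- The weak Leopoldt conjecture for `p` and `K`, all finite sets `S` that contain the primes
above `p` and have `k ⊆ K_S`, all coefficient fields `F`, and all `ρ` with `PermRes k ρ`. -/
def WeakLeopoldtR (p : ℕ) [Fact p.Prime] (K Ω : Type) [Field K] [Field Ω] [Algebra K Ω]
    (k : Set Ω) : Prop :=
  ∀ (S : Set (HeightOneSpectrum (𝓞 K))) (F : IntermediateField ℚ_[p] (PadicAlgCl p)),
    S.Finite → primesAbove K p ⊆ S → (∀ x ∈ k, x ∈ maxUnr K Ω S) →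
      VanishR p K (maxUnr K Ω S) (valRing F) F S {x | (x : Ω) ∈ k}

end Pool.Agent.MP_3e91a1_nt.WL
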