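import Pool.Agent.MP_3e91a1_nt.St

set_option autoImplicit false

open NumberField IsDedekindDomain Module Filter Topology Finset Polynomial
open scoped Classical

namespace Pool.Agent.MP_3e91a1_nt

open MP_e23604_nt MP_e23604_nt.B MP_e23604_nt.R MP_f3cd89_nt

theorem le_exp_WAH (y : WithZero (Multiplicative ℤ)) :
    y ≤ WithZero.exp (((WithZero.log y).natAbs : ℕ) : ℤ) := by
  rcases eq_or_ne y 0 with h | h
  · rw [h]; exact zero_le
  · conv_lhs => rw [← WithZero.exp_log h]
    exact WithZero.exp_le_exp.2 Int.le_natAbs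

theorem dual_WAH {K F : Type} [Field K] [Field F] [Algebra K F] (σ : F ≃ₐ[K] F) (p : ℕ)
    (hσ : orderOf σ = p) :
    ∃ k : F →₀ F, ∀ i < p, ∑ t ∈ k.support, k t * (σ ^ i) t = if i = 0 then 1 else 0 := by
  have hli : LinearIndependent F (fun (i : Fin p) (t : F) => (σ ^ (i : ℕ)) t) := by
    refine (linearIndependent_monoidHom F F).comp
      (fun i : Fin p => ((σ ^ (i : ℕ) : F ≃ₐ[K] F) : F →* F)) fun i j h => ?_
    have e : σ ^ (i : ℕ) = σ ^ (j : ℕ) := AlgEquiv.ext fun t => DFunLike.congr_fun h t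
    exact Fin.ext (pow_injOn_Iio_orderOf (by simp [hσ]) (by simp [hσ]) e)
  have hsp := span_flip_eq_top_iff_linearIndependent.2 hli
  obtain ⟨k, hk⟩ := Finsupp.mem_span_range_iff_exists_finsupp.1
    (hsp ▸ Submodule.mem_top (x := fun i : Fin p => if (i : ℕ) = 0 then (1 : F) else 0))
  refine ⟨k, fun i hi => ?_⟩
  have := congrFun hk ⟨i, hi⟩
  simpa [Finsupp.sum, Finset.sum_apply, flip] using this

theorem tel_WAH {K F : Type} [Field K] [Field F] [Algebra K F] (σ : F ≃ₐ[K] F) (p : ℕ)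
    (hσ : σ ^ p = 1) (x t : F) :
    x * σ (∑ i ∈ range p, Nm i σ x * (σ ^ i) t) - ∑ i ∈ range p, Nm i σ x * (σ ^ i) t =
      (Nm p σ x - 1) * t := by
  have h1 : ∀ i, x * σ (Nm i σ x * (σ ^ i) t) = Nm (i + 1) σ x * (σ ^ (i + 1)) t := by
    intro i
    simp only [Nm, prod_range_succ', map_mul, map_prod, pow_succ', AlgEquiv.mul_apply, pow_zero,
      AlgEquiv.one_apply]
    ring
  rw [map_sum, mul_sum, ← sum_sub_distrib]
  simp only [h1]
  rw [sum_range_sub fun i => Nm i σ x * (σ ^ i) t, hσ]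
  simp [Nm, sub_mul]

theorem AH_pf : AH_st := by
  intro K F _ _ _ _ σ p w hp hσ n
  obtain ⟨k, hk⟩ := dual_WAH σ p hσ
  have hp1 : σ ^ p = 1 := hσ ▸ pow_orderOf_eq_one σ
  refine ⟨n + k.support.sup fun t => (WithZero.log (w.valuation F (t * k t))).natAbs,
    fun x _ hx => ?_⟩
  set c : F → F := fun t => ∑ i ∈ range p, Nm i σ x * (σ ^ i) t with hc
  have h1 : ∑ t ∈ k.support, k t * c t = 1 := by
    simp only [hc, mul_sum]
    rw [sum_comm]
    have : ∀ i ∈ range p, ∑ t ∈ k.support, k t * (Nm i σ x * (σ ^ i) t) =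
        if i = 0 then 1 else 0 := by
      intro i hi
      simp only [mul_left_comm _ (Nm i σ x)]
      rw [← mul_sum, hk i (mem_range.1 hi)]
      split_ifs with h
      · simp [h, Nm]
      · simp
    rw [sum_congr rfl this]
    simp [hp]
  obtain ⟨t, ht, h2⟩ : ∃ t ∈ k.support, 1 ≤ w.valuation F (k t * c t) := by
    by_contra h
    push Not at h
    have := (w.valuation F).map_sum_lt one_ne_zero h
    rw [h1, map_one] at this
    exact lt_irrefl _ this
  have hc0 : c t ≠ 0 := by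
    intro h
    rw [h, mul_zero, map_zero] at h2
    exact not_lt.2 h2 zero_lt_one
  refine ⟨c t, hc0, fun v hv => ?_⟩
  rw [mem_singleton.1 hv]
  have e : (x * σ (c t) / c t - 1) * (k t * c t) = (Nm p σ x - 1) * (t * k t) := by
    have e0 : x * σ (c t) - c t = (Nm p σ x - 1) * t := tel_WAH σ p hp1 x t
    rw [← mul_assoc (Nm p σ x - 1), ← e0]
    field_simp
  have h3 : w.valuation F (t * k t) ≤ WithZero.exp ((k.support.sup fun t =>
      (WithZero.log (w.valuation F (t * k t))).natAbs : ℕ) : ℤ) :=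
    (le_exp_WAH _).trans (WithZero.exp_le_exp.2 (Int.ofNat_le.2 (le_sup
      (f := fun t => (WithZero.log (w.valuation F (t * k t))).natAbs) ht)))
  refine (le_mul_of_one_le_right' h2).trans ?_
  rw [← map_mul, e, map_mul]
  refine (mul_le_mul' (hx w (mem_singleton_self w)) h3).trans (le_of_eq ?_)
  rw [← WithZero.exp_add]
  congr 1
  push_cast
  ring

end Pool.Agent.MP_3e91a1_nt
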