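import Pool.Agent.MP_3e91a1_nt.St

set_option autoImplicit false

open NumberField IsDedekindDomain Module Filter Topology Finset Polynomial
open scoped Classical

namespace Pool.Agent.MP_3e91a1_nt

open MP_e23604_nt MP_e23604_nt.B MP_e23604_nt.R MP_f3cd89_nt

theorem tr_WCOR {G A : Type} [Group G] [AddCommGroup A] (ρ : G → A →+ A) (N H : Subgroup G)
    (c : G → G → A) (β : G → A) (hN : ∀ g, ∀ n ∈ N, g * n * g⁻¹ ∈ N) (hle : N ≤ H)
    (hi : H.index ≠ 0) (hρ : ∀ g h x, ρ (g * h) x = ρ g (ρ h x))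
    (hc : ∀ g h j, ρ g (c h j) - c (g * h) j + c g (h * j) - c g h = 0)
    (c1 : ∀ g g' h, g⁻¹ * g' ∈ N → c g h = c g' h) (c2 : ∀ g h h', h⁻¹ * h' ∈ N → c g h = c g h')
    (hβ : ∀ h ∈ H, ∀ h' ∈ H, h⁻¹ * h' ∈ N → β h = β h')
    (hb : ∀ g ∈ H, ∀ h ∈ H, c g h = ρ g (β h) - β (g * h) + β g) :
    ∃ b : G → A, (∀ g g', g⁻¹ * g' ∈ N → b g = b g') ∧
      ∀ g h, H.index • c g h = ρ g (b h) - b (g * h) + b g := by
  have := Subgroup.fintypeOfIndexNeZero hi
  let k : G → G ⧸ H → G := fun g x => (g • x).out⁻¹ * (g * x.out)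
  have hk : ∀ g x, k g x ∈ H := fun g x => QuotientGroup.eq.1 <| by
    rw [QuotientGroup.out_eq']
    exact (MulAction.Quotient.mk_smul_out H g x).symm
  let e : G → G ⧸ H → A := fun g x => c g x.out - c (g • x).out (k g x) + ρ (g • x).out (β (k g x))
  refine ⟨fun g => ∑ x, e g x, fun g g' h => sum_congr rfl fun x _ => ?_, fun g h => ?_⟩
  · have h1 : (g * x.out)⁻¹ * (g' * x.out) ∈ N := by
      simpa only [mul_inv_rev, inv_inv, mul_assoc] using hN x.out⁻¹ _ h
    have h2 : g • x = g' • x := by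
      rw [← MulAction.Quotient.mk_smul_out H g, ← MulAction.Quotient.mk_smul_out H g']
      exact QuotientGroup.eq.2 (hle h1)
    have h3 : (k g x)⁻¹ * k g' x ∈ N := by
      simpa only [k, h2, mul_inv_rev, inv_inv, mul_assoc, mul_inv_cancel_left] using h1
    simp only [e, c1 _ _ _ h, c2 _ _ _ h3, hβ _ (hk _ _) _ (hk _ _) h3, h2]
  · have key : ∀ x, c g h = ρ g (e h x) - e (g * h) x + e g (h • x) := fun x => by
      have e1 : (h • x).out * k h x = h * x.out := mul_inv_cancel_left _ _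
      have e2 : (g • h • x).out * k g (h • x) = g * (h • x).out := mul_inv_cancel_left _ _
      have e3 : k (g * h) x = k g (h • x) * k h x := by
        simp only [k, mul_smul, mul_assoc, mul_inv_cancel_left]
      have a1 := hc g h x.out
      have a2 := hc g (h • x).out (k h x)
      have a3 := hc (g • h • x).out (k g (h • x)) (k h x)
      rw [hb _ (hk _ _) _ (hk _ _), e2, map_add, map_sub, ← hρ, e2, hρ] at a3
      rw [e1] at a2
      simp only [e, map_add, map_sub, mul_smul, e3]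
      linear_combination (norm := abel1) a2 - a1 - a3
    simp only
    rw [map_sum, ← Equiv.sum_comp (MulAction.toPerm h) (e g), ← sum_sub_distrib,
      ← sum_add_distrib, Subgroup.index, Nat.card_eq_fintype_card, ← card_univ, ← sum_const]
    exact sum_congr rfl fun x _ => key x

theorem COR_pf : COR_st := by
  intro A _ ρ N H U c β h1 h2 h3 h4 h5 h6 h7 h8 h9
  obtain ⟨b, b1, b2⟩ := tr_WCOR (G := U) (fun g => ρ g) (N.subgroupOf U) (H.subgroupOf U)
    (fun g h => c g h) (fun g => β g) (fun g n hn => h3 g g.2 n hn) (fun _ h => h1 h) h4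
    (fun g h => h5 g g.2 h h.2) (fun g h j => h6 g g.2 h h.2 j j.2)
    (fun g g' h => h7.2 h h.2 g g.2 g' g'.2) (fun g h h' => h7.1 g g.2 h h.2 h' h'.2)
    (fun h hh h' hh' => h8 h hh h' hh') fun g hg h hh => h9 g hg h hh
  refine ⟨fun g => if hg : g ∈ U then b ⟨g, hg⟩ else 0, fun g hg h hh e => ?_, fun g hg h hh => ?_⟩
  · simp only [dif_pos hg, dif_pos hh]
    exact b1 _ _ e
  · simp only [dif_pos hg, dif_pos hh, dif_pos (U.mul_mem hg hh)]
    exact b2 ⟨g, hg⟩ ⟨h, hh⟩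

theorem COM_pf (hCOR : COR_st) : COM_st := by
  rintro p N H U c hp oN oH hU hd hc hI hpw ⟨N', β, h1, h2, h3⟩
  obtain ⟨M, m1, m2⟩ := exists_ON (s := (N : Set GQ) ∩ H ∩ N')
    (((oN.inter oH).inter h1.2).mem_nhds ⟨⟨one_mem N, one_mem H⟩, one_mem N'⟩)
  let u : Qb → Additive Qbˣ := fun x => Additive.ofMul (if h : x = 0 then 1 else Units.mk0 x h)
  let v : Additive Qbˣ → Qb := fun x => (Additive.toMul x : Qbˣ)
  have vu : ∀ x, x ≠ 0 → v (u x) = x := fun x h => by simp [u, v, h]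
  have vi : Function.Injective v := fun _ _ h => Additive.toMul.injective (Units.ext h)
  have v0 : ∀ x, v x ≠ 0 := fun x => Units.ne_zero _
  have va : ∀ x y, v (x + y) = v x * v y := fun _ _ => rfl
  obtain ⟨ρ, vs⟩ : ∃ ρ : GQ → Additive Qbˣ →+ Additive Qbˣ, ∀ g x, v (ρ g x) = g (v x) :=
    ⟨fun g => sA g, fun _ _ => rfl⟩
  have vn : ∀ (n : ℕ) x, v (n • x) = v x ^ n := fun n x => by simp [v]
  have hI' := hI.mono (N' := M) (fun g h => (m2 g h).1.1) le_rfl
  obtain ⟨b, b1, b2⟩ := hCOR _ ρ M H U (fun g h => u (c g h)) (fun g => u (β g))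
    (fun g h => (m2 g h).1.2) hU (fun g _ n hn => m1.1.conj_mem n hn g)
    (fun h => hd (h ▸ dvd_zero p)) (fun _ _ _ _ _ => vi (by rw [vs, vs, vs]; rfl))
    (fun g hg h hh j hj => by
      rw [sub_eq_zero, sub_add_eq_add_sub, sub_eq_iff_eq_add]
      refine vi ?_
      rw [va, va, vs, vu _ (hI.2.2 _ hh _ hj).1, vu _ (hI.2.2 _ hg _ (U.mul_mem hh hj)).1,
        vu _ (hI.2.2 _ hg _ hh).1, vu _ (hI.2.2 _ (U.mul_mem hg hh) _ hj).1, hc g hg h hh j hj])
    ⟨fun g hg h hh j hj e => congrArg u (hI'.1 g hg h hh j hj e),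
      fun g hg h hh j hj e => congrArg u (hI'.2.1 g hg h hh j hj e)⟩
    (fun g hg h hh e => congrArg u (h2.1 g hg h hh (m2 _ e).2))
    (fun g hg h hh => by
      rw [sub_add_eq_add_sub, eq_sub_iff_add_eq]
      refine vi ?_
      rw [va, va, vs, vu _ (hI.2.2 _ (hU hg) _ (hU hh)).1, vu _ (h2.2 _ hg).1, vu _ (h2.2 _ hh).1,
        vu _ (h2.2 _ (H.mul_mem hg hh)).1, ← h3 g hg h hh, mul_comm])
  obtain ⟨m, -, hm⟩ := Nat.exists_mul_mod_eq_one_of_coprime
    ((Nat.Prime.coprime_iff_not_dvd hp).2 hd).symm hp.one_lt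
  refine cob_of_lc (β := fun g => v (b g) ^ m) (Lc.map ⟨M, m1, b1⟩ fun x => v x ^ m)
    (fun g _ => pow_ne_zero _ (v0 _)) fun g hg h hh => ?_
  have e := b2 g hg h hh
  rw [sub_add_eq_add_sub, eq_sub_iff_add_eq] at e
  have e' := congrArg v e
  rw [va, va, vs, vn, vu _ (hI.2.2 _ hg _ hh).1] at e'
  simp only
  rw [map_pow, ← mul_pow, mul_comm (v (b g)), ← e', mul_pow, ← pow_mul,
    ← Nat.div_add_mod (_ * m) p, hm, pow_succ, pow_mul, hpw g hg h hh, one_pow, one_mul]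

end Pool.Agent.MP_3e91a1_nt
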