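import Pool.Agent.MP_3e91a1_nt.St

set_option autoImplicit false

open NumberField IsDedekindDomain Module Filter Topology Finset Polynomial
open scoped Classical

namespace Pool.Agent.MP_3e91a1_nt

open MP_e23604_nt MP_e23604_nt.B MP_e23604_nt.R MP_f3cd89_nt

theorem pow_WHNF {M G : Type} [Field M] [NumberField M] [Group G] [MulSemiringAction G M] {g : G}
    {w : Pr M} (h : gact g w = w) (i : ℕ) : gact (g ^ i) w = w := by
  induction i with
  | zero => rw [pow_zero, gact_one]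
  | succ i ih => rw [pow_succ, gact_mul, h, ih]

theorem dvd_WHNF {M : Type} [Field M] [NumberField M] {σ : M ≃ₐ[ℚ] M} {p : ℕ} {w : Pr M} {a : M}
    (ha : a ≠ 0) (hw : gact σ w = w) (h : Apx p σ w 1 a) : (p : ℤ) ∣ ord w a := by
  obtain ⟨y, hy, h⟩ := h
  have h0 : ∀ n : ℕ, Nm n σ y ≠ 0 ∧ ord w (Nm n σ y) = n * ord w y := fun n => by
    induction n with
    | zero => simp [Nm, ord_one]
    | succ n ih =>
      have e : Nm (n + 1) σ y = Nm n σ y * (σ ^ n) y := prod_range_succ _ _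
      have h1 := (map_ne_zero (σ ^ n)).2 hy
      have h2 := ord_gact (σ ^ n) w y
      rw [pow_WHNF hw, AlgEquiv.smul_def] at h2
      rw [e, ord_mul w ih.1 h1, ih.2, h2]
      exact ⟨mul_ne_zero ih.1 h1, by push_cast; ring⟩
  have h1 : w.valuation M (a / Nm p σ y - 1) < 1 :=
    (h w (mem_singleton_self w)).trans_lt (by
      rw [← WithZero.exp_zero, WithZero.exp_lt_exp]
      norm_num)
  have h2 := (val_eq_one_iff w (div_ne_zero ha (h0 p).1)).1 (val_one_of _ h1)
  rw [ord_div w ha (h0 p).1, (h0 p).2] at h2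
  exact ⟨ord w y, by linarith⟩

theorem HNF_pf (hHNP : HNP_st) : HNF_st := by
  intro M _ _ s p ζ a hp hp2 h1 h2 hζ hsζ ha hs hl
  have : Fact p.Prime := ⟨hp⟩
  let F := IntermediateField.fixedField (Subgroup.zpowers s)
  have : IsGalois F M := IsGalois.of_fixed_field M (Subgroup.zpowers s)
  have hr : finrank F M = p := by
    rw [IntermediateField.finrank_fixedField_eq_card, Nat.card_zpowers]
    exact orderOf_eq_prime h2 h1
  let s' : M ≃ₐ[F] M := AlgEquiv.ofRingEquiv (f := s.toRingEquiv) fun x =>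
    (IntermediateField.mem_fixedField_iff _ _).1 x.2 s (Subgroup.mem_zpowers s)
  have h3 : s' ≠ 1 := fun h => h1 (AlgEquiv.ext fun x => DFunLike.congr_fun h x)
  have hcard : Nat.card (M ≃ₐ[F] M) = p := by rw [IsGalois.card_aut_eq_finrank, hr]
  have hpow : ∀ (i : ℕ) x, (s' ^ i) x = (s ^ i) x := fun i => by
    induction i with
    | zero => exact fun _ => rfl
    | succ i ih => exact fun x => by rw [pow_succ, pow_succ]; exact ih (s x)
  have hN : ∀ y, Nm p s' y = Nm p s y := fun y => prod_congr rfl fun i _ => hpow i y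
  have : IsTotallyComplex F := ⟨fun v => by
    have hxF : ζ ∈ F := (IntermediateField.mem_fixedField_iff _ _).2 fun g hg =>
      (Subgroup.zpowers_le (H := MulAction.stabilizer (M ≃ₐ[ℚ] M) ζ)).2 hsζ hg
    have hz : IsPrimitiveRoot (⟨ζ, hxF⟩ : F) p :=
      IsPrimitiveRoot.of_map_of_injective (f := algebraMap F M) hζ (algebraMap F M).injective
    rw [← InfinitePlace.not_isReal_iff_isComplex]
    intro hv
    have h4 := InfinitePlace.IsPrimitiveRoot.nrRealPlaces_eq_zero_of_two_lt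
      (lt_of_le_of_ne hp.two_le hp2.symm) hz
    exact (Fintype.card_eq_zero_iff.1 h4).elim ⟨v, hv⟩⟩
  have hfin : {w : Pr M | s' ∈ w.asIdeal.inertia (M ≃ₐ[F] M)}.Finite := by
    obtain ⟨x, hx⟩ : ∃ x : 𝓞 M, s' • x - x ≠ 0 := by
      by_contra hc
      refine h3 (AlgEquiv.ext fun y => ?_)
      have h4 : ∀ x : 𝓞 M, s' (x : M) = x := fun x =>
        congrArg (fun z : 𝓞 M => (z : M)) (sub_eq_zero.1 (not_not.1 (not_exists.1 hc x)))
      obtain ⟨b, c, -, rfl⟩ := IsFractionRing.div_surjective (A := 𝓞 M) y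
      rw [map_div₀]
      exact congrArg₂ (· / ·) (h4 b) (h4 c)
    exact (ord_finite ((s' • x - x : 𝓞 M) : M)).subset fun w hw h =>
      (ord_eq_zero_iff w hx).1 h (hw x)
  obtain ⟨μ, hμ⟩ := hHNP F M s' p (hfin.toFinset.image fun w => w.under (𝓞 F)) a hp hr h3 ha hs
    (fun w hw => by
      rw [eq_bot_iff]
      intro g hg
      by_contra h
      exact hw (mem_image.2 ⟨w, hfin.mem_toFinset.2
        ((Subgroup.zpowers_le.2 hg) (mem_zpowers_of_prime_card hcard h)), rfl⟩))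
    (fun w _ hw => (hl w hw).elim (fun h => dvd_WHNF ha hw (h 1)) fun h => h.1)
    fun w hw hw' n => by
      have h4 : ∀ n, Apx p s w n a := (hl w hw').resolve_right fun h => h.2 (by
        obtain ⟨w', h4, h5⟩ := mem_image.1 (mem_above.1 hw)
        obtain ⟨g, hg⟩ := (fb F M (M ≃ₐ[F] M)).2.1 w w' h5.symm
        obtain ⟨i, rfl⟩ := mem_powers_of_prime_card hcard h3 (g' := g)
        have e : w = w' := (pow_WHNF hw' i).symm.trans hg
        rw [e]
        exact hfin.mem_toFinset.1 h4)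
      obtain ⟨y, hy, h⟩ := h4 n
      exact ⟨y, hy, by rwa [hN]⟩
  exact ⟨μ, by rwa [← hN]⟩

theorem prod_WHNF {v : AbsoluteValue Qb ℝ} (hv : IsNonarchimedean v) {ε : ℝ} (h0 : 0 ≤ ε)
    (h1 : ε ≤ 1) {f : ℕ → Qb} (hf : ∀ i, v (f i - 1) ≤ ε) (n : ℕ) :
    v (∏ i ∈ range n, f i - 1) ≤ ε := by
  induction n with
  | zero => simpa using h0
  | succ n ih =>
    have h2 := hv (f n - 1) 1
    rw [sub_add_cancel, map_one] at h2
    have h3 := hv ((∏ i ∈ range n, f i - 1) * f n) (f n - 1)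
    rw [show (∏ i ∈ range n, f i - 1) * f n + (f n - 1) = ∏ i ∈ range (n + 1), f i - 1 by
      rw [prod_range_succ]; ring, map_mul] at h3
    exact h3.trans (max_le ((mul_le_of_le_one_right (v.nonneg _)
      (h2.trans (max_le ((hf n).trans h1) le_rfl))).trans ih) (hf n))

theorem APX_pf (hPLC : PLC_st) : APX_st := by
  rintro p W L _ w l _ γ s t σ a hW mem hP hs hσ ⟨y, hy0, hy, hya⟩ n
  have hr0 : 0 < t := one_pos.trans hP.1
  have hy1 := (nv l γ).pos hy0
  have hn0 : 0 < t ^ (-(n : ℤ)) := zpow_pos hr0 _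
  have hn1 : t ^ (-(n : ℤ)) ≤ 1 := zpow_le_one_of_nonpos₀ hP.1.le (by omega)
  obtain ⟨u, hu, hyu⟩ := DEN_ok l γ W y _ hW hy (mul_pos hy1 hn0)
  have h3 : nv l γ (y - u) < nv l γ y := hyu.trans_le (mul_le_of_le_one_right hy1.le hn1)
  have h4 : nv l γ y ≤ nv l γ u := not_lt.1 fun h => by
    have := nv_na l γ (y - u) u
    rw [sub_add_cancel] at this
    exact absurd this (not_le.2 (max_lt h3 h))
  have hu1 := hy1.trans_le h4
  have hu0 : u ≠ 0 := (nv l γ).pos_iff.1 hu1
  have hpow : ∀ (i : ℕ) (x : L), (((σ ^ i) x : L) : Qb) = (s ^ i) (x : Qb) := by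
    intro i
    induction i with
    | zero => exact fun _ => rfl
    | succ i ih =>
      intro x
      rw [pow_succ, pow_succ, AlgEquiv.mul_apply, AlgEquiv.mul_apply, ih, hσ]
  refine ⟨⟨u, (mem u).2 hu⟩, fun h => hu0 (congrArg Subtype.val h),
    (((hPLC L).2 w l γ t hP).2.2.2.2.2 n _).2 ?_⟩
  have e : ((a / Nm p σ ⟨u, (mem u).2 hu⟩ : L) : Qb) = ∏ i ∈ range p, (s ^ i) (y / u) := by
    simp only [IntermediateField.coe_div, ← hya, Nm, SubmonoidClass.coe_finsetProd, hpow, map_div₀,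
      prod_div_distrib]
  rw [e]
  refine prod_WHNF (nv_na l γ) hn0.le hn1 (fun i => ?_) p
  rw [← map_one (s ^ i), ← map_sub, mem_Dec.1 ((Dec _).pow_mem hs i), div_sub_one hu0, map_div₀,
    div_le_iff₀ hu1, mul_comm]
  exact hyu.le.trans (mul_le_mul_of_nonneg_right h4 hn0.le)

end Pool.Agent.MP_3e91a1_nt
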