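import Pool.Agent.MP_3e91a1_nt.St

set_option autoImplicit false

open NumberField IsDedekindDomain Module Filter Topology Finset Polynomial
open scoped Classical

namespace Pool.Agent.MP_3e91a1_nt

open MP_e23604_nt MP_e23604_nt.B MP_e23604_nt.R MP_f3cd89_nt

theorem fix_WHQ {B : Type} [AddCommGroup B] (τ : AddMonoid.End B) {x : B} (h : τ x = x) (n : ℕ) :
    nmH τ n x = n • x := by
  induction n with
  | zero => rw [HerbX.n_zero, zero_smul]
  | succ n ih => rw [HerbX.n_succ, ih, map_nsmul, h, succ_nsmul]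

theorem top_WHQ {B : Type} [AddCommGroup B] (τ : AddMonoid.End B) {n : ℕ} (hn : 0 < n)
    (hτ : τ ^ n = 1) (f : ℤ →+ B) (hf : Function.Injective f) (h1 : ∀ k, τ (f k) = f k)
    (h2 : f.range.index ≠ 0) (h3 : ∀ x, nmH τ n x = 0 → ∃ y, x = τ y - y) : hz τ n ⊤ = n := by
  have e0 : ∀ k, nmH τ n (f k) = f (k • (n : ℤ)) := fun k => by
    rw [fix_WHQ τ (h1 k), ← map_nsmul, nsmul_eq_mul, smul_eq_mul, mul_comm]
  have e1 : hz τ n f.range = n := by
    have a1 : f.range.map (nmH τ n) = (AddSubgroup.zmultiples (n : ℤ)).map f := by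
      ext x
      constructor
      · rintro ⟨_, ⟨k, rfl⟩, rfl⟩
        exact ⟨_, ⟨k, rfl⟩, (e0 k).symm⟩
      · rintro ⟨_, ⟨k, rfl⟩, rfl⟩
        exact ⟨_, ⟨k, rfl⟩, e0 k⟩
    have a2 : f.range ⊓ AddMonoidHom.ker (τ - 1 : AddMonoid.End B) = (⊤ : AddSubgroup ℤ).map f := by
      rw [← AddMonoidHom.range_eq_map, inf_eq_left]
      rintro _ ⟨k, rfl⟩
      exact sub_eq_zero.2 (h1 k)
    rw [hz, a1, a2, AddSubgroup.relIndex_map_map_of_injective _ _ hf,
      AddSubgroup.relIndex_top_right, Int.index_zmultiples, Int.natAbs_natCast]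
  have e2 : ho τ n f.range = 1 := by
    rw [ho, AddSubgroup.relIndex_eq_one]
    rintro _ ⟨⟨k, rfl⟩, hk⟩
    have a1 : k • (n : ℤ) = 0 := hf (by rw [← e0, map_zero]; exact hk)
    rw [(mul_eq_zero.1 a1).resolve_right (by exact_mod_cast hn.ne'), map_zero]
    exact zero_mem _
  have e3 : ho τ n ⊤ = 1 := by
    rw [ho, AddSubgroup.relIndex_eq_one]
    intro x hx
    obtain ⟨y, rfl⟩ := h3 x hx.2
    exact ⟨y, trivial, rfl⟩
  have := (qlem B τ n ⊤ f.range hτ le_top (by rwa [AddSubgroup.relIndex_top_right])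
    (fun _ _ => trivial) (by rintro _ ⟨k, rfl⟩; exact ⟨k, (h1 k).symm⟩) (by rw [e1]; exact hn.ne')
    (by rw [e2]; exact one_ne_zero)).2.2
  rwa [e1, e2, e3, mul_one, one_mul] at this

theorem HQ_pf : HQ_st := by
  intro A _ σ n V o a₀ hn hσ v1 v2 v3 ha ho0 v4 v5
  let π := QuotientAddGroup.mk' V
  let τ : AddMonoid.End (A ⧸ V) := QuotientAddGroup.map V V σ v1
  have hπ : Function.Surjective π := QuotientAddGroup.mk'_surjective V
  have h0 : ∀ a, π a = 0 ↔ a ∈ V := fun a => QuotientAddGroup.eq_zero_iff a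
  have hj : ∀ a, π (σ a) = τ (π a) := fun _ => rfl
  have hN := HerbX.n_map σ τ π hj n
  have hp : ∀ (m : ℕ) a, π ((σ ^ m) a) = (τ ^ m) (π a) := fun m => by
    induction m with
    | zero => exact fun _ => rfl
    | succ m ih =>
      intro a
      rw [pow_succ, pow_succ]
      exact ih (σ a)
  have hτ : τ ^ n = 1 := AddMonoidHom.ext fun x => by
    obtain ⟨a, rfl⟩ := hπ x
    exact (hp n a).symm.trans (by rw [hσ]; rfl)
  let f : ℤ →+ A ⧸ V := π.comp (zmultiplesHom A a₀)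
  have ef : ∀ k : ℤ, f k = π (k • a₀) := fun _ => rfl
  have hf : Function.Injective f := (injective_iff_map_eq_zero f).2 fun k hk => by
    have := v2 ((h0 _).1 hk)
    rw [AddMonoidHom.mem_ker, zmultiplesHom_apply, map_zsmul, smul_eq_mul] at this
    exact (mul_eq_zero.1 this).resolve_right ho0
  have h2 : f.range.index ≠ 0 := by
    rw [← AddSubgroup.index_comap_of_surjective _ hπ, ← AddSubgroup.relIndex_top_right]
    refine AddSubgroup.relIndex_ne_zero_trans (K := (AddSubgroup.zmultiples (o a₀)).comap o)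
      (fun e => v3 (AddSubgroup.relIndex_eq_zero_of_le_left (K := f.range.comap π)
        (fun a h => ⟨0, by rw [map_zero, (h0 a).2 h]⟩) ?_)) fun e => ?_
    · have a1 : f.range.comap π ⊔ o.ker = (AddSubgroup.zmultiples (o a₀)).comap o := by
        refine le_antisymm (sup_le ?_ fun a h => ⟨0, (zero_smul _ _).trans h.symm⟩) ?_
        · rintro a ⟨k, hk⟩
          have := v2 ((h0 _).1 ((map_sub π _ _).trans (sub_eq_zero.2 hk)))
          rw [AddMonoidHom.mem_ker, map_sub, zmultiplesHom_apply, map_zsmul, sub_eq_zero] at this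
          exact ⟨k, this⟩
        · rintro a ⟨k, hk⟩
          refine AddSubgroup.mem_sup.2 ⟨k • a₀, ⟨k, rfl⟩, a - k • a₀, ?_, add_sub_cancel _ _⟩
          rw [AddMonoidHom.mem_ker, map_sub, map_zsmul]
          exact sub_eq_zero.2 hk.symm
      rwa [← AddSubgroup.relIndex_sup_left, a1]
    · rw [AddSubgroup.relIndex_top_right, AddSubgroup.index_comap] at e
      have := AddSubgroup.index_eq_zero_of_relIndex_eq_zero e
      rw [Int.index_zmultiples, Int.natAbs_eq_zero] at this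
      exact ho0 this
  have h := top_WHQ τ hn hτ f hf (fun k => by rw [ef, ← hj, map_zsmul, ha]) h2 fun x hx => by
    obtain ⟨a, rfl⟩ := hπ x
    obtain ⟨b, hb⟩ := v5 a ((h0 _).1 ((hN a).trans hx))
    refine ⟨π b, ?_⟩
    rw [← hj, ← map_sub, ← sub_eq_zero, ← map_sub]
    exact (h0 _).2 hb
  have e1 : AddMonoidHom.range (nmH σ n) ⊔ V = ((⊤ : AddSubgroup (A ⧸ V)).map (nmH τ n)).comap π := by
    refine le_antisymm (sup_le ?_ fun a h => ⟨0, trivial, by rw [map_zero, (h0 a).2 h]⟩) ?_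
    · rintro _ ⟨a, rfl⟩
      exact ⟨π a, trivial, (hN a).symm⟩
    · rintro a ⟨x, -, hx⟩
      obtain ⟨b, rfl⟩ := hπ x
      refine AddSubgroup.mem_sup.2 ⟨_, ⟨b, rfl⟩, a - nmH σ n b, (h0 _).1 ?_, add_sub_cancel _ _⟩
      rw [map_sub, hN, ← hx]
      exact sub_self _
  have e2 : (AddMonoidHom.ker (σ - 1 : AddMonoid.End A)).map π =
      ⊤ ⊓ AddMonoidHom.ker (τ - 1 : AddMonoid.End (A ⧸ V)) := by
    rw [top_inf_eq]
    refine le_antisymm ?_ fun x hx => ?_
    · rintro _ ⟨a, h, rfl⟩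
      change τ (π a) - π a = 0
      rw [← hj, ← map_sub]
      exact (congrArg π h).trans (map_zero π)
    · obtain ⟨a, rfl⟩ := hπ x
      obtain ⟨b, hb, e⟩ := v4 (σ a - a) ((h0 _).1 (by rw [map_sub, hj]; exact hx))
        (HerbX.nd σ n hσ a)
      refine ⟨a - b, ?_, by rw [map_sub, (h0 b).2 hb, sub_zero]⟩
      change σ (a - b) - (a - b) = 0
      rw [map_sub, sub_sub_sub_comm, e, sub_self]
  rw [e1, AddSubgroup.relIndex_comap, e2]
  exact h

end Pool.Agent.MP_3e91a1_nt
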