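import Pool.Agent.MP_3e91a1_nt.St

set_option autoImplicit false

open NumberField IsDedekindDomain Module Filter Topology Finset Polynomial
open scoped Classical

namespace Pool.Agent.MP_3e91a1_nt

open MP_e23604_nt MP_e23604_nt.B MP_e23604_nt.R MP_f3cd89_nt

theorem up_WIND {G : Type} [Group G] [Finite G] {p : ℕ} [hp : Fact p.Prime] (hG : IsPGroup p G)
    (H : Subgroup G) (hH : H ≠ ⊤) :
    ∃ (H' : Subgroup G) (χ : G → ZMod p) (s : G), (∀ g ∈ H', ∀ h ∈ H', χ (g * h) = χ g + χ h) ∧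
      (∀ g, g ∈ H ↔ g ∈ H' ∧ χ g = 0) ∧ s ∈ H' ∧ χ s = 1 := by
  obtain ⟨n, hn⟩ := (hG.to_subgroup H).exists_card_eq
  obtain ⟨m, hm⟩ := hG.index H
  have h1 : m ≠ 0 := by
    rintro rfl
    exact hH (Subgroup.index_eq_one.1 (by simpa using hm))
  have h2 : p ^ (n + 1) ∣ Nat.card G := by
    rw [← H.card_mul_index, hn, hm, ← pow_add]
    exact pow_dvd_pow p (by omega)
  obtain ⟨H', h3, h4⟩ := Sylow.exists_subgroup_card_pow_succ h2 hn
  have h5 := (H.subgroupOf H').card_mul_index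
  rw [h3, Nat.card_congr (Subgroup.subgroupOfEquivOfLe h4).toEquiv, hn, pow_succ] at h5
  have h6 : (H.subgroupOf H').index = p :=
    Nat.eq_of_mul_eq_mul_left (pow_pos hp.out.pos n) h5
  have h7 : (H.subgroupOf H').Normal := Subgroup.normal_of_index_eq_minFac_card
    (by rw [h6, h3, hp.out.pow_minFac (Nat.succ_ne_zero n)])
  let e : H' ⧸ H.subgroupOf H' ≃* Multiplicative (ZMod p) :=
    mulEquivOfPrimeCardEq (p := p) h6 (by simp)
  let f : H' →* Multiplicative (ZMod p) := e.toMonoidHom.comp (QuotientGroup.mk' _)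
  have hf : Function.Surjective f := e.surjective.comp (QuotientGroup.mk'_surjective _)
  have hk : ∀ x : H', f x = 1 ↔ (x : G) ∈ H := fun x => by
    rw [← Subgroup.mem_subgroupOf, ← QuotientGroup.eq_one_iff]
    exact e.map_eq_one_iff
  obtain ⟨s, hs⟩ := hf (Multiplicative.ofAdd 1)
  refine ⟨H', fun g => if hg : g ∈ H' then (f ⟨g, hg⟩).toAdd else 0, s, fun g hg h hh => ?_,
    fun g => ⟨fun hg => ⟨h4 hg, ?_⟩, fun ⟨hg, h0⟩ => ?_⟩, s.2, ?_⟩
  · simp only [dif_pos hg, dif_pos hh, dif_pos (H'.mul_mem hg hh)]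
    rw [← toAdd_mul, ← map_mul]
    rfl
  · simp only [dif_pos (h4 hg)]
    rw [(hk ⟨g, h4 hg⟩).2 hg, toAdd_one]
  · simp only [dif_pos hg] at h0
    exact (hk ⟨g, hg⟩).1 (toAdd_eq_zero.1 h0)
  · simp only [dif_pos s.2]
    rw [Subtype.coe_eta, hs, toAdd_ofAdd]

theorem fin_WIND {G : Type} [Group G] [Finite G] {p : ℕ} [hp : Fact p.Prime] (hG : IsPGroup p G)
    (P : Subgroup G → Prop) (hs : ∀ (H H' : Subgroup G) (χ : G → ZMod p) (s : G),
      P H → (∀ g ∈ H', ∀ h ∈ H', χ (g * h) = χ g + χ h) → (∀ g, g ∈ H ↔ g ∈ H' ∧ χ g = 0) →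
      s ∈ H' → χ s = 1 → P H') (H : Subgroup G) : P H → P ⊤ := by
  induction H using WellFoundedGT.induction with
  | ind H ih =>
    intro h2
    by_cases hH : H = ⊤
    · exact hH ▸ h2
    obtain ⟨H', χ, s, h3, h4, h5, h6⟩ := up_WIND hG H hH
    refine ih H' (lt_of_le_of_ne (fun g hg => ((h4 g).1 hg).1) fun e => ?_)
      (hs H H' χ s h2 h3 h4 h5 h6)
    have h7 := ((h4 s).1 (e ▸ h5)).2
    rw [h6] at h7
    exact one_ne_zero h7

theorem nrm_WIND {N U : Subgroup GQ} (h : Nrm N U) : (N.subgroupOf U).Normal :=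
  ⟨fun n hn g => h g g.2 n hn⟩

theorem pg_WIND {p : ℕ} {N U : Subgroup GQ} [(N.subgroupOf U).Normal]
    (h : ∀ g ∈ U, ∃ k : ℕ, g ^ p ^ k ∈ N) : IsPGroup p (U ⧸ N.subgroupOf U) := fun x => by
  obtain ⟨g, rfl⟩ := QuotientGroup.mk'_surjective _ x
  obtain ⟨k, h⟩ := h g g.2
  exact ⟨k, by rw [← map_pow]; exact (QuotientGroup.eq_one_iff _).2 h⟩

theorem one_WIND (p : ℕ) [Fact p.Prime] (N H₀ U : Subgroup GQ) (P : Subgroup GQ → Prop)
    (h1 : N ≤ H₀) (hU : H₀ ≤ U) (hn : Nrm N U) (hi : N.relIndex U ≠ 0)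
    (hp : ∀ g ∈ U, ∃ k : ℕ, g ^ p ^ k ∈ N) (h0 : P H₀)
    (hs : ∀ H H' χ s, H₀ ≤ H → H' ≤ U → Step p H H' χ s → P H → P H') : P U := by
  have := nrm_WIND hn
  have : Finite (U ⧸ N.subgroupOf U) := Nat.finite_of_card_ne_zero hi
  let φ := QuotientGroup.mk' (N.subgroupOf U)
  have hφ : Function.Surjective φ := QuotientGroup.mk'_surjective _
  let pre : Subgroup (U ⧸ N.subgroupOf U) → Subgroup GQ := fun K => (K.comap φ).map U.subtype
  have mem : ∀ K (x : U), (x : GQ) ∈ pre K ↔ φ x ∈ K := fun K x =>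
    ⟨fun ⟨y, hy, e⟩ => Subtype.ext e ▸ hy, fun h => ⟨x, h, rfl⟩⟩
  have le : ∀ K, pre K ≤ U := fun K _ ⟨y, _, e⟩ => e ▸ y.2
  have e0 : pre ((H₀.subgroupOf U).map φ) = H₀ := by
    simp only [pre]
    rw [Subgroup.comap_map_eq_self (by
      rw [QuotientGroup.ker_mk']
      exact Subgroup.comap_mono h1), Subgroup.subgroupOf_map_subtype, inf_eq_left.2 hU]
  have e1 : pre ⊤ = U := le_antisymm (le _) fun g h => (mem ⊤ ⟨g, h⟩).2 trivial
  rw [← e1]
  refine (fin_WIND (pg_WIND hp) (fun K => H₀ ≤ pre K ∧ P (pre K)) ?_ _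
    ⟨e0.ge, e0.symm ▸ h0⟩).2
  intro K K' χ t hK h1 h2 h3 h4
  obtain ⟨s, rfl⟩ := hφ t
  refine ⟨hK.1.trans (Subgroup.map_mono (Subgroup.comap_mono fun g hg => ((h2 g).1 hg).1)),
    hs (pre K) (pre K') (fun g => if hg : g ∈ U then χ (φ ⟨g, hg⟩) else 0) s hK.1 (le _)
      ⟨fun g hg h hh => ?_, fun g => ?_, (mem K' s).2 h3, ?_⟩ hK.2⟩
  · simp only [dif_pos (le _ hg), dif_pos (le _ hh), dif_pos (U.mul_mem (le _ hg) (le _ hh))]
    rw [← h1 _ ((mem K' ⟨g, le _ hg⟩).1 hg) _ ((mem K' ⟨h, le _ hh⟩).1 hh), ← map_mul]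
    rfl
  · by_cases hg : g ∈ U
    · simp only [dif_pos hg]
      exact (mem K ⟨g, hg⟩).trans ((h2 _).trans (and_congr (mem K' ⟨g, hg⟩).symm Iff.rfl))
    · exact ⟨fun h => absurd (le _ h) hg, fun h => absurd (le _ h.1) hg⟩
  · simp only [dif_pos s.2]
    rw [Subtype.coe_eta, h4]

theorem IND_pf : IND_st := by
  intro p hp
  have h4 : ∀ N U : Subgroup GQ, IsOpen (N : Set GQ) → N.relIndex U ≠ 0 := fun N U h => by
    have := Subgroup.quotient_finite_of_isOpen N h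
    have := Subgroup.finiteIndex_of_finite_quotient (H := N)
    exact Subgroup.FiniteIndex.index_ne_zero
  refine ⟨one_WIND p, fun N W hW hn hi => ?_, fun H W K n hW hn hi hk hd => ?_, h4,
    fun N U h => ?_⟩
  · have := nrm_WIND hn
    have : Finite (W ⧸ N.subgroupOf W) := Nat.finite_of_card_ne_zero hi
    let S : Sylow p (W ⧸ N.subgroupOf W) := default
    refine ⟨(S.1.comap (QuotientGroup.mk' _)).map W.subtype, fun g hg => ⟨⟨g, hW hg⟩, ?_, rfl⟩,
      Subgroup.map_subtype_le _, ?_, ?_⟩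
    · have e : QuotientGroup.mk' (N.subgroupOf W) ⟨g, hW hg⟩ = 1 :=
        (QuotientGroup.eq_one_iff _).2 hg
      exact Subgroup.mem_comap.2 (e ▸ S.1.one_mem)
    · rintro _ ⟨g, hg, rfl⟩
      obtain ⟨k, hk⟩ := S.2 ⟨_, hg⟩
      have e : QuotientGroup.mk' (N.subgroupOf W) (g ^ p ^ k) = 1 := by
        rw [map_pow]
        exact congrArg Subtype.val hk
      exact ⟨k, (QuotientGroup.eq_one_iff (N := N.subgroupOf W) (g ^ p ^ k)).1 e⟩
    · rw [Subgroup.relIndex, Subgroup.subgroupOf, Subgroup.comap_map_eq_self_of_injective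
        W.subtype_injective, Subgroup.index_comap_of_surjective _ (QuotientGroup.mk'_surjective _)]
      exact S.not_dvd_index
  · have := nrm_WIND hn
    have : Finite (W ⧸ K.subgroupOf W) := Nat.finite_of_card_ne_zero hi
    obtain ⟨m, hm⟩ := IsPGroup.iff_card.1 (pg_WIND (p := p) fun g hg => ⟨n, hk g hg⟩)
    have e1 : H.subgroupOf W ⊔ K.subgroupOf W = ⊤ := by
      rw [← Subgroup.index_eq_one]
      refine Nat.eq_one_of_dvd_coprimes (((Nat.Prime.coprime_iff_not_dvd hp.out).2 hd).pow_left m)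
        ?_ (Subgroup.index_dvd_of_le le_sup_left)
      rw [← hm]
      exact Subgroup.index_dvd_of_le le_sup_right
    have e2 : K.relIndex H = K.relIndex W := by
      rw [← Subgroup.relIndex_subgroupOf hW, ← Subgroup.relIndex_sup_right, e1,
        Subgroup.relIndex_top_right]
      rfl
    have e3 := Subgroup.relIndex_mul_relIndex (H ⊓ K) (W ⊓ K) W (inf_le_inf_right K hW) inf_le_left
    have e4 := Subgroup.relIndex_mul_relIndex (H ⊓ K) H W inf_le_left hW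
    rw [Subgroup.inf_relIndex_left] at e3 e4
    rw [e2, ← e3, mul_comm] at e4
    exact (Nat.eq_of_mul_eq_mul_right (Nat.pos_of_ne_zero hi) e4).symm
  · obtain ⟨M, h1, h2⟩ := exists_ON (h.mem_nhds N.one_mem)
    refine ⟨⨅ u : U, N.comap (MulAut.conj (u : GQ)).toMonoidHom, Subgroup.isOpen_mono
      (fun x hx => Subgroup.mem_iInf.2 fun u => h2 _ (h1.1.conj_mem x hx u)) h1.2,
      fun x hx => by simpa using Subgroup.mem_iInf.1 hx 1,
      fun g hg x hx => Subgroup.mem_iInf.2 fun u => ?_,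
      fun x hx => Subgroup.mem_iInf.2 fun u => hx u u.2⟩
    simpa [mul_assoc] using Subgroup.mem_iInf.1 hx (u * ⟨g, hg⟩)

end Pool.Agent.MP_3e91a1_nt
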