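import Pool.Agent.MP_3e91a1_nt.St

set_option autoImplicit false

open NumberField IsDedekindDomain Module Filter Topology Finset Polynomial
open scoped Classical

namespace Pool.Agent.MP_3e91a1_nt

open MP_e23604_nt MP_e23604_nt.B MP_e23604_nt.R MP_f3cd89_nt

/-- Hilbert's theorem 90 for locally constant cocycles -/
theorem h90_WINF {H : Subgroup GQ} {φ : GQ → Qb} (h : Lc H φ) (h0 : ∀ g ∈ H, φ g ≠ 0)
    (hc : ∀ g ∈ H, ∀ h ∈ H, φ (g * h) = φ g * g (φ h)) : ∃ y, y ≠ 0 ∧ ∀ g ∈ H, g y = φ g * y := by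
  obtain ⟨M, h1, h2⟩ := h.inf1 h0
  obtain ⟨y, h3, -, h4⟩ := H90_ok.1 M H φ h1 h2 hc
  exact ⟨y, h3, h4⟩

theorem INF_pf : INF_st := by
  rintro N H c hNH hn hc ⟨i1, i2, i3⟩ ⟨M, β, hM, ⟨b1, b2⟩, hb⟩
  have o : (1 : GQ) ∈ H := H.one_mem
  have c0 : c 1 1 ≠ 0 := (i3 1 o 1 o).1
  have f0 : Fix N (c 1 1) := (i3 1 o 1 o).2
  have r1 : ∀ g ∈ H, ∀ n ∈ N, c g n = g (c 1 1) := fun g hg n hn' => by
    have e := hc g hg 1 o 1 o
    rw [mul_one, mul_one] at e
    rw [← i1 g hg 1 o n (hNH hn') (by simpa using hn')]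
    exact mul_right_cancel₀ (i3 g hg 1 o).1 e
  have r2 : ∀ g ∈ H, ∀ n ∈ N, c n g = c 1 1 := fun g hg n hn' => by
    have e := hc 1 o 1 o g hg
    rw [mul_one, one_mul, AlgEquiv.one_apply] at e
    have e' : c 1 g = c n g := i2 g hg 1 o n (hNH hn') (by simpa using hn')
    rw [← e']
    exact (mul_right_cancel₀ (i3 1 o g hg).1 e).symm
  obtain ⟨y, y0, hy⟩ := h90_WINF (H := N) (φ := fun n => β n / c 1 1)
    ((Lc.mono ⟨M, hM, b1⟩ hNH).map fun t => t / c 1 1)
    (fun n hn' => div_ne_zero (b2 n (hNH hn')).1 c0) fun n h1 m h2 => by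
      have e := hb n (hNH h1) m (hNH h2)
      rw [r2 m (hNH h2) n h1] at e
      rw [map_div₀, f0 n h1]
      field_simp
      linear_combination -e
  have g0 : ∀ g : GQ, g y ≠ 0 := fun g => (_root_.map_ne_zero g).2 y0
  set β' : GQ → Qb := fun g => β g * y / g y with hβ'
  have n0 : ∀ g ∈ H, β' g ≠ 0 := fun g hg => div_ne_zero (mul_ne_zero (b2 g hg).1 y0) (g0 g)
  have bd : Bd H c β' := fun g hg h hh => by
    have e := hb g hg h hh
    have e1 := g0 g
    have e2 := g0 (g * h)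
    simp only [hβ', map_div₀, map_mul]
    rw [← AlgEquiv.mul_apply g h y]
    field_simp
    linear_combination e
  have on : ∀ n ∈ N, β' n = c 1 1 := fun n hn' => by
    have e := (b2 n (hNH hn')).1
    simp only [hβ', hy n hn']
    field_simp
  have cs : Cst N H β' := fun g hg h hh e => by
    have e1 := bd g hg _ (hNH e)
    rw [on _ e, r1 g hg _ e, mul_inv_cancel_left, mul_comm] at e1
    exact mul_left_cancel₀ ((_root_.map_ne_zero g).2 c0) e1
  refine ⟨β', ⟨cs, fun g hg => ⟨n0 g hg, fun n hn' => ?_⟩⟩, bd⟩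
  have e1 := bd n (hNH hn') g hg
  have e2 : g⁻¹ * (n * g) ∈ N := by simpa [mul_assoc] using hn g⁻¹ (H.inv_mem hg) n hn'
  rw [on n hn', r2 g hg n hn', ← cs g hg _ (H.mul_mem (hNH hn') hg) e2] at e1
  exact mul_left_cancel₀ c0 e1

theorem add_WINF {p : ℕ} [Fact p.Prime] {ζ : Qb} (h : IsPrimitiveRoot ζ p) (a b : ZMod p) :
    ζ ^ (a + b).val = ζ ^ a.val * ζ ^ b.val := by
  rw [ZMod.val_add, ← pow_add]
  conv_rhs => rw [← Nat.div_add_mod (a.val + b.val) p, pow_add, pow_mul, h.pow_eq_one, one_pow,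
    one_mul]

theorem KUQ_pf : KUQ_st := by
  intro p _
  have hp : p.Prime := Fact.out
  refine ⟨fun H D χ s x hs hχ hx h1 => ?_, fun ζ D hζ hD => ⟨fun χ ha hχ => ?_,
    fun α h0 hα => ?_⟩⟩
  · obtain ⟨-, hb, -⟩ := (NRM_ok p H D χ s hp.two_le hs.add hs.ker hs.mem hs.one).1 x hx
    have h2 : ∏ i ∈ range p, (s ^ i) x = 1 := h1
    have x0 : x ≠ 0 := by
      rintro rfl
      exact zero_ne_one ((Finset.prod_eq_zero (f := fun i => (s ^ i) (0 : Qb))
        (Finset.mem_range.2 hp.pos) (map_zero _)).symm.trans h2)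
    obtain ⟨y, y0, hy⟩ := h90_WINF (H := D) (φ := fun g => ∏ i ∈ range (χ g).val, (s ^ i) x)
      (hχ.map fun t => ∏ i ∈ range t.val, (s ^ i) x)
      (fun g _ => Finset.prod_ne_zero_iff.2 fun i _ => (_root_.map_ne_zero _).2 x0) fun g hg h hh => by
        have e := hb g hg h hh
        simp only [h2, one_pow, one_mul] at e
        exact e.symm
    refine ⟨y, y0, fun g hg => ?_, ?_⟩
    · rw [hy g ((hs.ker g).1 hg).1, ((hs.ker g).1 hg).2]
      simp
    · rw [hy s hs.mem, hs.one, ZMod.val_one]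
      simp
  · exact h90_WINF (H := D) (φ := fun g => ζ ^ (χ g).val) (hχ.map fun t => ζ ^ t.val)
      (fun g _ => pow_ne_zero _ (hζ.ne_zero hp.ne_zero)) fun g hg h hh => by
        simp only [ha g hg h hh, add_WINF hζ, map_pow, hD g hg]
  · let F : Qb → ZMod p := fun t => Classical.epsilon fun i : ZMod p => t = ζ ^ i.val * α
    have h1 : ∀ g ∈ D, g α = ζ ^ (F (g α)).val * α := fun g hg => by
      have e : (g α / α) ^ p = 1 := by
        rw [div_pow, ← map_pow, hα g hg, div_self (pow_ne_zero _ h0)]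
      obtain ⟨i, hi, e'⟩ := hζ.eq_pow_of_pow_eq_one e
      refine Classical.epsilon_spec (p := fun i : ZMod p => g α = ζ ^ i.val * α) ⟨i, ?_⟩
      rw [ZMod.val_cast_of_lt hi, e', div_mul_cancel₀ _ h0]
    refine ⟨fun g => F (g α), fun g hg h hh => ?_, (Lc.apply D α).map F, h1⟩
    have e : ζ ^ (F ((g * h) α)).val * α = ζ ^ (F (g α) + F (h α)).val * α := by
      rw [← h1 _ (D.mul_mem hg hh), AlgEquiv.mul_apply, add_WINF hζ]
      conv_lhs => rw [h1 h hh, map_mul, map_pow, hD g hg, h1 g hg]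
      ring
    exact ZMod.val_injective p
      (hζ.pow_inj (ZMod.val_lt _) (ZMod.val_lt _) (mul_right_cancel₀ h0 e))

end Pool.Agent.MP_3e91a1_nt
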