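import Pool.Agent.MP_3e91a1_nt.St

/-! Elements near one are powers, kernels of characters and the layers of a tower. -/

set_option autoImplicit false

open NumberField IsDedekindDomain Module Filter Topology Finset Polynomial
open scoped Classical

namespace Pool.Agent.MP_3e91a1_nt

open MP_e23604_nt MP_e23604_nt.B MP_e23604_nt.R MP_f3cd89_nt

lemma root_WL0 {F : Type} [Field F] {v : AbsoluteValue F ℝ} (hv : IsNonarchimedean v) {p : ℕ}
    (hp : p.Prime) {ω : F} (h : ω ^ p = 1) (h1 : ω ≠ 1) : v p ≤ v (ω - 1) := by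
  have hω : IsPrimitiveRoot ω p := by
    have := Fact.mk hp
    have := IsPrimitiveRoot.orderOf ω
    rwa [orderOf_eq_prime h h1] at this
  have hv1 : v ω = 1 := BValA_root hp.ne_zero h
  obtain ⟨n, rfl⟩ : ∃ n, p = n + 1 + 1 := ⟨p - 2, by have := hp.two_le; omega⟩
  have e := congrArg v hω.prod_one_sub_pow_eq_order
  rw [map_prod, Finset.prod_range_succ', zero_add, pow_one, v.map_sub 1 ω] at e
  rw [Nat.cast_succ, ← e]
  refine mul_le_of_le_one_left (v.nonneg _) (Finset.prod_le_one (fun _ _ => v.nonneg _) ?_)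
  intro k _
  rw [sub_eq_add_neg]
  refine (hv _ _).trans (max_le (by simp) ?_)
  rw [v.map_neg, map_pow, hv1, one_pow]

theorem L0_pf : L0_st := by
  intro p l _ γ D x hp _ hD hx h
  have hv := nv_na l γ
  set v := nv l γ with hvd
  have : NeZero p := ⟨hp.ne_zero⟩
  obtain ⟨ζ, hζ⟩ := HasEnoughRootsOfUnity.exists_primitiveRoot Qb p
  obtain ⟨y₀, hy₀⟩ := IsAlgClosed.exists_pow_nat_eq x hp.pos
  obtain ⟨y, hy, hy1⟩ : ∃ y : Qb, y ^ p = x ∧ v (y - 1) < v p := by
    by_contra hc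
    have e := congrArg (fun f => v (eval 1 f)) (X_pow_sub_C_eq_prod hζ hp.pos hy₀)
    simp only [eval_sub, eval_pow, eval_X, eval_C, one_pow, eval_prod, map_prod] at e
    rw [v.map_sub] at e
    refine absurd h (not_lt.2 ?_)
    rw [e, ← Finset.card_range p, ← Finset.prod_const, Finset.card_range]
    refine Finset.prod_le_prod (fun _ _ => v.nonneg _) fun i _ => ?_
    rw [v.map_sub]
    refine not_lt.1 fun hlt => hc ⟨ζ ^ i * y₀, ?_, hlt⟩
    rw [mul_pow, ← pow_mul, mul_comm i, pow_mul, hζ.pow_eq_one, one_pow, one_mul, hy₀]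
  have hp1 : v p ≤ 1 := hv.apply_natCast_le_one
  have hvy : 1 ≤ v y := by
    by_contra hc
    have h2 := hv y (-(y - 1))
    rw [v.map_neg, show y + -(y - 1) = 1 by ring, map_one] at h2
    exact absurd h2 (not_le.2 (max_lt (not_le.1 hc) (hy1.trans_le hp1)))
  have hy0 : y ≠ 0 := by
    rintro rfl
    rw [map_zero] at hvy
    exact absurd hvy (by norm_num)
  refine ⟨y, hy, fun g hg => ?_⟩
  by_contra hne
  have h2 : (g y / y) ^ p = 1 := by
    rw [div_pow, ← map_pow, hy, hx g hg, div_self]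
    rw [← hy]
    exact pow_ne_zero _ hy0
  have h3 := root_WL0 hv hp h2 fun e => hne ((div_eq_one_iff_eq hy0).1 e)
  have h4 := hv (g (y - 1)) (-(y - 1))
  rw [v.map_neg, hD hg, max_self, map_sub g, map_one g,
    show g y - 1 + -(y - 1) = (g y / y - 1) * y by field_simp; ring, map_mul] at h4
  exact absurd ((h3.trans (le_mul_of_one_le_right (v.nonneg _) hvy)).trans h4) (not_le.2 hy1)

section

variable {A : Type} [AddGroup A] {U : Subgroup GQ} {κ : GQ → A}

lemma one_WL0 (h : Adt U κ) : κ 1 = 0 := by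
  have := h 1 U.one_mem 1 U.one_mem
  rw [mul_one] at this
  exact left_eq_add.1 this

lemma inv_WL0 (h : Adt U κ) {g : GQ} (hg : g ∈ U) : κ g⁻¹ = -κ g := by
  have := h g⁻¹ (U.inv_mem hg) g hg
  rw [inv_mul_cancel, one_WL0 h] at this
  exact eq_neg_of_add_eq_zero_left this.symm

lemma pow_WL0 (h : Adt U κ) {g : GQ} (hg : g ∈ U) (i : ℕ) : κ (g ^ i) = i • κ g := by
  induction i with
  | zero => rw [pow_zero, one_WL0 h, zero_nsmul]
  | succ i ih => rw [pow_succ, h _ (U.pow_mem hg i) g hg, ih, succ_nsmul]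

end

theorem KER_pf : KER_st := by
  intro p H' χ h
  refine ⟨⟨⟨⟨{g | g ∈ H' ∧ χ g = 0}, ?_⟩, H'.one_mem, one_WL0 h⟩, ?_⟩, fun g => Iff.rfl⟩
  · rintro a b ⟨a1, a2⟩ ⟨b1, b2⟩
    exact ⟨H'.mul_mem a1 b1, by rw [h a a1 b b1, a2, b2, add_zero]⟩
  · rintro a ⟨a1, a2⟩
    exact ⟨H'.inv_mem a1, by rw [inv_WL0 h a1, a2, neg_zero]⟩

theorem ZPL_pf : ZPL_st := by
  intro p hp U κ K h
  have hp0 : (p : ℤ_[p]) ≠ 0 := Nat.cast_ne_zero.2 hp.out.ne_zero
  refine ⟨?_, fun m n hmn g hg => ?_, fun n g hg a ha => ?_, fun n => ?_, fun n g hg => ?_,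
    fun n M hM g hg hgM => ?_⟩
  · ext g
    simp [h.mem]
  · rw [h.mem] at hg ⊢
    exact ⟨hg.1, (pow_dvd_pow _ hmn).trans hg.2⟩
  · rw [h.mem] at ha ⊢
    refine ⟨U.mul_mem (U.mul_mem hg ha.1) (U.inv_mem hg), ?_⟩
    rw [h.add _ (U.mul_mem hg ha.1) _ (U.inv_mem hg), h.add _ hg _ ha.1, inv_WL0 h.add hg,
      add_neg_cancel_comm]
    exact ha.2
  · have hq : ∀ g, ∃ q : ℤ_[p], g ∈ K n → κ g = (p : ℤ_[p]) ^ n * q := fun g => by
      by_cases hg : g ∈ K n
      · obtain ⟨q, e⟩ := ((h.mem n g).1 hg).2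
        exact ⟨q, fun _ => e⟩
      · exact ⟨0, fun hg' => absurd hg' hg⟩
    choose q hq using hq
    have hz : ∀ z : ℤ_[p], PadicInt.toZMod z = 0 ↔ (p : ℤ_[p]) ∣ z := fun z => by
      rw [← RingHom.mem_ker, PadicInt.ker_toZMod, PadicInt.maximalIdeal_eq_span_p,
        Ideal.mem_span_singleton]
    obtain ⟨s, hs, e⟩ := h.sur ((p : ℤ_[p]) ^ n)
    have hs' : s ∈ K n := (h.mem n s).2 ⟨hs, e ▸ dvd_rfl⟩
    refine ⟨fun g => PadicInt.toZMod (q g), s, fun a ha b hb => ?_, fun g => ?_, hs', ?_⟩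
    · have e1 := h.add a ((h.mem n a).1 ha).1 b ((h.mem n b).1 hb).1
      rw [hq a ha, hq b hb, hq _ ((K n).mul_mem ha hb), ← mul_add] at e1
      simp only [mul_left_cancel₀ (pow_ne_zero n hp0) e1, map_add]
    · rw [hz]
      constructor
      · intro hg
        obtain ⟨g1, g2⟩ := (h.mem _ g).1 hg
        have hg' : g ∈ K n := (h.mem n g).2 ⟨g1, (pow_dvd_pow _ (Nat.le_succ n)).trans g2⟩
        rw [hq g hg', pow_succ, mul_dvd_mul_iff_left (pow_ne_zero n hp0)] at g2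
        exact ⟨hg', g2⟩
      · rintro ⟨g1, g2⟩
        refine (h.mem _ g).2 ⟨((h.mem n g).1 g1).1, ?_⟩
        rw [hq g g1, pow_succ]
        exact mul_dvd_mul_left _ g2
    · have e1 := hq s hs'
      rw [e] at e1
      rw [← mul_left_cancel₀ (pow_ne_zero n hp0) ((mul_one _).trans e1), map_one]
  · refine (h.mem n _).2 ⟨U.pow_mem hg _, ?_⟩
    rw [pow_WL0 h.add hg, nsmul_eq_mul, Nat.cast_pow]
    exact dvd_mul_right _ _
  · obtain ⟨a, u, hu, rfl⟩ := Nat.exists_eq_pow_mul_and_not_dvd hM p hp.out.ne_one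
    have ha : a ≤ p ^ a * u := (Nat.lt_pow_self hp.out.one_lt).le.trans
      (Nat.le_mul_of_pos_right _ (Nat.pos_of_ne_zero fun e => hu (e ▸ dvd_zero p)))
    have h2 := (pow_dvd_pow _ (Nat.add_le_add_left ha n)).trans ((h.mem _ _).1 hgM).2
    have hu' : IsUnit (u : ℤ_[p]) := PadicInt.isUnit_iff.2
      (PadicInt.norm_natCast_eq_one_iff.2 ((Nat.Prime.coprime_iff_not_dvd hp.out).2 hu))
    rw [pow_WL0 h.add hg, nsmul_eq_mul, Nat.cast_mul, Nat.cast_pow, pow_add, mul_comm, mul_assoc,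
      mul_dvd_mul_iff_left (pow_ne_zero a hp0), hu'.dvd_mul_left] at h2
    exact (h.mem n g).2 ⟨hg, h2⟩

end Pool.Agent.MP_3e91a1_nt
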