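import Pool.Agent.MP_3e91a1_nt.St

set_option autoImplicit false

open NumberField IsDedekindDomain Module Filter Topology Finset Polynomial
open scoped Classical

namespace Pool.Agent.MP_3e91a1_nt

open MP_e23604_nt MP_e23604_nt.B MP_e23604_nt.R MP_f3cd89_nt

theorem ind_WL1 {L : IntermediateField ℚ Qb} {s : GQ} {σ : L ≃ₐ[ℚ] L} (h : Ind s σ) (i : ℕ) :
    Ind (s ^ i) (σ ^ i) := by
  induction i with
  | zero => exact fun _ => rfl
  | succ i ih => exact fun x => by rw [pow_succ, pow_succ, AlgEquiv.mul_apply, ih, h]; rfl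

theorem nm_WL1 {L : IntermediateField ℚ Qb} {s : GQ} {σ : L ≃ₐ[ℚ] L} (h : Ind s σ) (p : ℕ)
    (y : L) : ((Nm p σ y : L) : Qb) = Nm p s (y : Qb) := by
  rw [Nm, Nm, SubmonoidClass.coe_finsetProd]
  exact prod_congr rfl fun i _ => ind_WL1 h i y

theorem L1_pf (hLIX : LIX_st) (hL0 : L0_st) (hAPX : APX_st) (hPLC : PLC_st) (hRES : RES_st) (hSB : SB_st) : L1_st := by
  intro p l hp _ γ H D χ s hp2 ⟨hDG, N₁, hN₁, hle⟩ ⟨N₂, hN₂, hc⟩ hS
  obtain ⟨b1, b2, b3, b4, -, -, -, -, b9, -, b11, -, b13, b14, b15, -⟩ := hSB p H D χ s hS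
  have hN := hN₁.inf hN₂
  have := hN.1
  set N := N₁ ⊓ N₂
  have kH : ∀ g ∈ D, g ∈ N → g ∈ H := fun g hg hn => (hS.ker g).2 ⟨hg, by
    rw [← hc 1 D.one_mem g hg (by simpa using hn.2)]
    exact ((hS.ker 1).1 H.one_mem).2⟩
  have eD : Dec (nv l γ) ⊓ (D ⊔ N) ≤ D := by
    rintro g ⟨h1, h2⟩
    obtain ⟨h, hh, n, hn, rfl⟩ := Subgroup.mem_sup_of_normal_right.1 h2
    exact D.mul_mem hh (hle ⟨(Subgroup.mul_mem_cancel_left _ (hDG hh)).1 h1, hn.1⟩)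
  have eH : Dec (nv l γ) ⊓ (H ⊔ N) = H := by
    refine le_antisymm ?_ (le_inf (b1.trans hDG) le_sup_left)
    rintro g ⟨h1, h2⟩
    obtain ⟨h, hh, n, hn, rfl⟩ := Subgroup.mem_sup_of_normal_right.1 h2
    exact H.mul_mem hh (kH n (hle ⟨(Subgroup.mul_mem_cancel_left _ (hDG (b1 hh))).1 h1, hn.1⟩) hn)
  have cj : ∀ g ∈ D, ∀ h ∈ H ⊔ N, g * h * g⁻¹ ∈ H ⊔ N := by
    intro g hg h hh
    obtain ⟨k, hk, n, hn, rfl⟩ := Subgroup.mem_sup_of_normal_right.1 hh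
    exact Subgroup.mem_sup_of_normal_right.2 ⟨_, b2 g hg k hk, _, this.conj_mem n hn g, by group⟩
  have hW : IsOpen ((H ⊔ N : Subgroup GQ) : Set GQ) := Subgroup.isOpen_mono le_sup_right hN.2
  obtain ⟨L, _, hL, r2, r3, -⟩ := hRES _ hW
  obtain ⟨σ, hσ⟩ := r3 s fun h => ⟨cj s hS.mem h, fun e => by
    simpa [mul_assoc] using cj _ (D.inv_mem hS.mem) _ e⟩
  obtain ⟨w, t, hw⟩ := (hPLC L).1 l γ
  obtain ⟨-, -, -, c4, -, c6⟩ := (hPLC L).2 w l γ t hw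
  have fH : ∀ y : L, Fix H (y : Qb) := fun y g hg => (hL y).1 y.2 g (Subgroup.mem_sup_left hg)
  obtain ⟨x1, n₂, x₂, x2, x3, x4⟩ := hLIX L σ p w hp.out
    (fun e => b3 (eH.le ⟨hDG hS.mem, r2 s fun x hx => by rw [← hσ ⟨x, hx⟩, e]; rfl⟩))
    (AlgEquiv.ext fun x => Subtype.ext ((ind_WL1 hσ p x).trans (fH x _ (b4 s hS.mem))))
    ((c4 s σ hσ).2.1 (hDG hS.mem))
  have fD : ∀ y : L, σ y = y → Fix D (y : Qb) := fun y e => b9 _ (fH y) (by rw [← hσ, e])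
  refine ⟨fun x y hx hy fx fy => ?_, x₂, by simpa using x2, fD _ x3, fun h =>
    x4 (hAPX p _ L w l γ s t σ x₂ hW hL hw (hDG hS.mem) hσ (by rwa [eH]) n₂)⟩
  have c0 : 0 < nv l γ p ^ p := pow_pos ((nv l γ).pos (Nat.cast_ne_zero.2 hp.out.ne_zero)) _
  have c1 : nv l γ p ^ p ≤ 1 :=
    pow_le_one₀ ((nv l γ).nonneg _) (v_int (nv_na l γ) (isIntegral_natCast p))
  have near : ∀ a, Fix D a → nv l γ (a - 1) < nv l γ p ^ p → IsN p H s a := by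
    intro a fa h
    obtain ⟨z, rfl, fz⟩ := hL0 p l γ D a hp.out hp2 hDG fa h
    refine (b15 z ?_ fz).1
    rintro rfl
    rw [zero_pow hp.out.ne_zero, zero_sub, AbsoluteValue.map_neg, map_one] at h
    linarith
  have den : ∀ x, x ≠ 0 → Fix D x → ∃ x₀ : L, x₀ ≠ 0 ∧ σ x₀ = x₀ ∧ IsN p H s (x₀ / x) := by
    intro x hx fx
    have v0 := (nv l γ).pos hx
    obtain ⟨x₀, f0, h⟩ := DEN_ok l γ (D ⊔ N) x _ (Subgroup.isOpen_mono le_sup_right hN.2)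
      (fun g hg => fx g (eD hg)) (mul_pos c0 v0)
    have k : IsN p H s (x₀ / x) := near _
      (fun g hg => by rw [map_div₀, fx g hg, f0 g (Subgroup.mem_sup_left hg)]) (by
        rwa [div_sub_one hx, map_div₀, div_lt_iff₀ v0, AbsoluteValue.map_sub])
    refine ⟨⟨x₀, (hL _).2 fun g hg => f0 g (sup_le_sup_right b1 N hg)⟩, fun e => (b14 _ k).1 ?_,
      Subtype.ext ((hσ _).trans (f0 s (Subgroup.mem_sup_left hS.mem))), k⟩
    rw [show x₀ = 0 from congrArg Subtype.val e, zero_div]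
  obtain ⟨n, hn⟩ := exists_pow_lt_of_lt_one c0 (inv_lt_one_of_one_lt₀ hw.1)
  have apx : ∀ a : L, σ a = a → Apx p σ w n a → IsN p H s (a : Qb) := by
    rintro a ha ⟨u, hu, h⟩
    have k : IsN p H s (Nm p s (u : Qb)) := ⟨u, by simpa using hu, fH u, rfl⟩
    have h1 := (c6 n _).1 h
    rw [IntermediateField.coe_div, nm_WL1 hσ, zpow_neg, zpow_natCast, ← inv_pow] at h1
    have h2 := near _ (fun g hg => by rw [map_div₀, fD a ha g hg, (b14 _ k).2.1 g hg])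
      (h1.trans_lt hn)
    have h3 := (b13 _ _ h2 k).1
    rwa [div_mul_cancel₀ _ (b14 _ k).1] at h3
  obtain ⟨x₀, p1, p2, p3⟩ := den x hx fx
  obtain ⟨y₀, q1, q2, q3⟩ := den y hy fy
  have p0 : (x₀ : Qb) ≠ 0 := by simpa using p1
  have q0 : (y₀ : Qb) ≠ 0 := by simpa using q1
  refine (x1 n x₀ y₀ p1 q1 p2 q2).imp (fun h => ?_) fun ⟨i, h⟩ => ⟨i, ?_⟩
  · have k := (b13 _ _ (apx _ p2 h) p3).2
    rwa [div_div_cancel₀ p0] at k
  · have k := (b13 _ _ (b13 _ _ (apx _ (by rw [map_div₀, map_pow, p2, q2]) h)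
      ((b14 _ p3).2.2 i)).1 q3).2
    rwa [IntermediateField.coe_div, IntermediateField.coe_pow,
      show (y₀ : Qb) / x₀ ^ i * (x₀ / x) ^ i / (y₀ / y) = y / x ^ i by
        rw [div_pow]; field_simp] at k

end Pool.Agent.MP_3e91a1_nt
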