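import Pool.Agent.MP_3e91a1_nt.St

set_option autoImplicit false

open NumberField IsDedekindDomain Module Filter Topology Finset Polynomial
open scoped Classical

namespace Pool.Agent.MP_3e91a1_nt

open MP_e23604_nt MP_e23604_nt.B MP_e23604_nt.R MP_f3cd89_nt

theorem core_WLIX (hVL : VL_st) (hAH : AH_st) (hHQ : HQ_st) (E F : Type) [Field E] [NumberField E]
    [Field F] [NumberField F] [Algebra E F] [IsGalois E F] (σ : F ≃ₐ[E] F) (p : ℕ) (w : Pr F)
    (hp : p.Prime) (ho : orderOf σ = p) (hr : finrank E F = p) (hz : ∀ g, g ∈ Subgroup.zpowers σ)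
    (hw : gact σ w = w) :
    (∀ (n : ℕ) (x y : F), x ≠ 0 → y ≠ 0 → σ x = x → σ y = y →
      Apx p σ w n x ∨ ∃ i : ℕ, Apx p σ w n (y / x ^ i)) ∧
    ∃ (n : ℕ) (x : F), x ≠ 0 ∧ σ x = x ∧ ¬ Apx p σ w n x := by
  have := Fact.mk hp
  have hσ : σ ^ p = 1 := ho ▸ pow_orderOf_eq_one σ
  have hS : above F {w.under (𝓞 E)} = {w} := by
    ext v
    rw [mem_above, mem_singleton, mem_singleton]
    refine ⟨fun h => ?_, fun h => by rw [h]⟩
    obtain ⟨g, rfl⟩ := (fb E F (F ≃ₐ[E] F)).2.1 w v h.symm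
    obtain ⟨k, rfl⟩ := (mem_powers_iff_mem_zpowers).2 (hz g)
    induction k with
    | zero => exact gact_one w
    | succ k ih =>
      beta_reduce at *
      rw [pow_succ, gact_mul, hw] at *
      exact ih h
  obtain ⟨V, N, -, v1, v2, v3, v4, v5⟩ := hVL E F σ {w.under (𝓞 E)} (singleton_nonempty _) hz
  rw [hS] at v2 v3 v5
  rw [hr] at v4 v5
  let u : Additive Fˣ → F := fun a => ((Additive.toMul a : Fˣ) : F)
  have u0 : ∀ a, u a ≠ 0 := fun a => Units.ne_zero _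
  have ui : ∀ a b, u a = u b → a = b := fun a b h => Additive.toMul.injective (Units.ext h)
  have us : ∀ x : F, x ≠ 0 → ∃ a, u a = x := fun x hx => ⟨Additive.ofMul (Units.mk0 x hx), rfl⟩
  have ua : ∀ a b, u (a + b) = u a * u b := fun a b => rfl
  have ub : ∀ a b, u (a - b) = u a / u b := fun a b => Units.val_div_eq_div_val _ _
  have un : ∀ (i : ℕ) a, u (i • a) = u a ^ i := fun i a => Units.val_pow_eq_pow_val _ _
  have uσ : ∀ a, u (sA σ a) = σ (u a) := fun a => rfl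
  have uN : ∀ a, u (nmH (sA σ) p a) = Nm p σ (u a) := fun a => VlatX.coe_nmH σ p a
  have fN : ∀ a, sA σ (nmH (sA σ) p a) = nmH (sA σ) p a := fun a => ui _ _ (by
    rw [uσ, uN, Nm, map_prod]
    have e := prod_range_succ' (fun j => (σ ^ j) (u a)) p
    rw [prod_range_succ, hσ, pow_zero] at e
    rw [mul_right_cancel₀ (u0 a) e]
    exact prod_congr rfl fun j _ => by rw [pow_succ', AlgEquiv.mul_apply])
  let o : Additive Fˣ →+ ℤ := AddMonoidHom.mk' (fun a => ord w (u a)) fun a b => by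
    rw [ua, ord_mul w (u0 a) (u0 b)]
  have n0 : nrm w ≠ 0 := fun h => w.ne_bot (Ideal.absNorm_eq_zero_iff.1 h)
  obtain ⟨a₀, ha₀⟩ := us (nrm w) (Nat.cast_ne_zero.2 n0)
  have hK : ∀ a, a ∈ AddMonoidHom.ker (sA σ - 1 : AddMonoid.End (Additive Fˣ)) ↔ sA σ a = a :=
    fun a => sub_eq_zero
  have key := hHQ (Additive Fˣ) (sA σ) p V o a₀ hp.pos ?_ v1 (fun a ha => ?_) ?_ ?_ ?_ v4
    fun a ha => ?_
  rotate_left
  · refine AddMonoidHom.ext fun a => ui _ _ ((VlatX.coe_sA_pow σ p a).trans ?_)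
    rw [hσ, one_smul]
    rfl
  · exact (val_eq_one_iff w (u0 a)).1 (val_one_of _ ((v2 a ha w (mem_singleton_self w)).trans_lt
      (by rw [← WithZero.exp_zero, WithZero.exp_lt_exp]; norm_num)))
  · obtain ⟨β, _, r, hβ⟩ := NtbX.res_fin {w} N
    have h1 : ∀ a : o.ker, ∀ v ∈ ({w} : Finset (Pr F)), v.valuation F (u a) = 1 := fun a v hv => by
      rw [mem_singleton.1 hv]
      exact (val_eq_one_iff w (u0 a)).2 a.2
    have : Finite (o.ker ⧸ V.addSubgroupOf o.ker) :=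
      Finite.of_injective (fun q => r (u q.out.1)) fun q q' h => by
        rw [← q.out_eq, ← q'.out_eq]
        refine QuotientAddGroup.eq_iff_sub_mem.2 (v3 _ ?_)
        have h2 := hβ _ _ (h1 _) (h1 _) h
        rw [← ub] at h2
        exact h2
    exact AddSubgroup.index_ne_zero_of_finite
  · exact ui _ _ (by rw [uσ, ha₀, map_natCast])
  · change ord w (u a₀) ≠ 0
    rw [ha₀, ← map_natCast (algebraMap (𝓞 F) F)]
    exact fun h => (ord_eq_zero_iff w (Nat.cast_ne_zero.2 n0)).1 h (Ideal.absNorm_mem _)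
  · obtain ⟨n', hn'⟩ := hAH E F σ p w hp.pos ho N
    obtain ⟨b, b1, b2⟩ := v5 n' _ ha (fN a)
    rw [← map_sub] at b2
    obtain ⟨c, c0, hc⟩ := hn' _ (u0 (a - b)) (uN _ ▸ b2)
    obtain ⟨c, rfl⟩ := us c c0
    rw [← uσ, ← ua, ← ub] at hc
    refine ⟨-c, ?_⟩
    rw [map_neg, show a - (-sA σ c - -c) = a - b + sA σ c - c + b by abel]
    exact add_mem (v3 _ hc) b1
  have r1 : ∀ a, sA σ a = a → a ∈ AddMonoidHom.range (nmH (sA σ) p) ⊔ V → ∀ n, Apx p σ w n (u a) :=
    fun a ha h n => by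
      obtain ⟨_, ⟨y, rfl⟩, v, hv, rfl⟩ := AddSubgroup.mem_sup.1 h
      rw [map_add] at ha
      obtain ⟨b, -, hb⟩ := v5 n v hv (add_left_cancel ((congrArg (· + _) (fN y)).symm.trans ha))
      refine ⟨u (y + b), u0 _, ?_⟩
      rw [← uN, ← ub, map_add]
      exact (add_sub_add_left_eq_sub v _ _).symm ▸ hb
  refine ⟨fun n x y hx hy sx sy => ?_, N, ?_⟩
  · obtain ⟨x, rfl⟩ := us x hx
    obtain ⟨y, rfl⟩ := us y hy
    have kx := ui (sA σ x) x sx
    have ky := ui (sA σ y) y sy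
    by_cases h : x ∈ AddMonoidHom.range (nmH (sA σ) p) ⊔ V
    · exact Or.inl (r1 x kx h n)
    obtain ⟨i, hi⟩ := mem_multiples_of_prime_card (G := _ ⧸ AddSubgroup.addSubgroupOf _ _) key
      (g := QuotientAddGroup.mk ⟨x, (hK x).2 kx⟩) (g' := QuotientAddGroup.mk ⟨y, (hK y).2 ky⟩)
      fun e => h (AddSubgroup.mem_addSubgroupOf.1 ((QuotientAddGroup.eq_zero_iff _).1 e))
    refine Or.inr ⟨i, ?_⟩
    rw [← un, ← ub]
    refine r1 _ (by rw [map_sub, map_nsmul, kx, ky]) ?_ n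
    beta_reduce at hi
    rw [← QuotientAddGroup.mk_nsmul] at hi
    have h2 := QuotientAddGroup.eq_iff_sub_mem.1 hi.symm
    exact h2
  · by_contra hc
    refine hp.one_lt.ne' (key.symm.trans (AddSubgroup.relIndex_eq_one.2 fun a ha => ?_))
    obtain ⟨y, y0, hy⟩ : Apx p σ w N (u a) := by
      by_contra h
      exact hc ⟨u a, u0 a, congrArg u ((hK a).1 ha), h⟩
    obtain ⟨y, rfl⟩ := us y y0
    rw [← uN, ← ub] at hy
    exact AddSubgroup.mem_sup.2 ⟨_, ⟨y, rfl⟩, _, v3 _ hy, add_sub_cancel _ _⟩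

theorem LIX_pf (hVL : VL_st) (hAH : AH_st) (hHQ : HQ_st) : LIX_st := by
  intro F _ _ σ p w hp h1 h2 hw
  have := Fact.mk hp
  let E := IntermediateField.fixedField (Subgroup.zpowers σ)
  have : IsGalois E F := IsGalois.of_fixed_field F (Subgroup.zpowers σ)
  have hr : finrank E F = p := by
    rw [IntermediateField.finrank_fixedField_eq_card, Nat.card_zpowers]
    exact orderOf_eq_prime h2 h1
  let s : F ≃ₐ[E] F := AlgEquiv.ofRingEquiv (f := σ.toRingEquiv) fun x =>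
    (IntermediateField.mem_fixedField_iff _ _).1 x.2 σ (Subgroup.mem_zpowers σ)
  have hs : ∀ (i : ℕ) x, (s ^ i) x = (σ ^ i) x := fun i x => by
    induction i with
    | zero => rfl
    | succ i ih => rw [pow_succ', pow_succ', AlgEquiv.mul_apply, AlgEquiv.mul_apply, ih]; rfl
  have h3 : s ≠ 1 := fun h => h1 (AlgEquiv.ext fun x => DFunLike.congr_fun h x)
  have h4 : s ^ p = 1 := AlgEquiv.ext fun x => by rw [hs, h2]; rfl
  have e : ∀ n x, Apx p σ w n x ↔ Apx p s w n x := fun n x => by simp only [Apx, Nm, hs]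
  simp only [e]
  exact core_WLIX hVL hAH hHQ E F s p w hp (orderOf_eq_prime h4 h3) hr
    (fun g => mem_zpowers_of_prime_card ((IsGalois.card_aut_eq_finrank E F).trans hr) h3) hw

end Pool.Agent.MP_3e91a1_nt
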