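import Pool.Agent.MP_3e91a1_nt.St

set_option autoImplicit false

open NumberField IsDedekindDomain Module Filter Topology Finset Polynomial
open scoped Classical

namespace Pool.Agent.MP_3e91a1_nt

open MP_e23604_nt MP_e23604_nt.B MP_e23604_nt.R MP_f3cd89_nt

section
variable {L : IntermediateField ℚ Qb} [NumberField L] {w w' : Pr L} {l : ℕ} [hl : Fact l.Prime]
  {γ γ' : GQ} {t t' : ℝ}

omit [NumberField L] in
theorem ne_WPLC {x : L} : (x : Qb) ≠ 0 ↔ x ≠ 0 := by simp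

theorem mem_WPLC (h : Pl L w l γ t) (x : 𝓞 L) : x ∈ w.asIdeal ↔ nv l γ ((x : L) : Qb) < 1 := by
  rcases eq_or_ne x 0 with rfl | hx
  · simp
  · have h1 := ord_eq_zero_iff w hx
    have h2 := ord_nonneg w x
    rw [h.2 _ (by simpa using hx), zpow_lt_one_iff_right₀ h.1, ← not_iff_not, ← h1]
    omega

theorem ex_WPLC (L : IntermediateField ℚ Qb) [NumberField L] (l : ℕ) [hl : Fact l.Prime] (g : GQ) :
    ∃ w t, Pl L w l g t := by
  let a : AbsoluteValue L ℝ := (nv l g).comp (f := algebraMap L Qb) (RingHom.injective _)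
  have ha : IsNonarchimedean a := fun x z => nv_na l g (x : Qb) (z : Qb)
  obtain ⟨w, hg⟩ := bvalc_center ha hl.out (by
    change nv l g (algebraMap L Qb l) < 1
    rw [map_natCast]
    exact nv_lt l g)
  have h1 : ∀ u : L, u ≠ 0 → ord w u = 0 → a u ≤ 1 := fun u hu e =>
    bvalc_le ha w hg (by rw [val_eq_exp w hu, e, neg_zero, WithZero.exp_zero])
  obtain ⟨π, h2, h3⟩ := exists_ord_eq_one w
  have h4 : (π : L) ≠ 0 := by simpa using h2
  have h5 : a π < 1 := (hg π).1 (by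
    by_contra h
    rw [← ord_eq_zero_iff w h2, h3] at h
    exact one_ne_zero h)
  refine ⟨w, (a π)⁻¹, (one_lt_inv₀ (a.pos h4)).2 h5, fun x hx => ?_⟩
  have h6 := zpow_ne_zero (ord w x) h4
  have h7 := h1 _ (div_ne_zero hx h6) (by rw [ord_div w hx h6, ord_zpow, h3, mul_one, sub_self])
  have h8 := h1 _ (div_ne_zero h6 hx) (by rw [ord_div w h6 hx, ord_zpow, h3, mul_one, sub_self])
  rw [map_div₀, div_le_one (a.pos h6)] at h7
  rw [map_div₀, div_le_one (a.pos hx)] at h8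
  rw [inv_zpow', neg_neg, ← map_zpow₀]
  exact le_antisymm h7 h8

theorem prime_WPLC (h : Pl L w l γ t) {q : ℕ} (hq : q.Prime) : (q : 𝓞 L) ∈ w.asIdeal ↔ q = l := by
  have e : (((q : 𝓞 L) : L) : Qb) = q := by simp
  rw [mem_WPLC h, e]
  refine ⟨fun h1 => by_contra fun h2 => h1.ne ?_, fun h1 => h1 ▸ nv_lt l γ⟩
  simpa using v_coprime (nv_na l γ) hl.out (nv_lt l γ) (n := q) fun h3 =>
    h2 ((Nat.prime_dvd_prime_iff_eq hl.out hq).1 (by exact_mod_cast h3)).symm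

theorem uniq_WPLC (h : Pl L w l γ t) (h' : Pl L w' l γ t') : w' = w :=
  HeightOneSpectrum.ext (Ideal.ext fun x => (mem_WPLC h' x).trans (mem_WPLC h x).symm)

theorem base_WPLC (h : Pl L w l γ t) (h' : Pl L w l γ' t') : t' = t := by
  have h0 : (l : L) ≠ 0 := Nat.cast_ne_zero.2 hl.out.ne_zero
  have e : ((l : L) : Qb) = l := by simp
  have h1 := h.2 l h0
  have h2 := h'.2 l h0
  have h3 : nv l γ' l = nv l γ l := by
    rw [← mul_inv_cancel_left γ γ', nv_mul, map_natCast]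
  rw [e] at h1 h2
  refine (zpow_left_inj₀ (zero_le_one.trans h'.1.le) (zero_le_one.trans h.1.le)
    (n := -ord w (l : L)) fun h4 => (nv_lt l γ).ne ?_).1 (h2.symm.trans (h3.trans h1))
  rw [h1, h4, zpow_zero]

theorem act_WPLC (h : Pl L w l γ t) {g : GQ} {g' : L ≃ₐ[ℚ] L} (hg : Ind g g') :
    Pl L (gact g' w) l (γ * g⁻¹) t := by
  refine ⟨h.1, fun x hx => ?_⟩
  obtain ⟨y, rfl⟩ := g'.surjective x
  rw [nv_mul, hg, ← AlgEquiv.mul_apply, inv_mul_cancel, AlgEquiv.one_apply,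
    h.2 y ((map_ne_zero g').1 hx), ← ord_gact g' w y]
  rfl

theorem same_WPLC (h : Pl L w l γ t) (h' : Pl L w l γ' t) (x : Qb) (hx : x ∈ L) :
    nv l γ' x = nv l γ x := by
  rcases eq_or_ne x 0 with rfl | h0
  · rw [map_zero, map_zero]
  · exact (h'.2 ⟨x, hx⟩ (ne_WPLC.1 h0)).trans (h.2 ⟨x, hx⟩ (ne_WPLC.1 h0)).symm

end

theorem PLC_pf : PLC_st := by
  intro L _
  refine ⟨ex_WPLC L, fun w l hl γ t h => ⟨fun l' hl' γ' t' h' => ?_, fun w' t' h' => uniq_WPLC h h',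
    fun q hq => prime_WPLC h hq, fun g g' hg => ⟨act_WPLC h hg, fun hd => ?_, fun e => ?_,
      fun e => ?_⟩, fun y hy h1 => ?_, fun n x => ?_⟩⟩
  · obtain rfl : l' = l := (prime_WPLC h hl'.out).1 ((prime_WPLC h' hl'.out).2 rfl)
    obtain rfl := base_WPLC h h'
    obtain ⟨σ, h1, h2⟩ := DIC_ok.2.1 l' γ L (γ⁻¹ * γ') fun x hx => by
      rw [← nv_mul, mul_inv_cancel_left, same_WPLC h h' x hx]
    refine ⟨rfl, rfl, σ⁻¹ * (γ⁻¹ * γ'), fun x hx => ?_, AbsoluteValue.ext fun y => ?_⟩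
    · rw [AlgEquiv.mul_apply, ← h2 x hx, ← AlgEquiv.mul_apply, inv_mul_cancel, AlgEquiv.one_apply]
    · rw [nv_mul, AlgEquiv.mul_apply, (Dec _).inv_mem h1, ← nv_mul, mul_inv_cancel_left]
  · have h1 := act_WPLC h hg
    exact uniq_WPLC h ⟨h.1, fun x hx => by rw [← h1.2 x hx, nv_mul, (Dec _).inv_mem hd]⟩
  · have h2 : Pl L w l (γ * g) t := ⟨h.1, fun x hx => by
      rw [nv_mul, ← hg, h.2 _ ((map_ne_zero g').2 hx), ← ord_gact g' w x, e]
      rfl⟩
    obtain ⟨σ, h3, h4⟩ := DIC_ok.2.1 l γ L g fun x hx => by rw [← nv_mul, same_WPLC h h2 x hx]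
    exact ⟨σ, h3, fun x => (hg x).trans (h4 x x.2).symm⟩
  · obtain ⟨τ, h1, h2⟩ := lift_inr L (nv_na l γ) hl.out (nv_lt l γ) g' fun x =>
      (mem_WPLC h (g' • x - x)).1 (e x)
    exact ⟨τ, h1, fun x => (h2 x).symm⟩
  · obtain ⟨x, hx, e⟩ := ram_a L (nv_na l γ) hl.out (nv_lt l γ) fun τ a b => h1 τ b a
    refine ⟨_, e.symm.trans (h.2 ⟨x, hx⟩ (ne_WPLC.1 fun h0 => hy ?_))⟩
    rw [← (nv l γ).eq_zero, ← e]
    exact (nv l γ).eq_zero.2 h0
  · have e : (x : Qb) - 1 = ((x - 1 : L) : Qb) := by simp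
    simp only [Cong, mem_singleton, forall_eq]
    rw [e]
    rcases eq_or_ne (x - 1) 0 with h0 | h0
    · rw [h0]
      simpa using pow_nonneg (zero_le_one.trans h.1.le) n
    · rw [val_eq_exp w h0, WithZero.exp_le_exp, h.2 _ h0, zpow_le_zpow_iff_right₀ h.1]

end Pool.Agent.MP_3e91a1_nt
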