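import Pool.Agent.MP_3e91a1_nt.St

set_option autoImplicit false

open NumberField IsDedekindDomain Module Filter Topology Finset Polynomial
open scoped Classical

namespace Pool.Agent.MP_3e91a1_nt

open MP_e23604_nt MP_e23604_nt.B MP_e23604_nt.R MP_f3cd89_nt

theorem RES_pf : RES_st := by
  intro H hopen
  let M := IntermediateField.fixedField H
  have mem : ∀ x : Qb, x ∈ M ↔ Fix H x := fun x => IntermediateField.mem_fixedField_iff H x
  have hfix : M.fixingSubgroup = H :=
    InfiniteGalois.fixingSubgroup_fixedField ⟨H, H.isClosed_of_isOpen hopen⟩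
  have : FiniteDimensional ℚ M := (InfiniteGalois.isOpen_iff_finite M).1 (by
    rw [hfix]
    exact hopen)
  refine ⟨M, NumberField.of_module_finite ℚ M, mem, fun g hg => ?_, fun g hg => ?_, fun g' => ?_⟩
  · rw [← hfix]
    exact (IntermediateField.mem_fixingSubgroup_iff _ _).2 hg
  · have hM : ∀ x ∈ M, g x ∈ M := fun x hx => (mem _).2 fun h hh => by
      have h1 : g⁻¹ * h * g ∈ H := (hg _).2 (by
        rwa [show g * (g⁻¹ * h * g) * g⁻¹ = h by group])
      have h3 := congrArg g ((mem x).1 hx _ h1)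
      rwa [← AlgEquiv.mul_apply, show g * (g⁻¹ * h * g) = h * g by group,
        AlgEquiv.mul_apply] at h3
    let f : M →ₐ[ℚ] M :=
      ((g : Qb →ₐ[ℚ] Qb).comp M.val).codRestrict M.toSubalgebra fun x => hM x x.2
    exact ⟨AlgEquiv.ofBijective f (Algebra.IsAlgebraic.algHom_bijective f), fun x => rfl⟩
  · exact ⟨g'.liftNormal Qb, fun x => (g'.liftNormal_commutes Qb x).symm⟩

theorem TWR_pf (hRES : RES_st) : TWR_st := by
  intro H H' L F _ _ hopen hle hN hL hF
  obtain ⟨F', _, f1, f2, f3, f4⟩ := hRES H hopen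
  obtain ⟨L', _, l1, l2, -, -⟩ := hRES H' (Subgroup.isOpen_mono hle hopen)
  obtain rfl : F = F' := IntermediateField.ext fun x => (hF x).trans (f1 x).symm
  obtain rfl : L = L' := IntermediateField.ext fun x => (hL x).trans (l1 x).symm
  have hLF : L ≤ F := fun x hx => (hF x).2 fun g hg => (hL x).1 hx g (hle hg)
  let _ : Algebra L F := (IntermediateField.inclusion hLF).toRingHom.toAlgebra
  have e0 : ∀ x : L, (algebraMap L F x : Qb) = x := fun x => rfl
  have : IsScalarTower ℚ L F := IsScalarTower.of_algebraMap_eq' (Subsingleton.elim _ _)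
  have : FiniteDimensional L F := Module.Finite.of_restrictScalars_finite ℚ L F
  have hres : ∀ g ∈ H', ∃ τ : F ≃ₐ[L] F, ∀ x : F, (τ x : Qb) = g x := fun g hg => by
    obtain ⟨g', hg'⟩ := f3 g fun h => ⟨hN g hg h, fun hh => by
      have h1 := hN _ (H'.inv_mem hg) _ hh
      rwa [show g⁻¹ * (g * h * g⁻¹) * g⁻¹⁻¹ = h by group] at h1⟩
    exact ⟨AlgEquiv.ofRingEquiv (f := g'.toRingEquiv) fun x =>
      Subtype.ext ((hg' _).trans ((hL _).1 x.2 g hg)), hg'⟩
  choose τ hτ using hres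
  let φ : H' →* (F ≃ₐ[L] F) := MonoidHom.mk' (fun g => τ g g.2) fun a b =>
    AlgEquiv.ext fun x => Subtype.ext (by
      rw [hτ, AlgEquiv.mul_apply, hτ, hτ]
      rfl)
  have hφ : ∀ (g : H') (x : F), (φ g x : Qb) = (g : GQ) x := fun g x => hτ g g.2 x
  have hsur : Function.Surjective φ := fun σ => by
    obtain ⟨g, hg⟩ := f4 (σ.restrictScalars ℚ)
    have h1 : g ∈ H' := l2 g fun x hx =>
      (hg (algebraMap L F ⟨x, hx⟩)).symm.trans (congrArg Subtype.val (σ.commutes ⟨x, hx⟩))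
    exact ⟨⟨g, h1⟩, AlgEquiv.ext fun x => Subtype.ext ((hφ _ x).trans (hg x).symm)⟩
  have hker : φ.ker = H.subgroupOf H' := by
    ext g
    rw [MonoidHom.mem_ker, Subgroup.mem_subgroupOf]
    refine ⟨fun h => f2 _ fun x hx => ?_, fun h => AlgEquiv.ext fun x => Subtype.ext ?_⟩
    · rw [← hφ g ⟨x, hx⟩, h]
      rfl
    · exact (hφ g x).trans ((hF _).1 x.2 _ h)
  have hgal : IsGalois L F := IsGalois.of_fixedField_eq_bot L F (by
    rw [eq_bot_iff]
    intro x hx
    have h1 : (x : Qb) ∈ L := (hL _).2 fun g hg => (hτ g hg x).symm.trans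
      (congrArg Subtype.val ((IntermediateField.mem_fixedField_iff _ _).1 hx _ (Subgroup.mem_top _)))
    exact IntermediateField.mem_bot.2 ⟨⟨x, h1⟩, Subtype.ext rfl⟩)
  refine ⟨inferInstance, e0, hgal, ?_, Module.finrank_mul_finrank ℚ L F, fun g hg => ⟨τ g hg, hτ g hg⟩,
    fun σ => ⟨σ.restrictScalars ℚ, fun x => rfl⟩⟩
  rw [← IsGalois.card_aut_eq_finrank, Subgroup.relIndex, ← hker, Subgroup.index_ker,
    MonoidHom.range_eq_top.2 hsur, Subgroup.card_top]

end Pool.Agent.MP_3e91a1_nt
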