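import Pool.Agent.MP_3e91a1_nt.St

set_option autoImplicit false

open NumberField IsDedekindDomain Module Filter Topology Finset Polynomial
open scoped Classical

namespace Pool.Agent.MP_3e91a1_nt

open MP_e23604_nt MP_e23604_nt.B MP_e23604_nt.R MP_f3cd89_nt

theorem prod_WSB {p : ℕ} [Fact p.Prime] (f : ZMod p → Qb) :
    ∏ i ∈ range p, f (i : ZMod p) = ∏ a, f a :=
  Finset.prod_nbij' (fun i => (i : ZMod p)) ZMod.val (fun _ _ => mem_univ _)
    (fun a _ => mem_range.2 (ZMod.val_lt a)) (fun _ hi => ZMod.val_cast_of_lt (mem_range.1 hi))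
    (fun a _ => ZMod.natCast_zmod_val a) fun _ _ => rfl

theorem mul_WSB (p : ℕ) (s : GQ) (x y : Qb) : Nm p s (x * y) = Nm p s x * Nm p s y := by
  simp [Nm, prod_mul_distrib]

theorem div_WSB (p : ℕ) (s : GQ) (x y : Qb) : Nm p s (x / y) = Nm p s x / Nm p s y := by
  simp [Nm, prod_div_distrib]

theorem pow_WSB (p : ℕ) (s : GQ) (x : Qb) (i : ℕ) : Nm p s (x ^ i) = Nm p s x ^ i := by
  simp [Nm, prod_pow]

theorem iter_WSB {s : GQ} {x : Qb} (h : s x = x) (i : ℕ) : (s ^ i) x = x := by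
  induction i with
  | zero => rfl
  | succ i ih => rw [pow_succ, AlgEquiv.mul_apply, h, ih]

theorem fix_WSB (p : ℕ) {s : GQ} {x : Qb} (h : s x = x) : Nm p s x = x ^ p := by
  simp [Nm, iter_WSB h]

section

variable {p : ℕ} [Fact p.Prime] {H H' : Subgroup GQ} {χ : GQ → ZMod p} {s : GQ}
  (h : Step p H H' χ s)
include h

theorem one_WSB : χ 1 = 0 := by
  have := h.add 1 H'.one_mem 1 H'.one_mem
  rwa [mul_one, left_eq_add] at this

theorem inv_WSB {g : GQ} (hg : g ∈ H') : χ g⁻¹ = -χ g := by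
  have := h.add g hg g⁻¹ (H'.inv_mem hg)
  rw [mul_inv_cancel, one_WSB h] at this
  linear_combination -this

theorem chi_WSB {g : GQ} (hg : g ∈ H') (i : ℕ) : χ (g ^ i) = i * χ g := by
  induction i with
  | zero => simpa using one_WSB h
  | succ i ih => rw [pow_succ, h.add _ (H'.pow_mem hg i) _ hg, ih]; push_cast; ring

omit [Fact p.Prime] in
theorem le_WSB : H ≤ H' := fun g hg => ((h.ker g).1 hg).1

theorem mem_WSB {g g' : GQ} (hg : g ∈ H') (hg' : g' ∈ H') (e : χ g = χ g') : g⁻¹ * g' ∈ H :=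
  (h.ker _).2 ⟨H'.mul_mem (H'.inv_mem hg) hg', by
    rw [h.add _ (H'.inv_mem hg) _ hg', inv_WSB h hg, e, neg_add_cancel]⟩

theorem dec_WSB {g : GQ} (hg : g ∈ H') : (s ^ (χ g).val)⁻¹ * g ∈ H :=
  mem_WSB h (H'.pow_mem h.mem _) hg (by
    rw [chi_WSB h h.mem, h.one, mul_one, ZMod.natCast_zmod_val])

theorem app_WSB {y : Qb} (hy : Fix H y) {g : GQ} (hg : g ∈ H') : g y = (s ^ (χ g).val) y := by
  conv_rhs => rw [← hy _ (dec_WSB h hg), ← AlgEquiv.mul_apply, mul_inv_cancel_left]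

theorem nm_WSB {y : Qb} (hy : Fix H y) {g g' : GQ} (hg : g ∈ H') (hg' : g' ∈ H') (h0 : χ g' ≠ 0) :
    g (Nm p g' y) = ∏ a : ZMod p, (s ^ a.val) y := by
  rw [Nm, map_prod, ← ((Equiv.mulRight₀ _ h0).trans (Equiv.addLeft (χ g))).prod_comp,
    ← prod_WSB]
  refine prod_congr rfl fun i _ => ?_
  rw [← AlgEquiv.mul_apply, app_WSB h hy (H'.mul_mem hg (H'.pow_mem hg' i)),
    h.add _ hg _ (H'.pow_mem hg' i), chi_WSB h hg']
  rfl

theorem nmfix_WSB {y : Qb} (hy : Fix H y) : Fix H' (Nm p s y) := fun g hg => by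
  have h0 : χ s ≠ 0 := by rw [h.one]; exact one_ne_zero
  exact (nm_WSB h hy hg h.mem h0).trans (nm_WSB h hy H'.one_mem h.mem h0).symm

theorem nrm_WSB : Nrm H H' := fun g hg n hn => by
  obtain ⟨h1, h2⟩ := (h.ker n).1 hn
  refine (h.ker _).2 ⟨H'.mul_mem (H'.mul_mem hg h1) (H'.inv_mem hg), ?_⟩
  rw [h.add _ (H'.mul_mem hg h1) _ (H'.inv_mem hg), h.add _ hg _ h1, inv_WSB h hg, h2]
  ring

theorem idx_WSB : H.relIndex H' = p := by
  let φ : H' →* Multiplicative (ZMod p) := MonoidHom.mk' (fun g => Multiplicative.ofAdd (χ g))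
    fun a b => congrArg Multiplicative.ofAdd (h.add a a.2 b b.2)
  have h1 : H.subgroupOf H' = φ.ker := by
    ext g
    rw [Subgroup.mem_subgroupOf, h.ker, MonoidHom.mem_ker]
    exact ⟨fun c => congrArg Multiplicative.ofAdd c.2,
      fun c => ⟨g.2, congrArg Multiplicative.toAdd c⟩⟩
  have h2 : φ.range = ⊤ := MonoidHom.range_eq_top.2 fun a =>
    ⟨⟨s ^ (Multiplicative.toAdd a).val, H'.pow_mem h.mem _⟩, by
      change Multiplicative.ofAdd (χ _) = a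
      rw [chi_WSB h h.mem, h.one, mul_one, ZMod.natCast_zmod_val, ofAdd_toAdd]⟩
  rw [Subgroup.relIndex, h1, Subgroup.index_ker, h2, Subgroup.card_top]
  exact Nat.card_zmod p

theorem isn_WSB {a : Qb} (ha : a ≠ 0) (hf : Fix H' a) : IsN p H s (a ^ p) :=
  ⟨a, ha, fun g hg => hf g (le_WSB h hg), fix_WSB p (hf s h.mem)⟩

end

theorem isnd_WSB {p : ℕ} {H : Subgroup GQ} {s : GQ} {a b : Qb} (ha : IsN p H s a)
    (hb : IsN p H s b) : IsN p H s (a / b) := by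
  obtain ⟨x, x0, hx, rfl⟩ := ha
  obtain ⟨y, y0, hy, rfl⟩ := hb
  exact ⟨x / y, div_ne_zero x0 y0, fun g hg => by rw [map_div₀, hx g hg, hy g hg], div_WSB _ _ _ _⟩

theorem isnp_WSB {p : ℕ} {H : Subgroup GQ} {s : GQ} {a : Qb} (ha : IsN p H s a) (i : ℕ) :
    IsN p H s (a ^ i) := by
  obtain ⟨x, x0, hx, rfl⟩ := ha
  exact ⟨x ^ i, pow_ne_zero _ x0, fun g hg => by rw [map_pow, hx g hg], pow_WSB _ _ _ _⟩

theorem SB_pf : SB_st := by
  intro p hp H H' χ s h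
  have h0 : χ s ≠ 0 := by rw [h.one]; exact one_ne_zero
  refine ⟨le_WSB h, nrm_WSB h, fun c => h0 ((h.ker s).1 c).2, fun g hg => ?_, idx_WSB h,
    fun g hg => ⟨inv_WSB h hg, chi_WSB h hg⟩, fun g hg => dec_WSB h hg, fun g hg c => ?_,
    fun x hx e g hg => (app_WSB h hx hg).trans (iter_WSB e _), fun x hx g hg n hn => ?_,
    fun y hy => ⟨nmfix_WSB h hy, fun g hg c => ?_⟩, fun x e => fix_WSB p e,
    fun a b ha hb => ⟨?_, isnd_WSB ha hb⟩, fun a ha => ⟨?_, ?_, isnp_WSB ha⟩,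
    fun a a0 ha => ⟨isn_WSB h a0 ha, fun m hm hn => ?_⟩, fun D t ht e => ?_, fun ho => ?_,
    fun l _ γ hl hc => ?_⟩
  · exact (h.ker _).2 ⟨H'.pow_mem hg _, by rw [chi_WSB h hg, ZMod.natCast_self, zero_mul]⟩
  · have h1 : χ g ≠ 0 := fun e => c ((h.ker g).2 ⟨hg, e⟩)
    exact ⟨(χ g)⁻¹.val, by rw [chi_WSB h hg, ZMod.natCast_zmod_val, inv_mul_cancel₀ h1]⟩
  · have h1 := nrm_WSB h g⁻¹ (H'.inv_mem hg) n hn
    conv_rhs => rw [← hx _ h1, ← AlgEquiv.mul_apply, inv_inv, mul_assoc, mul_inv_cancel_left]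
    rfl
  · exact (nm_WSB h hy H'.one_mem hg fun e => c ((h.ker g).2 ⟨hg, e⟩)).trans
      (nm_WSB h hy H'.one_mem h.mem h0).symm
  · obtain ⟨x, x0, hx, rfl⟩ := ha
    obtain ⟨y, y0, hy, rfl⟩ := hb
    exact ⟨x * y, mul_ne_zero x0 y0, fun g hg => by rw [map_mul, hx g hg, hy g hg],
      mul_WSB _ _ _ _⟩
  · obtain ⟨x, x0, -, rfl⟩ := ha
    exact prod_ne_zero_iff.2 fun i _ => (_root_.map_ne_zero _).2 x0
  · obtain ⟨x, -, hx, rfl⟩ := ha
    exact nmfix_WSB h hx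
  · obtain ⟨u, -, hu⟩ := Nat.exists_mul_mod_eq_one_of_coprime
      ((Nat.Prime.coprime_iff_not_dvd hp.out).2 hm).symm hp.out.one_lt
    have h1 := isnd_WSB (isnp_WSB hn u) (isnp_WSB (isn_WSB h a0 ha) (m * u / p))
    have h2 : m * u = 1 + p * (m * u / p) := by rw [← hu, Nat.mod_add_div]
    rw [← pow_mul, ← pow_mul] at h1
    generalize m * u / p = v at h1 h2
    rwa [h2, pow_add, pow_one, mul_div_cancel_right₀ _ (pow_ne_zero _ a0)] at h1
  · exact ⟨fun g hg g' hg' => h.add g hg.2 g' hg'.2, fun g => ⟨fun c => ⟨⟨c.1, le_WSB h c.2⟩,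
      ((h.ker g).1 c.2).2⟩, fun c => ⟨c.1.1, (h.ker g).2 ⟨c.1.2, c.2⟩⟩⟩, ht, e⟩
  · obtain ⟨N, h1, h2⟩ := exists_ON (ho.mem_nhds H.one_mem)
    refine ⟨N, h1, fun g hg g' hg' c => ?_⟩
    have h3 := ((h.ker _).1 (h2 _ c)).2
    rw [h.add _ (H'.inv_mem hg) _ hg', inv_WSB h hg] at h3
    linear_combination -h3
  · obtain ⟨h1, N, h2, h3⟩ := hl
    obtain ⟨N', h4, h5⟩ := hc
    refine ⟨(le_WSB h).trans h1, N ⊓ N', h2.inf h4, fun g hg => ?_⟩
    have h6 : g ∈ H' := h3 ⟨hg.1, hg.2.1⟩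
    exact (h.ker g).2 ⟨h6, (h5 1 H'.one_mem g h6 (by simpa using hg.2.2)).symm.trans (one_WSB h)⟩

end Pool.Agent.MP_3e91a1_nt
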