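import Pool.Agent.MP_3e91a1_nt.St

set_option autoImplicit false

open NumberField IsDedekindDomain Module Filter Topology Finset Polynomial
open scoped Classical

namespace Pool.Agent.MP_3e91a1_nt

open MP_e23604_nt MP_e23604_nt.B MP_e23604_nt.R MP_f3cd89_nt

theorem Nm_mul_WSYM (n : ℕ) (s : GQ) (x y : Qb) : Nm n s (x * y) = Nm n s x * Nm n s y := by
  simp only [Nm, map_mul, prod_mul_distrib]

theorem Nm_div_WSYM (n : ℕ) (s : GQ) (x y : Qb) : Nm n s (x / y) = Nm n s x / Nm n s y := by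
  simp only [Nm, map_div₀, prod_div_distrib]

theorem Nm_ne_WSYM (n : ℕ) (s : GQ) {x : Qb} (hx : x ≠ 0) : Nm n s x ≠ 0 :=
  prod_ne_zero_iff.2 fun _ _ => (_root_.map_ne_zero _).2 hx

theorem Nm_tel_WSYM (n : ℕ) (s : GQ) {w : Qb} (hw : w ≠ 0) :
    Nm n s (s w / w) = (s ^ n) w / w := by
  induction n with
  | zero => simp [Nm, hw]
  | succ n ih =>
    have h1 : (s ^ n) w ≠ 0 := (_root_.map_ne_zero _).2 hw
    unfold Nm at ih ⊢
    rw [prod_range_succ, ih, map_div₀, pow_succ, AlgEquiv.mul_apply]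
    field_simp

theorem Nm_eig_WSYM {p : ℕ} (hp : Odd p) {ζ α : Qb} (hζ : ζ ^ p = 1) (g : GQ) (c : ℕ)
    (h1 : g ζ = ζ) (h2 : g α = ζ ^ c * α) : Nm p g α = α ^ p := by
  have h3 : ∀ i : ℕ, (g ^ i) α = ζ ^ (c * i) * α := by
    intro i
    induction i with
    | zero => simp
    | succ i ih =>
      rw [pow_succ', AlgEquiv.mul_apply, ih, map_mul, map_pow, h1, h2]
      ring
  obtain ⟨k, hk⟩ := hp
  have h4 : ∑ i ∈ range p, i = p * k := by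
    have := sum_range_id_mul_two p
    rw [hk] at this ⊢
    simp only [Nat.add_sub_cancel] at this
    nlinarith
  unfold Nm
  simp only [h3]
  rw [prod_mul_distrib, prod_pow_eq_pow_sum, ← mul_sum, h4, prod_const, card_range,
    mul_left_comm, pow_mul, hζ, one_pow, one_mul]

theorem adt_WSYM {p : ℕ} {D : Subgroup GQ} {χ : GQ → ZMod p} (h : Adt D χ) :
    χ 1 = 0 ∧ (∀ g ∈ D, χ g⁻¹ = -χ g) ∧ ∀ g ∈ D, ∀ i : ℕ, χ (g ^ i) = i * χ g := by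
  have h1 : χ 1 = 0 := by simpa using h 1 D.one_mem 1 D.one_mem
  refine ⟨h1, fun g hg => ?_, fun g hg i => ?_⟩
  · have := h g⁻¹ (D.inv_mem hg) g hg
    rw [inv_mul_cancel, h1] at this
    linear_combination -this
  · induction i with
    | zero => simp [h1]
    | succ i ih =>
      rw [pow_succ, h _ (D.pow_mem hg i) g hg, ih]
      push_cast
      ring

theorem com_WSYM {p : ℕ} {D : Subgroup GQ} {χ : GQ → ZMod p} (h : Adt D χ) {g k : GQ}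
    (hg : g ∈ D) (hk : k ∈ D) :
    χ ((k * g)⁻¹ * (g * k)) = 0 ∧ χ (g⁻¹ * (k * g)) = χ k := by
  obtain ⟨-, h2, -⟩ := adt_WSYM h
  constructor
  · rw [h _ (D.inv_mem (D.mul_mem hk hg)) _ (D.mul_mem hg hk), h2 _ (D.mul_mem hk hg),
      h _ hk _ hg, h _ hg _ hk]
    ring
  · rw [h _ (D.inv_mem hg) _ (D.mul_mem hk hg), h2 _ hg, h _ hk _ hg]
    ring

/-- two characters: commutators and conjugates -/
theorem two_WSYM {p : ℕ} {D B : Subgroup GQ} {χ χ' : GQ → ZMod p} (h : Adt D χ) (h' : Adt D χ')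
    (hB : ∀ g, g ∈ B ↔ g ∈ D ∧ χ g = 0 ∧ χ' g = 0) {w : Qb} (hw : Fix B w) {g : GQ}
    (hg : g ∈ D) : Fix B (g w) ∧ ∀ k ∈ D, g (k w) = k (g w) := by
  constructor
  · intro b hb
    obtain ⟨hb1, hb2, hb3⟩ := (hB b).1 hb
    have := hw (g⁻¹ * (b * g)) ((hB _).2 ⟨D.mul_mem (D.inv_mem hg) (D.mul_mem hb1 hg),
      (com_WSYM h hg hb1).2.trans hb2, (com_WSYM h' hg hb1).2.trans hb3⟩)
    calc b (g w) = (g * (g⁻¹ * (b * g))) w := by
          rw [mul_inv_cancel_left, AlgEquiv.mul_apply]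
      _ = g w := by rw [AlgEquiv.mul_apply, this]
  · intro k hk
    have := hw ((k * g)⁻¹ * (g * k)) ((hB _).2 ⟨D.mul_mem (D.inv_mem (D.mul_mem hk hg))
      (D.mul_mem hg hk), (com_WSYM h hg hk).1, (com_WSYM h' hg hk).1⟩)
    calc g (k w) = ((k * g) * ((k * g)⁻¹ * (g * k))) w := by
          rw [mul_inv_cancel_left, AlgEquiv.mul_apply]
      _ = k (g w) := by rw [AlgEquiv.mul_apply, this, AlgEquiv.mul_apply]

theorem lc_WSYM {α : Type} {D H : Subgroup GQ} {f : GQ → α} (h : Lc D f) (hH : H ≤ D) :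
    Lc H f := by
  obtain ⟨N, h1, h2⟩ := h
  exact ⟨N, h1, fun g hg k hk => h2 g (hH hg) k (hH hk)⟩

theorem SYM_pf (hSB : SB_st) (hKUQ : KUQ_st) : SYM_st := by
  intro p _ ζ α β D H H' χ χ' s s' hp2 hζ hDζ hχ hχ' hS hS' hα hβ hgα hgβ hN
  have hp : p.Prime := Fact.out
  have hodd : Odd p := hp.odd_of_ne_two hp2
  have v1 : (1 : ZMod p).val = 1 := ZMod.val_one p
  have hαH : Fix H α := fun g hg => by
    obtain ⟨h1, h2⟩ := (hS.ker g).1 hg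
    rw [hgα g h1, h2, ZMod.val_zero, pow_zero, one_mul]
  have hβH : Fix H' β := fun g hg => by
    obtain ⟨h1, h2⟩ := (hS'.ker g).1 hg
    rw [hgβ g h1, h2, ZMod.val_zero, pow_zero, one_mul]
  by_cases hle : H' ≤ H
  · exact ⟨α, hα, fun g hg => hαH g (hle hg),
      Nm_eig_WSYM hodd hζ.pow_eq_one s' _ (hDζ _ hS'.mem) (hgα _ hS'.mem)⟩
  obtain ⟨g, hg1, hg2⟩ := SetLike.not_le_iff_exists.1 hle
  obtain ⟨-, -, -, -, -, -, -, a8, -, -, a11, -⟩ := hSB p H D χ s hS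
  obtain ⟨b1, -, -, b4, -, -, -, -, -, -, b11, b12, -⟩ := hSB p H' D χ' s' hS'
  obtain ⟨i, hi⟩ := a8 g (b1 hg1) hg2
  set σ := g ^ i with hσ
  have hσH' : σ ∈ H' := H'.pow_mem hg1 i
  have hσD : σ ∈ D := b1 hσH'
  have hσH : σ ∉ H := fun h => one_ne_zero (hi.symm.trans ((hS.ker σ).1 h).2)
  obtain ⟨c1, -, -, -, -, -, c7, -⟩ := hSB p H D χ σ ⟨hS.add, hS.ker, hσD, hi⟩
  have hτH := c7 s' hS'.mem
  set τ := (σ ^ (χ s').val)⁻¹ * s' with hτ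
  have hτD : τ ∈ D := c1 hτH
  have hτ1 : χ' τ = 1 := by
    have h0 := H'.inv_mem (H'.pow_mem hσH' (χ s').val)
    rw [hτ, hS'.add _ (b1 h0) _ hS'.mem, ((hS'.ker _).1 h0).2, hS'.one, zero_add]
  have hτH' : τ ∉ H' := fun h => one_ne_zero (hτ1.symm.trans ((hS'.ker τ).1 h).2)
  have hB : ∀ g, g ∈ H' ⊓ H ↔ g ∈ D ∧ χ g = 0 ∧ χ' g = 0 := fun g => by
    rw [Subgroup.mem_inf, hS.ker, hS'.ker]
    tauto
  have hS0 : Step p (H' ⊓ H) H' χ σ :=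
    ⟨fun g hg k hk => hS.add g (b1 hg) k (b1 hk), fun g => by
      rw [Subgroup.mem_inf, hS.ker]
      exact ⟨fun h => ⟨h.1, h.2.2⟩, fun h => ⟨h.1, b1 h.1, h.2⟩⟩, hσH', hi⟩
  obtain ⟨z, hz0, hzH, hz⟩ := hN
  have hx : Nm p σ (z / β) = 1 := by
    obtain ⟨-, -, -, -, -, -, -, -, -, -, -, d12, -⟩ := hSB p _ _ χ σ hS0
    rw [Nm_div_WSYM, (a11 z hzH).2 σ hσD hσH, hz, d12 β (hβH σ hσH'), div_self (pow_ne_zero _ hβ)]
  obtain ⟨w, hw0, hwB, hw⟩ := (hKUQ p).1 _ _ χ σ (z / β) hS0 (lc_WSYM hχ b1)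
    (fun g hg => by rw [map_div₀, hzH g hg.2, hβH g hg.1]) hx
  obtain ⟨e1, e2⟩ := two_WSYM hS.add hS'.add hB hwB hτD
  have hζ0 : ζ ≠ 0 := hζ.ne_zero hp.ne_zero
  have hu : Fix H' (τ w / w * α) := by
    obtain ⟨-, -, -, -, -, -, -, -, d9, -⟩ := hSB p _ _ χ σ hS0
    refine d9 _ (fun g hg => by rw [map_mul, map_div₀, e1 g hg, hwB g hg, hαH g hg.2]) ?_
    rw [map_mul, map_div₀, ← e2 σ hσD, hw, map_mul, map_div₀, hzH τ hτH, hgβ τ hτD, hτ1,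
      hgα σ hσD, hi, v1, pow_one]
    field_simp
  refine ⟨τ w / w * α, mul_ne_zero (div_ne_zero ((_root_.map_ne_zero _).2 hw0) hw0) hα, hu, ?_⟩
  rw [← (b11 _ hu).2 τ hτD hτH', Nm_mul_WSYM, Nm_tel_WSYM _ _ hw0,
    hwB _ ⟨b4 τ hτD, H.pow_mem hτH p⟩, div_self hw0, one_mul]
  exact Nm_eig_WSYM hodd hζ.pow_eq_one τ 0 (hDζ _ hτD) (by rw [hαH τ hτH, pow_zero, one_mul])

theorem L2_pf (hSB : SB_st) (hKER : KER_st) (hKUQ : KUQ_st) (hL1 : L1_st) (hSYM : SYM_st) :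
    L2_st := by
  intro p l _ _ γ ζ a D B B₀ χ χ' t s hp2 hζ hD hDζ hχa hχ hχ' hS hS0 ha0 haD
  have hp : p.Prime := Fact.out
  by_contra hn
  obtain ⟨b1, -, -, -, -, -, -, -, -, -, -, b12, -, -, -, -, -, b18⟩ := hSB p B D χ' s hS
  obtain ⟨c1, -, -, -, -, -, -, -, -, -, -, -, c13, -, c15, -⟩ := hSB p B₀ B χ t hS0
  have hB : ∀ g, g ∈ B₀ ↔ g ∈ D ∧ χ g = 0 ∧ χ' g = 0 := fun g => by
    rw [hS0.ker, hS.ker]
    tauto
  have htD : t ∈ D := b1 hS0.mem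
  have haB : Fix B a := fun g hg => haD g (b1 hg)
  have h1 : ¬ IsN p B s a := by
    rintro ⟨w, hw0, hwB, hw⟩
    obtain h | ⟨i, u, hu0, huB, hu⟩ := (hL1 p l γ B₀ B χ t hp2 (b18 l γ hD hχ')
      (lc_WSYM hχ b1) hS0).1 a w ha0 hw0 haB hwB
    · exact hn h
    have hai : a ^ i ≠ 0 := pow_ne_zero _ ha0
    have e1 : w = a ^ i * Nm p t u := by rw [hu]; field_simp
    have e2 : Nm p s (Nm p t u) = Nm p t (Nm p s u) := by
      unfold Nm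
      simp only [map_prod]
      rw [Finset.prod_comm]
      exact prod_congr rfl fun j _ => prod_congr rfl fun k _ =>
        (two_WSYM hχa hS.add hB huB (D.pow_mem hS.mem k)).2 _ (D.pow_mem htD j)
    have e3 : Fix B₀ (Nm p s u) := fun g hg => by
      unfold Nm
      rw [map_prod]
      exact prod_congr rfl fun k _ =>
        (two_WSYM hχa hS.add hB huB (D.pow_mem hS.mem k)).1 g hg
    have e4 : a = (a ^ i) ^ p * Nm p t (Nm p s u) := by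
      rw [← e2, ← b12 (a ^ i) (by rw [map_pow, haD s hS.mem]), ← Nm_mul_WSYM, ← e1, hw]
    apply hn
    rw [e4]
    exact (c13 _ _ (c15 _ hai fun g hg => by rw [map_pow, haB g hg]).1
      ⟨_, Nm_ne_WSYM _ _ hu0, e3, rfl⟩).1
  obtain ⟨A, hA⟩ := IsAlgClosed.exists_pow_nat_eq a hp.pos
  have hA0 : A ≠ 0 := by
    rintro rfl
    exact ha0 (by rw [← hA, zero_pow hp.ne_zero])
  obtain ⟨k1, k2⟩ := (hKUQ p).2 ζ D hζ hDζ
  obtain ⟨ψ, hψa, hψ, hψA⟩ := k2 A hA0 (hA ▸ haD)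
  by_cases h0 : ∀ g ∈ D, ψ g = 0
  · apply hn
    rw [← hA]
    exact (c15 A hA0 fun g hg => by
      rw [hψA g (b1 hg), h0 g (b1 hg), ZMod.val_zero, pow_zero, one_mul]).1
  push Not at h0
  obtain ⟨g, hgD, hg⟩ := h0
  obtain ⟨HA, hHA⟩ := hKER p D ψ hψa
  have hSA : Step p HA D ψ (g ^ ((ψ g)⁻¹).val) := ⟨hψa, hHA, D.pow_mem hgD _, by
    rw [(adt_WSYM hψa).2.2 g hgD, ZMod.natCast_zmod_val, inv_mul_cancel₀ hg]⟩
  obtain ⟨α, hα0, hα⟩ := k1 χ hχa hχ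
  obtain ⟨β, hβ0, hβ⟩ := k1 χ' hS.add hχ'
  have fp : ∀ (x : Qb) (f : GQ → ZMod p), (∀ g ∈ D, g x = ζ ^ (f g).val * x) → Fix D (x ^ p) :=
    fun x f hf g hg => by
      rw [map_pow, hf g hg, mul_pow, ← pow_mul, mul_comm _ p, pow_mul, hζ.pow_eq_one, one_pow,
        one_mul]
  obtain h | ⟨i, h⟩ := (hL1 p l γ HA D ψ _ hp2 hD hψ hSA).1 (β ^ p) (α ^ p) (pow_ne_zero _ hβ0)
    (pow_ne_zero _ hα0) (fp β χ' hβ) (fp α χ hα)
  · exact h1 (hA ▸ hSYM p ζ A β D HA B ψ χ' _ s hp2 hζ hDζ hψ hχ' hSA hS hA0 hβ0 hψA hβ h)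
  have hφa : Adt D fun g => χ g - i * χ' g := fun g hg k hk => by
    simp only [hχa g hg k hk, hS.add g hg k hk]
    ring
  have hφ : Lc D fun g => χ g - i * χ' g := by
    obtain ⟨N, ⟨n1, n2⟩, n3⟩ := hχ
    obtain ⟨N', ⟨m1, m2⟩, m3⟩ := hχ'
    refine ⟨N ⊓ N', ⟨inferInstance, n2.inter m2⟩, fun g hg k hk hgk => ?_⟩
    simp only [n3 g hg k hk hgk.1, m3 g hg k hk hgk.2]
  obtain ⟨H'', hH''⟩ := hKER p D _ hφa
  have hS2 : Step p H'' D (fun g => χ g - i * χ' g) t := ⟨hφa, hH'', htD, by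
    simp only [hS0.one, ((hS.ker t).1 hS0.mem).2, mul_zero, sub_zero]⟩
  have hζ0 : ζ ≠ 0 := hζ.ne_zero hp.ne_zero
  have hq : ∀ g ∈ D, g (α / β ^ i) = ζ ^ (χ g - i * χ' g).val * (α / β ^ i) := fun g hg => by
    have e : ζ ^ (χ g).val = ζ ^ ((χ g - i * χ' g).val + (χ' g).val * i) := by
      rw [pow_eq_pow_mod ((χ g - i * χ' g).val + (χ' g).val * i) hζ.pow_eq_one,
        ← ZMod.val_natCast]
      congr 2
      push_cast
      simp only [ZMod.natCast_zmod_val]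
      ring
    rw [map_div₀, map_pow, hα g hg, hβ g hg, e, pow_add, pow_mul, mul_pow]
    field_simp
  obtain ⟨y, hy0, hyH, hy⟩ := hSYM p ζ A (α / β ^ i) D HA H'' ψ _ _ t hp2 hζ hDζ hψ hφ hSA hS2 hA0
    (div_ne_zero hα0 (pow_ne_zero _ hβ0)) hψA hq (by
      rwa [div_pow, ← pow_mul, mul_comm i p, pow_mul])
  refine hn ⟨y, hy0, fun g hg => hyH g ((hH'' g).2 ?_), hy.trans hA⟩
  obtain ⟨e1, e2, e3⟩ := (hB g).1 hg
  exact ⟨e1, by simp only [e2, e3, mul_zero, sub_zero]⟩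

end Pool.Agent.MP_3e91a1_nt
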