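import Pool.Agent.MP_3e91a1_nt.St
import Pool.Agent.MP_f3cd89_nt.Vlat

set_option autoImplicit false

open NumberField IsDedekindDomain Module Filter Topology Finset Polynomial
open scoped Classical

namespace Pool.Agent.MP_3e91a1_nt

open MP_e23604_nt MP_e23604_nt.B MP_e23604_nt.R MP_f3cd89_nt

open VlatX in
theorem ind_WVL {L G : Type} [Field L] [Group G] [MulSemiringAction G L] (γ : G) (n : ℕ)
    (hγ : γ ^ n = 1) (Λ : AddSubgroup L) (hst : ∀ l ∈ Λ, γ • l ∈ Λ)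
    (hmul : ∀ l ∈ Λ, ∀ l' ∈ Λ, l * l' ∈ Λ) (M : ℕ) (MM : (M : L) ≠ 0)
    (hne : ∀ l ∈ Λ, 1 + (M : L) * l ≠ 0) (hdiv : ∀ l ∈ Λ, ∀ l' ∈ Λ, l' / (1 + (M : L) * l) ∈ Λ)
    (hT : ∀ l ∈ Λ, γ • l = l → ∃ l₀ ∈ Λ, ∑ j ∈ range n, γ ^ j • l₀ = l) (l : L) (hl : l ∈ Λ)
    (hf : γ • (1 + (M : L) * l) = 1 + (M : L) * l) (k : ℕ) :
    ∃ β ∈ Λ, ∃ l' ∈ Λ, 1 + (M : L) * l =
      (∏ j ∈ range n, γ ^ j • (1 + (M : L) * β)) * (1 + ((M ^ (k + 1) : ℕ) : L) * l') := by
  induction k with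
  | zero => exact ⟨0, zero_mem _, l, hl, by simp⟩
  | succ k ih =>
    obtain ⟨β, hβ, l', hl', e⟩ := ih
    have N0 : ∏ j ∈ range n, γ ^ j • (1 + (M : L) * β) ≠ 0 := fun h => by
      rw [h, zero_mul] at e
      exact hne l hl e
    have N1 : γ • ∏ j ∈ range n, γ ^ j • (1 + (M : L) * β) =
        ∏ j ∈ range n, γ ^ j • (1 + (M : L) * β) := by
      have e4 := prod_range_succ' (fun j => γ ^ j • (1 + (M : L) * β)) n
      rw [prod_range_succ, hγ, pow_zero, one_smul] at e4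
      rw [smul_prod']
      simp only [← mul_smul, ← pow_succ']
      exact (mul_right_cancel₀ (hne β hβ) e4).symm
    have f1 : γ • l' = l' := by
      rw [e, smul_mul', N1, smul_one_add] at hf
      refine mul_left_cancel₀ ?_ (add_left_cancel (mul_left_cancel₀ N0 hf))
      rw [Nat.cast_pow]
      exact pow_ne_zero _ MM
    obtain ⟨l₀, h0, e0⟩ := hT l' hl' f1
    obtain ⟨l'', h2, e2⟩ := prod_conj γ Λ hst hmul (M ^ (k + 1)) l₀ h0 n
    have hm : ((M ^ k : ℕ) : L) * (l' + ((M ^ (k + 1) : ℕ) : L) * l'') ∈ Λ :=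
      ncm Λ _ (add_mem hl' (ncm Λ _ h2))
    refine ⟨β + ((M ^ k : ℕ) : L) * l₀ + ((M ^ (k + 1) : ℕ) : L) * (β * l₀),
      add_mem (add_mem hβ (ncm Λ _ h0)) (ncm Λ _ (hmul _ hβ _ h0)), _,
      neg_mem (hdiv _ hm _ (ncm Λ (M ^ k) h2)), ?_⟩
    have e3 : 1 + (M : L) * (β + ((M ^ k : ℕ) : L) * l₀ + ((M ^ (k + 1) : ℕ) : L) * (β * l₀)) =
        (1 + (M : L) * β) * (1 + ((M ^ (k + 1) : ℕ) : L) * l₀) := by
      push_cast
      ring
    have e5 : 1 + ((M ^ (k + 1) : ℕ) : L) * l' + ((M ^ (k + 1) : ℕ) : L) ^ 2 * l'' =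
        1 + (M : L) * (((M ^ k : ℕ) : L) * (l' + ((M ^ (k + 1) : ℕ) : L) * l'')) := by
      push_cast
      ring
    have y0 := hne _ hm
    rw [e3]
    simp only [smul_mul' (γ ^ _) (1 + (M : L) * β)]
    rw [prod_mul_distrib, e2, e0, e, mul_assoc, e5]
    refine congrArg _ ?_
    rw [mul_add, mul_one, mul_neg, mul_neg, mul_left_comm _ ((M ^ (k + 1 + 1) : ℕ) : L),
      mul_div_cancel₀ _ y0]
    push_cast
    ring

open VlatX in
theorem tr_WVL {F L G : Type} [Field F] [Field L] [Algebra F L] [Group G] [Fintype G]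
    [MulSemiringAction G L] [SMulCommClass G F L] (b : Basis G F L) (hb : ∀ g, b g = g • b 1)
    (R : Subring F) (γ : G) (hγ : ∀ g, g ∈ Subgroup.zpowers γ) :
    ∀ l ∈ Lam b R, γ • l = l → ∃ l₀ ∈ Lam b R, ∑ j ∈ range (Nat.card G), γ ^ j • l₀ = l := by
  intro l hl hf
  refine ⟨b.repr l 1 • b 1, lam_basis b R (hl 1) 1, ?_⟩
  have e1 : ∀ y : L, ∑ j ∈ range (Nat.card G), γ ^ j • y = ∑ g : G, g • y := fun y => by
    rw [← IsCyclic.image_range_card hγ, sum_image]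
    intro i hi j hj e
    rw [← orderOf_eq_card_of_forall_mem_zpowers hγ] at hi hj
    exact pow_injOn_Iio_orderOf (by simpa using hi) (by simpa using hj) e
  have e2 : ∀ g : G, g • l = l := fun g =>
    (Subgroup.zpowers_le_of_mem (H := MulAction.stabilizer G l) hf) (hγ g)
  rw [e1]
  conv_rhs => rw [← b.sum_repr l]
  refine sum_congr rfl fun g _ => ?_
  have e3 := repr_smul b hb g g l
  rw [e2, inv_mul_cancel] at e3
  rw [smul_comm, ← hb, e3]

open VlatX in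
theorem VL_pf : VL_st := by
  intro F L _ _ _ _ _ _ γ S hS hγ
  rw [← IsGalois.card_aut_eq_finrank]
  obtain ⟨b, D, hb, D0, hD, h1, h2⟩ := exists_basis (L := L) (L ≃ₐ[F] L) S
  let M0 : ℕ := ∏ w ∈ above L S, nrm w
  have M00 : M0 ≠ 0 := prod_ne_zero_iff.2 fun w _ => by have := two_le_nrm w; omega
  obtain ⟨M, hM⟩ : ∃ M : ℕ, M = Nat.card (L ≃ₐ[F] L) * M0 := ⟨_, rfl⟩
  have MM : (M : L) ≠ 0 := Nat.cast_ne_zero.2 (hM ▸ mul_ne_zero Nat.card_pos.ne' M00)
  have hO : ∀ y ∈ Lam b (OS S), y ∈ OS (above L S) := fun y hy => by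
    have := mul_mem (h1 y hy) hD
    rwa [div_mul_cancel₀ _ D0] at this
  have hv : ∀ y ∈ OS (above L S), ∀ w ∈ above L S,
      w.valuation L ((M : L) * y) ≤ WithZero.exp (-((1 : ℕ) : ℤ)) := fun y hy w hw => by
    have e : ((M : ℕ) : 𝓞 L) ∈ w.asIdeal ^ 1 := by
      obtain ⟨c, hc⟩ : nrm w ∣ M := hM ▸ Dvd.dvd.mul_left (dvd_prod_of_mem _ hw) _
      rw [pow_one, hc, Nat.cast_mul]
      exact Ideal.mul_mem_right _ _ (Ideal.absNorm_mem _)
    have e' := (w.valuation_of_algebraMap (K := L) (M : 𝓞 L)).le.trans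
      ((w.intValuation_le_pow_iff_mem _ _).2 e)
    rw [map_mul]
    exact (mul_le_of_le_one_right' (hy w hw)).trans e'
  have hu : ∀ y ∈ OS (above L S), ∀ w ∈ above L S, w.valuation L (1 + (M : L) * y) = 1 :=
    fun y hy w hw => Valuation.map_one_add_of_lt _ ((hv y hy w hw).trans_lt (by
      rw [← WithZero.exp_zero, WithZero.exp_lt_exp]
      norm_num))
  have hq : ∀ l ∈ Lam b (OS S), ∀ l' ∈ Lam b (OS S), ∀ y ∈ OS (above L S),
      l * l' * y ∈ Lam b (OS S) := fun l hl l' hl' y hy => by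
    have := h2 _ (mul_mem (mul_mem (h1 l hl) (h1 l' hl')) hy)
    rwa [show D ^ 2 * (l / D * (l' / D) * y) = l * l' * y by field_simp] at this
  have hne : ∀ l ∈ Lam b (OS S), 1 + (M : L) * l ≠ 0 := fun l hl h => by
    obtain ⟨v, hv⟩ := hS
    obtain ⟨w, rfl⟩ := under_surj (E' := L) v
    have := hu l (hO l hl) w (mem_above.2 hv)
    rw [h, map_zero] at this
    exact zero_ne_one this
  have hmul : ∀ l ∈ Lam b (OS S), ∀ l' ∈ Lam b (OS S), l * l' ∈ Lam b (OS S) :=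
    fun l hl l' hl' => by simpa using hq l hl l' hl' 1 (one_mem _)
  have hdiv : ∀ l ∈ Lam b (OS S), ∀ l' ∈ Lam b (OS S), l' / (1 + (M : L) * l) ∈ Lam b (OS S) :=
    fun l hl l' hl' => by
      have y0 := hne l hl
      have := sub_mem hl' (ncm _ M (hq l hl l' hl' (1 + (M : L) * l)⁻¹ fun w hw => by
        rw [map_inv₀, hu l (hO l hl) w hw, inv_one]))
      rwa [show l' - (M : L) * (l * l' * (1 + (M : L) * l)⁻¹) = l' / (1 + (M : L) * l) by
        field_simp; ring] at this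
  obtain ⟨V, hV, hV1, hV2⟩ := exists_V γ (Nat.card (L ≃ₐ[F] L)) M0 Nat.card_pos pow_card_eq_one'
    (Lam b (OS S)) (lam_st b hb _ γ) hmul M hM M00 hne hdiv (lam_H b hb _ γ hγ M)
  have c0 : (M : L) * D ^ 2 ≠ 0 := mul_ne_zero MM (pow_ne_zero _ D0)
  refine ⟨V, (above L S).sup (fun w => (ord w ((M : L) * D ^ 2)).toNat) + 1, Nat.succ_pos _, hV1,
    fun a ha w hw => ?_, fun a ha => ?_, hV2, fun n a ha hf => ?_⟩
  · obtain ⟨l, hl, e⟩ := (hV a).1 ha
    rw [e, add_sub_cancel_left]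
    exact hv l (hO l hl) w hw
  · refine (hV a).2 ⟨_, h2 ((((Additive.toMul a : Lˣ) : L) - 1) / ((M : L) * D ^ 2))
      fun w hw => ?_, by field_simp; ring⟩
    rw [map_div₀, val_eq_exp w c0, div_le_one₀ WithZero.exp_pos]
    refine (ha w hw).trans (WithZero.exp_le_exp.2 ?_)
    have : (ord w ((M : L) * D ^ 2)).toNat ≤
        (above L S).sup fun w => (ord w ((M : L) * D ^ 2)).toNat :=
      le_sup (f := fun w : Pr L => (ord w ((M : L) * D ^ 2)).toNat) hw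
    push_cast
    omega
  · obtain ⟨l, hl, e⟩ := (hV a).1 ha
    have hf' : γ • ((Additive.toMul a : Lˣ) : L) = ((Additive.toMul a : Lˣ) : L) :=
      congrArg (fun a : Additive Lˣ => ((Additive.toMul a : Lˣ) : L)) hf
    obtain ⟨β, hβ, l', hl', e'⟩ := ind_WVL γ _ pow_card_eq_one' (Lam b (OS S)) (lam_st b hb _ γ)
      hmul M MM hne hdiv (tr_WVL b hb _ γ hγ) l hl (e ▸ hf') n
    refine ⟨Additive.ofMul (Units.mk0 _ (hne β hβ)), (hV _).2 ⟨β, hβ, rfl⟩, fun w hw => ?_⟩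
    have N0 : ∏ j ∈ range (Nat.card (L ≃ₐ[F] L)), γ ^ j • (1 + (M : L) * β) ≠ 0 := fun h => by
      rw [h, zero_mul] at e'
      exact hne l hl e'
    rw [toMul_sub, Units.val_div_eq_div_val, coe_nmH, e, e', toMul_ofMul, Units.val_mk0,
      mul_div_cancel_left₀ _ N0, add_sub_cancel_left, Nat.cast_pow, pow_succ, mul_assoc, map_mul,
      map_pow]
    have h3 := hv 1 (one_mem _) w hw
    rw [mul_one] at h3
    refine (mul_le_of_le_one_right' (mul_mem (natCast_mem _ M) (hO l' hl') w hw)).trans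
      ((pow_le_pow_left' h3 n).trans (le_of_eq ?_))
    rw [← WithZero.exp_nsmul]
    simp

end Pool.Agent.MP_3e91a1_nt
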